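import Mathlib

/-!
# Project CG (helper1): many congruent numbers (MP_05dcdc_nt)

THEOREM. For all `M ≥ 1` and `a` coprime to `M` there are `c > 0`, `X₀` such that for all `X ≥ X₀` at least
`c √X (log X)^4` integers `n ≤ X` are odd squarefree congruent numbers with `n ≡ a` modulo `M`.
(Known order, in the classes 1, 2, 3 modulo 8: `√X`.)

PROOF. `n = x r p c d` with `a = s² x`, `b = u² r p`, `b - a = v² c`, `b + a = w² d`: then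
`n (s u v w)² = a b (b² - a²)`, so `n` is congruent. Here `p` is a prime, `x, u, r, v, w` are at most a small
power of `X`, `s` is about `X^(1/6)`. For given dyadic ranges of `x, u, r, v, w` there are about
`√X / log X` such tuples with `n ≤ X` squarefree (box count); there are `(log X)^5` choices of the dyadic
ranges. Two tuples rarely give the same `n` (collisions): the primes `p, p'` are determined by the other
parameters.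

`W` is divisible by `2 M` and by all primes `≤ 1000`; `a0` is coprime to `W`, `a0 ≡ a` modulo `M`.
-/

set_option autoImplicit false

namespace Pool.Agent.T2h1.CG

open Finset

/-- the sum of the reciprocals of the prime factors -/
noncomputable def sig (y : ℕ) : ℝ := ∑ l ∈ y.primeFactors, (1 / (l : ℝ))

/-- `(Y, 2 Y]` -/
def Iv (Y : ℕ) : Finset ℕ := Finset.Ioc Y (2 * Y)

open Classical in
/-- squarefree numbers `≡ 1` modulo `W` in `(Y, 2 Y]` with a small sum of reciprocals of prime factors -/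
noncomputable def Nice (W Y : ℕ) : Finset ℕ :=
  (Iv Y).filter (fun y => y ≡ 1 [MOD W] ∧ Squarefree y ∧ sig y ≤ 1 / 32)

/-- all primes up to 1000 divide `W` -/
def Wok (W : ℕ) : Prop := 0 < W ∧ ∀ l : ℕ, l.Prime → l ≤ 1000 → l ∣ W

/-- `c = (u² r p - s² x) / v²` -/
def cc (x u r v s p : ℕ) : ℕ := (u ^ 2 * r * p - s ^ 2 * x) / v ^ 2

/-- `d = (u² r p + s² x) / w²` -/
def dd (x u r w s p : ℕ) : ℕ := (u ^ 2 * r * p + s ^ 2 * x) / w ^ 2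

/-- the number `n = x r p c d` -/
def nn (x u r v w s p : ℕ) : ℕ := x * r * p * cc x u r v s p * dd x u r w s p

/-- the tuples which are used -/
structure Good (W a0 x u r v w s p : ℕ) : Prop where
  pr : p.Prime
  x0 : 0 < x
  u0 : 0 < u
  s0 : 0 < s
  v0 : 0 < v
  w0 : 0 < w
  sqx : Squarefree x
  sqr : Squarefree r
  xp : x < p
  rp : r < p
  lt : s ^ 2 * x < u ^ 2 * r * p
  cop : Nat.Coprime (s ^ 2 * x) (u ^ 2 * r * p)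
  dv : v ^ 2 ∣ u ^ 2 * r * p - s ^ 2 * x
  dw : w ^ 2 ∣ u ^ 2 * r * p + s ^ 2 * x
  sqc : Squarefree (cc x u r v s p)
  sqd : Squarefree (dd x u r w s p)
  Ws : W ∣ s
  u1 : u ≡ 1 [MOD W]
  r1 : r ≡ 1 [MOD W]
  v1 : v ≡ 1 [MOD W]
  w1 : w ≡ 1 [MOD W]
  hx : x * p ^ 3 ≡ a0 [MOD W]

/-- `n` is the area of a right triangle with rational sides -/
def IsCongruent (n : ℕ) : Prop :=
  ∃ a b c : ℚ, 0 < a ∧ 0 < b ∧ 0 < c ∧ a ^ 2 + b ^ 2 = c ^ 2 ∧ (n : ℚ) = a * b / 2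

/-- **SQF**. The number `n` of a good tuple is squarefree, congruent, and `n ≡ a0` modulo `W`. -/
def S_SQF : Prop := ∀ W a0 x u r v w s p : ℕ, Wok W → Nat.Coprime a0 W →
  Good W a0 x u r v w s p →
  Squarefree (nn x u r v w s p) ∧ nn x u r v w s p ≡ a0 [MOD W] ∧ IsCongruent (nn x u r v w s p) ∧
  nn x u r v w s p * (v ^ 2 * w ^ 2) =
    x * r * p * (u ^ 2 * r * p - s ^ 2 * x) * (u ^ 2 * r * p + s ^ 2 * x)

/-- tuples `(x, u, r, v, w, s, p)` -/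
abbrev Tup : Type := ℕ × ℕ × ℕ × ℕ × ℕ × ℕ × ℕ

/-- good tuples -/
def TG (W a0 : ℕ) (t : Tup) : Prop :=
  Good W a0 t.1 t.2.1 t.2.2.1 t.2.2.2.1 t.2.2.2.2.1 t.2.2.2.2.2.1 t.2.2.2.2.2.2

/-- the number of a tuple -/
def Tn (t : Tup) : ℕ :=
  nn t.1 t.2.1 t.2.2.1 t.2.2.2.1 t.2.2.2.2.1 t.2.2.2.2.2.1 t.2.2.2.2.2.2

/-- the size conditions for the tuples in the collision lemma -/
def TB (Y Z E P0 : ℕ) (t : Tup) : Prop :=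
  t.1 ≤ Y ∧ t.2.1 ≤ Y ∧ t.2.2.1 ≤ Y ∧ t.2.2.2.1 ≤ Y ∧ t.2.2.2.2.1 ≤ Y ∧ t.2.2.2.2.2.1 ≤ Z ∧
  Y < t.2.2.2.2.2.2 ∧ P0 ≤ t.2.2.2.2.2.2 ∧
  cc t.1 t.2.1 t.2.2.1 t.2.2.2.1 t.2.2.2.2.2.1 t.2.2.2.2.2.2 ≤ E * P0 ∧
  dd t.1 t.2.1 t.2.2.1 t.2.2.2.2.1 t.2.2.2.2.2.1 t.2.2.2.2.2.2 ≤ E * P0

open Classical in
/-- **COL** (about 250 lines). Collisions are rare.
PROOF. Let `t ≠ t'` with `n = n'`; put `a = s²x`, `B = u²r`, `b = B p`, and the same with primes.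
From `S_SQF`-type identity `n v² w² = x r p (b - a)(b + a)` (easy from `dv`, `dw`).
Case 1, `p = p'`. With `K = x r v'² w'²`, `K' = x' r' v² w²`: `K (B²p² - a²) = K' (B'²p² - a'²)`, i.e.
`(K B² - K' B'²) p² = K a² - K' a'²` (in `ℤ`). If `K B² = K' B'²` then `K a² = K' a'²`, so `B a' = B' a`,
`b a' = b' a`, and `a = a'`, `b = b'` because `gcd(a,b) = 1 = gcd(a',b')`; then `x = x'`, `s = s'` (`x`, `x'`
squarefree: `s²x = s'²x'`), `r p = r' p` and `u = u'` (`r p` squarefree), `c = c'`, `v = v'` (`v²c = v'²c'`,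
squarefree `c, c'`), `d = d'`, `w = w'`; so `t = t'`. Otherwise `p` is determined by the other 12
parameters `x,...,s,x',...,s'`.
Case 2, `p ≠ p'`. `p'` divides `n = x r p c d`, `p' > Y ≥ x, r`, so `p' ∣ c` or `p' ∣ d`: `c = e p'` (put
`ε = 1`, `A = v² e`) or `d = e p'` (`ε = -1`, `A = w² e`), `e ≤ E` since `c, d ≤ E P0 ≤ E p'`; so
`B p - ε a = A p'`. In the same way `B' p' - ε' a' = A' p`, `A' = v'² e'` or `w'² e'`. So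
`(B B' - A A') p = ε B' a + ε' A a'`. If `B B' ≠ A A'` then `p`, and so `p'`, is determined by the 12 parameters and
`e, e', ε, ε'`. If `B B' = A A'` then `ε B' a + ε' A a' = 0`, so `ε' = -ε`, `B' a = A a'`. Now
`n v² w² = x r p (Bp - εa)(Bp + εa) = x r p A p' (Bp + εa)`,
`n' v'² w'² = x' r' p' (B'p' - ε'a')(B'p' + ε'a') = x' r' p' A' p (B'p' + ε'a')`, and
`A (B'p' + ε'a') = B'(Bp - εa) - ε B' a = B' (B p - 2 ε a)`. So `n = n'` gives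
`x r A² v'² w'² (B p + ε a) = x' r' A' B' v² w² (B p - 2 ε a)`: `K1 (Bp + εa) = K2 (Bp - 2εa)`, so
`(K1 - K2) B p = - ε (K1 + 2 K2) a ≠ 0`, and `p` is determined by the other parameters again; `p'` by
`A p' = B p - ε a`.
So map a collision to (the 12 parameters, `e`, `e'`, `ε`, `ε'`, case): this map is injective. -/
def S_COL : Prop := ∀ (W a0 Y Z E P0 : ℕ) (G : Finset Tup), Wok W →
  (∀ t ∈ G, TG W a0 t ∧ TB Y Z E P0 t) →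
  ((G ×ˢ G).filter (fun q : Tup × Tup => q.1 ≠ q.2 ∧ Tn q.1 = Tn q.2)).card ≤
    8 * (Y + 1) ^ 10 * (Z + 1) ^ 2 * (E + 1) ^ 2

/-- **APC** (about 40 lines). Elements of `(Y, 2Y]` congruent to each other modulo `N`. -/
def S_APC : Prop := ∀ (Y N : ℕ) (A : Finset ℕ), 0 < N → A ⊆ Iv Y →
  (∀ y ∈ A, ∀ z ∈ A, y ≡ z [MOD N]) → (A.card : ℝ) ≤ (Y : ℝ) / N + 1

/-- **COP** (about 50 lines, from `S_APC`). Elements of a progression not coprime to `k`: sum over the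
primes `l ∣ k` of `Y / (q l) + 1`. -/
def S_COP : Prop := ∀ (Y q k : ℕ) (A : Finset ℕ), 0 < q → 0 < k → Nat.Coprime q k → A ⊆ Iv Y →
  (∀ y ∈ A, ∀ z ∈ A, y ≡ z [MOD q]) →
  ((A.filter (fun y : ℕ => ¬ Nat.Coprime y k)).card : ℝ) ≤ sig k * Y / q + k.primeFactors.card

/-- **SQA** (about 60 lines, from `S_APC`). Elements of a progression modulo `q` with a property which
forces a progression modulo `q l²`, summed over the primes `1000 < l ≤ L`.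
PROOF. `∑_{l > 1000} 1 / l² ≤ 1 / 1000`, and there are at most `L` primes. -/
def S_SQA : Prop := ∀ (Y q L : ℕ) (A : Finset ℕ) (B : ℕ → ℕ → Prop), 0 < q → A ⊆ Iv Y →
  (∀ l : ℕ, l.Prime → l ≤ 1000 → ∀ y ∈ A, ¬ B l y) →
  (∀ l : ℕ, l.Prime → 1000 < l → ∀ y ∈ A, ∀ z ∈ A, B l y → B l z → y ≡ z [MOD (q * l ^ 2)]) →
  ∀ A' : Finset ℕ, A' ⊆ A → (∀ y ∈ A', ∃ l : ℕ, l.Prime ∧ l ≤ L ∧ B l y) →
  (A'.card : ℝ) ≤ (Y : ℝ) / (1000 * q) + L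

/-- **NIC** (about 100 lines, from `S_APC`, `S_SQA`). Most numbers are nice.
PROOF. At least `Y / W - 1` elements of `(Y, 2Y]` are `≡ 1` modulo `W` (they are coprime to `W`, so their
prime factors are `> 1000`). Not squarefree: `S_SQA` with `L = √(2Y)`. `sig y > 1 / 32`: at most
`32 ∑_y sig y ≤ 32 ∑_{1000 < l ≤ 2Y} (1 / l) (Y / (W l) + 1) ≤ 32 (Y / (1000 W) + 1 + log (2Y))`. -/
def S_NIC : Prop := ∀ W : ℕ, Wok W → ∃ Y0 : ℕ, ∀ Y : ℕ, Y0 ≤ Y →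
  (Y : ℝ) / (2 * W) ≤ (Nice W Y).card

/-- the condition for `x`; only the squares of the primes `l ≤ L1` are excluded -/
def XOK (W a0 L1 u r v w s p x : ℕ) : Prop :=
  x * p ^ 3 ≡ a0 [MOD W] ∧ v ^ 2 ∣ u ^ 2 * r * p - s ^ 2 * x ∧ w ^ 2 ∣ u ^ 2 * r * p + s ^ 2 * x ∧
  Squarefree x ∧ Nat.Coprime x (u * r) ∧
  ∀ l : ℕ, l.Prime → l ≤ L1 → ¬ l ^ 2 ∣ cc x u r v s p ∧ ¬ l ^ 2 ∣ dd x u r w s p

/-- the coprimality conditions for `u, r, v, w, s, p` -/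
structure Cop (W u r v w s p : ℕ) : Prop where
  pr : p.Prime
  u0 : 0 < u
  r0 : 0 < r
  v0 : 0 < v
  w0 : 0 < w
  s0 : 0 < s
  Ws : W ∣ s
  u1 : u ≡ 1 [MOD W]
  r1 : r ≡ 1 [MOD W]
  v1 : v ≡ 1 [MOD W]
  w1 : w ≡ 1 [MOD W]
  pW : Nat.Coprime p W
  vw : Nat.Coprime v w
  vs : Nat.Coprime v (u * r * s * p)
  ws : Nat.Coprime w (u * r * s * p)
  su : Nat.Coprime s (u * r * p)
  sigu : sig u ≤ 1 / 32
  sigr : sig r ≤ 1 / 32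

open Classical in
/-- **XCT** (about 200 lines, from `S_APC`, `S_COP`, `S_SQA`). The number of the `x`.
PROOF. `N = W v² w²`. By the Chinese remainder theorem there is a `ξ` with `ξ p³ ≡ a0` modulo `W`,
`s² ξ ≡ u² r p` modulo `v²`, `s² ξ ≡ - u² r p` modulo `w²`; the `x ∈ (D, 2D]` with `x ≡ ξ` modulo `N` form the
set `A`, at least `D / N - 1` elements. They are coprime to `W v w`. In `A` remove:
(1) `x` not coprime to `u r`: `S_COP` with `q = N`, `k = u` and `k = r`: at most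
`(1/16) D / N + ω(u) + ω(r)`;
(2) `x` not squarefree: `l² ∣ x` with `l ≤ √(2D)`, `l ∤ N`: `S_SQA` with `q = N`, `L = Nat.sqrt (2 D)`;
(3) `l² ∣ c`, `l ≤ L1`: here `l ∤ W` (`c v² = u²rp - s²x ≡ p` modulo the primes dividing `W`), `l ∤ s`, `l ∤ w`
(else `l` divides `b - a` and `b + a`, `l` is odd, so `l` divides `a` and `b`; `l ∤ s` as `gcd(s, u r p) = 1`,
so `l ∣ x` and `l ∣ u r p`, but `gcd(x, u r) = 1` and `x < p`; so remove (1) first), and the `x` with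
`l² ∣ c` satisfy `s² x ≡ u² r p` modulo `v² l²`, so they are congruent modulo `W w² v² l²`: `S_SQA` with
`q = N`, `L = L1`; (4) the same for `d`.
The total removed is at most `(1/16 + 3/1000) D / N + ω(u) + ω(r) + √(2D) + 2 L1 + 1 ≤ D / (2 N)`. -/
def S_XCT : Prop := ∀ (W a0 L1 D u r v w s p : ℕ), Wok W → Nat.Coprime a0 W → Cop W u r v w s p →
  s ^ 2 * (2 * D) < u ^ 2 * r * p → 2 * D < p →
  16 * (W * v ^ 2 * w ^ 2) *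
    (u.primeFactors.card + r.primeFactors.card + Nat.sqrt (2 * D) + 2 * L1 + 2) ≤ D →
  (D : ℝ) / (2 * (W * v ^ 2 * w ^ 2)) ≤
    ((Iv D).filter (fun x => XOK W a0 L1 u r v w s p x)).card

open Classical in
/-- **LRG** (about 80 lines, from `S_APC` or directly). Large square factors, for given `x, u, r, s`.
PROOF. `l² ∣ u²rp ± s²x` with `l > L1`; `l ∤ u r` (otherwise `l ∣ s² x` and `l ∣ u² r p`, against
the coprimality), so the `p` are congruent modulo `l²`; at most `3 P / l² + 1` of them for each `l` and sign,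
and `l² ≤ u²rp + s²x < 2 u² r (4P) ≤ Q²`. Sum over `L1 < l ≤ Q`: `3 P / L1 + Q` for each sign. -/
def S_LRG : Prop := ∀ (L1 P Q x u r s : ℕ), 0 < L1 → 0 < x → 0 < s → 0 < u → 0 < r →
  8 * (u ^ 2 * r * P) ≤ Q ^ 2 →
  (((Finset.Ioc P (4 * P)).filter (fun p => s ^ 2 * x < u ^ 2 * r * p ∧
    Nat.Coprime (s ^ 2 * x) (u ^ 2 * r * p) ∧ ∃ l : ℕ, l.Prime ∧ L1 < l ∧
      (l ^ 2 ∣ u ^ 2 * r * p - s ^ 2 * x ∨ l ^ 2 ∣ u ^ 2 * r * p + s ^ 2 * x))).card : ℝ) ≤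
    2 * (3 * P / L1 + Q)

/-- **CHB** (about 40 lines). Primes in `(2^k, 2^(k+2)]`. Mathlib: `Chebyshev.theta_ge`,
`Chebyshev.theta_le_log4_mul_x`: `θ(4P) - θ(P) ≥ 4 P log 2 - 2 P log 2 - o(P)`. -/
def S_CHB : Prop := ∃ c : ℝ, 0 < c ∧ ∃ k0 : ℕ, ∀ k : ℕ, k0 ≤ k →
  c * 2 ^ k / k ≤ (((Finset.Ioc (2 ^ k) (4 * 2 ^ k)).filter Nat.Prime).card : ℝ)

/-- the box of the tuples -/
def InBox (W D U R V Z S P : ℕ) (t : Tup) : Prop :=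
  t.1 ∈ Iv D ∧ t.2.1 ∈ Iv U ∧ t.2.2.1 ∈ Iv R ∧ t.2.2.2.1 ∈ Iv V ∧ t.2.2.2.2.1 ∈ Iv Z ∧
  (∃ s1 ∈ Iv S, t.2.2.2.2.2.1 = W * s1) ∧ t.2.2.2.2.2.2 ∈ Finset.Ioc P (4 * P)

/-- the final theorem -/
def S_MAIN : Prop := ∀ M a : ℕ, 0 < M → Nat.Coprime a M → ∃ c : ℝ, 0 < c ∧ ∃ X0 : ℕ, ∀ X : ℕ,
  X0 ≤ X → c * Real.sqrt X * Real.log X ^ 4 ≤
    (({n : ℕ | n ≤ X ∧ Squarefree n ∧ Odd n ∧ n ≡ a [MOD M] ∧ IsCongruent n}.ncard : ℕ) : ℝ)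

/-- **BOX** (helper1, from `S_NIC`, `S_COP`, `S_XCT`, `S_LRG`). The number of good tuples in a box. `K` bounds
the binary logarithms of the sizes. -/
def S_BOX : Prop := ∀ (W a0 : ℕ), Wok W → Nat.Coprime a0 W → ∃ C : ℕ, 0 < C ∧
  ∀ (D U R V Z S P L1 Q K : ℕ), 0 < L1 →
  2 * D ≤ 2 ^ K → 2 * U ≤ 2 ^ K → 2 * R ≤ 2 ^ K → 2 * V ≤ 2 ^ K → 2 * Z ≤ 2 ^ K →
  C * (K + 1) ≤ U → C * (K + 1) ≤ R → C * (K + 1) ≤ V → C * (K + 1) ≤ Z → C * (K + 1) ≤ S →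
  2 ^ K < P → C ≤ P → 2 * W * S < P →
  8 * W ^ 2 * S ^ 2 * D ≤ U ^ 2 * R * P →
  C * (V * Z) ^ 2 * (K + 1 + Nat.sqrt (2 * D) + L1) ≤ D →
  64 * (U ^ 2 * R * P) ≤ Q ^ 2 →
  C * (V * Z) ^ 2 * (P + L1 * Q) ≤ L1 * ((Finset.Ioc P (4 * P)).filter Nat.Prime).card →
  ∃ G : Finset Tup, (∀ t ∈ G, TG W a0 t ∧ InBox W D U R V Z S P t) ∧
    U * R * S * D * ((Finset.Ioc P (4 * P)).filter Nat.Prime).card ≤ C * (V * Z) * G.card

/-- **EXP** (about 150 lines). The choice of the sizes: powers of two. For `L = 6000` and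
`20 m < i1, i2, i3 ≤ 21 m`, `m < i4, i5 ≤ 2 m`, `m` large, `W ≤ 2 ^ w0`:
`p = (L m + 2 i4 + 2 i5 - 14 - i1 - 4 i2 - 3 i3) / 3`, `σ = (2 i2 + i3 + p - 3 - 2 w0 - i1) / 2`,
`q = (7 + 2 i2 + i3 + p) / 2`, `L1 = 2 ^ (9 m)`, `K = 22 m` satisfy all the hypotheses of `S_BOX` (with
`D = 2^i1, U = 2^i2, R = 2^i3, V = 2^i4, Z = 2^i5, S = 2^σ, P = 2^p, Q = 2^q`), and the bounds used
afterwards. -/
def S_EXP : Prop := S_CHB → ∀ (W C : ℕ), 0 < W → 0 < C → ∃ (δ : ℝ) (w0 m0 : ℕ), 0 < δ ∧ W ≤ 2 ^ w0 ∧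
  ∀ m i1 i2 i3 i4 i5 : ℕ, m0 ≤ m → 20 * m < i1 → i1 ≤ 21 * m → 20 * m < i2 → i2 ≤ 21 * m →
  20 * m < i3 → i3 ≤ 21 * m → m < i4 → i4 ≤ 2 * m → m < i5 → i5 ≤ 2 * m →
  ∃ p σ q : ℕ,
    0 < 2 ^ (9 * m) ∧ 2 * 2 ^ i1 ≤ 2 ^ (22 * m) ∧ 2 * 2 ^ i2 ≤ 2 ^ (22 * m) ∧
    2 * 2 ^ i3 ≤ 2 ^ (22 * m) ∧ 2 * 2 ^ i4 ≤ 2 ^ (22 * m) ∧ 2 * 2 ^ i5 ≤ 2 ^ (22 * m) ∧
    C * (22 * m + 1) ≤ 2 ^ i2 ∧ C * (22 * m + 1) ≤ 2 ^ i3 ∧ C * (22 * m + 1) ≤ 2 ^ i4 ∧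
    C * (22 * m + 1) ≤ 2 ^ i5 ∧ C * (22 * m + 1) ≤ 2 ^ σ ∧
    2 ^ (22 * m) < 2 ^ p ∧ C ≤ 2 ^ p ∧ 2 * W * 2 ^ σ < 2 ^ p ∧
    8 * W ^ 2 * (2 ^ σ) ^ 2 * 2 ^ i1 ≤ (2 ^ i2) ^ 2 * 2 ^ i3 * 2 ^ p ∧
    C * (2 ^ i4 * 2 ^ i5) ^ 2 * (22 * m + 1 + Nat.sqrt (2 * 2 ^ i1) + 2 ^ (9 * m)) ≤ 2 ^ i1 ∧
    64 * ((2 ^ i2) ^ 2 * 2 ^ i3 * 2 ^ p) ≤ (2 ^ q) ^ 2 ∧
    C * (2 ^ i4 * 2 ^ i5) ^ 2 * (2 ^ p + 2 ^ (9 * m) * 2 ^ q) ≤
      2 ^ (9 * m) * ((Finset.Ioc (2 ^ p) (4 * 2 ^ p)).filter Nat.Prime).card ∧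
    14 + i1 + 4 * i2 + 3 * i3 + 3 * p ≤ 6000 * m + 2 * i4 + 2 * i5 ∧
    p ≤ 2003 * m ∧ 1943 * m ≤ p ∧ σ ≤ 1033 * m ∧
    δ * 2 ^ (3000 * m) / m * (2 ^ i4 * 2 ^ i5) ≤
      ((2 ^ i2 * 2 ^ i3 * 2 ^ σ * 2 ^ i1 *
        ((Finset.Ioc (2 ^ p) (4 * 2 ^ p)).filter Nat.Prime).card : ℕ) : ℝ)

/-- **FIN** (about 200 lines, from `S_SQF`, `S_COL`, `S_CHB`, `S_BOX`, `S_EXP`). Sum over the `m^5` boxes.
PROOF. `W = 2 M 1000!`, `a0 ≡ a` modulo `M` coprime to `W` (`ZMod.unitsMap_surjective`). Let `G` be the union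
of the `m^5` sets given by `S_BOX` and `S_EXP` (disjoint: `t.1 ∈ Iv (2^i1)` determines `i1` etc.),
`|G| ≥ m^5 δ 2^(3000 m) / (C m)`. All `n` are `≤ 2^(6000 m)`: `n v² w² ≤ x r p b²`,
`x r p b² ≤ 2^(14 + i1 + 4 i2 + 3 i3 + 3 p)`, `v > 2^i4`, `w > 2^i5`. `S_COL` with `Y = 2^(22 m)`,
`Z = 2^(1034 m)` (`s ≤ 2 W S`), `P0 = 2^(1943 m)`, `E = 2^(130 m)` (`c, d ≤ 2 b ≤ 2^(6 + 63 m + p)`): at most
`2^(2600 m)` collisions (`8 (Y+1)^10 (Z+1)^2 (E+1)^2 ≤ 2^(3 + 220 m + 10 + 2068 m + 2 + 260 m + 2)`). So the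
number of different `n` is at least `|G| -` collisions (for every `n` with `k ≥ 1` tuples,
`1 ≥ k - k (k - 1)`). For general `X` take `m` with `2^(6000 m) ≤ X < 2^(6000 (m + 1))`. -/
def S_FIN : Prop := S_SQF → S_COL → S_CHB → S_BOX → S_EXP → S_MAIN

end Pool.Agent.T2h1.CG
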