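import Mathlib
import Pool.Agent.T2h1.CG.Stm

/-!
# Project CG (helper1): the parts of the last step
-/

set_option autoImplicit false

namespace Pool.Agent.T2h1.CG

open Finset

/-- the number of the congruent numbers of the class -/
noncomputable def cN (M a X : ℕ) : ℕ :=
  ({n : ℕ | n ≤ X ∧ Squarefree n ∧ Odd n ∧ n ≡ a [MOD M] ∧ IsCongruent n}.ncard : ℕ)

/-- **WAC** (about 40 lines). `W = 2 M 1000!`; `a0` from `ZMod.unitsMap_surjective` (or from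
`Nat.exists_coprime...`). -/
def S_WAC : Prop := ∀ M a : ℕ, 0 < M → Nat.Coprime a M → ∃ W a0 : ℕ, Wok W ∧ Nat.Coprime a0 W ∧
  2 ∣ W ∧ M ∣ W ∧ a0 ≡ a [MOD M]

open Classical in
/-- **IMG** (about 40 lines). For every value `n` with `k ≥ 1` preimages, `k ≤ 1 + k (k - 1)`. (For example:
choose a section `g` of `f` on `G.image f`; the elements of `G` not in the image of `g` inject into the
collisions by `t ↦ (t, g (f t))`.) -/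
def S_IMG : Prop := ∀ (G : Finset Tup) (f : Tup → ℕ),
  G.card ≤ (G.image f).card + ((G ×ˢ G).filter (fun q : Tup × Tup => q.1 ≠ q.2 ∧ f q.1 = f q.2)).card

/-- **XGE** (about 80 lines). From `X = 2^(6000 m)` to all `X`: `2^(6000 m) ≤ X < 2^(6000 (m + 1))`
(`m = Nat.log 2 X / 6000`), `√X ≤ 2^(3000 m) 2^3000`, `log X ≤ 6000 (m + 1) log 2 ≤ 12000 m`, and `cN` is
monotone in `X`. Take care that Lean does not compute `2 ^ 3000` or `2 ^ 6000` (generalise the constants). -/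
def S_XGE : Prop := ∀ M a : ℕ,
  (∃ c : ℝ, 0 < c ∧ ∃ m0 : ℕ, ∀ m : ℕ, m0 ≤ m →
    c * 2 ^ (3000 * m) * (m : ℝ) ^ 4 ≤ (cN M a (2 ^ (6000 * m)) : ℝ)) →
  ∃ c : ℝ, 0 < c ∧ ∃ X0 : ℕ, ∀ X : ℕ, X0 ≤ X →
    c * Real.sqrt X * Real.log X ^ 4 ≤ (cN M a X : ℝ)

/-- **SIZ** (about 100 lines, from `S_SQF`). The sizes in a box.
PROOF. `n v² w² = x r p (b - a)(b + a) ≤ x r p b²`, `b = u² r p`; `x ≤ 2^(i1+1)`, `u ≤ 2^(i2+1)`, `r ≤ 2^(i3+1)`,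
`p ≤ 2^(P+2)`, so `x r p b² ≤ 2^(14 + i1 + 4 i2 + 3 i3 + 3 p)`, and `v > 2^i4`, `w > 2^i5`. For `TB`: all of
`x, u, r, v, w` are `≤ 2^(21 m + 1) ≤ 2^(22 m) < 2^(1943 m) ≤ 2^p`, `s ≤ W 2^(σ+1) ≤ 2^(1034 m)`,
`c ≤ b`, `d ≤ b + a ≤ 2 b ≤ 2^(6 + 63 m + p) ≤ 2^(130 m + 1943 m)`. -/
def S_SIZ : Prop := ∀ W a0 w0 : ℕ, Wok W → Nat.Coprime a0 W → W ≤ 2 ^ w0 → ∃ m1 : ℕ,
  ∀ m i1 i2 i3 i4 i5 p σ : ℕ, m1 ≤ m → i1 ≤ 21 * m → i2 ≤ 21 * m → i3 ≤ 21 * m → i4 ≤ 2 * m →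
  i5 ≤ 2 * m → 14 + i1 + 4 * i2 + 3 * i3 + 3 * p ≤ 6000 * m + 2 * i4 + 2 * i5 →
  p ≤ 2003 * m → 1943 * m ≤ p → σ ≤ 1033 * m →
  ∀ t : Tup, TG W a0 t → InBox W (2 ^ i1) (2 ^ i2) (2 ^ i3) (2 ^ i4) (2 ^ i5) (2 ^ σ) (2 ^ p) t →
    Tn t ≤ 2 ^ (6000 * m) ∧ TB (2 ^ (22 * m)) (2 ^ (1034 * m)) (2 ^ (130 * m)) (2 ^ (1943 * m)) t

/-- **GLU** (about 150 lines, from all the others). The union of the `m^5` boxes. See the docstring of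
`S_FIN`. (`S_EXP` is applied to `S_CHB`, `W` and the `C` of `S_BOX`.) -/
def S_GLU : Prop := S_SQF → S_COL → S_CHB → S_BOX → S_EXP → S_WAC → S_IMG → S_XGE → S_SIZ → S_MAIN

end Pool.Agent.T2h1.CG
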