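import Pool.Agent.T2h1.CG.Stm

/-!
# Task APC
-/

set_option autoImplicit false

namespace Pool.Agent.T2h1.CG.APC

open Finset Pool.Agent.T2h1.CG

/-- Elements of an interval congruent to each other modulo `N`. -/
lemma card_le_gen (a b N : ℕ) (A : Finset ℕ) (hN : 0 < N) (hA : A ⊆ Finset.Ioc a b)
    (hAA : ∀ y ∈ A, ∀ z ∈ A, y ≡ z [MOD N]) : (A.card : ℝ) ≤ ((b - a : ℕ) : ℝ) / N + 1 := by
  rcases A.eq_empty_or_nonempty with rfl | hne
  · simp only [Finset.card_empty, Nat.cast_zero]
    positivity
  · set m := A.min' hne with hm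
    have hmA : m ∈ A := A.min'_mem hne
    have hle : ∀ y ∈ A, m ≤ y := fun y hy => A.min'_le y hy
    have hdv : ∀ y ∈ A, N * ((y - m) / N) = y - m := fun y hy =>
      Nat.mul_div_cancel' ((Nat.modEq_iff_dvd' (hle y hy)).1 (hAA m hmA y hy))
    have hcard : A.card ≤ (Finset.range ((b - a) / N + 1)).card := by
      refine Finset.card_le_card_of_injOn (fun y => (y - m) / N) ?_ ?_
      · intro y hy
        have h1 := Finset.mem_Ioc.1 (hA hy)
        have h2 := Finset.mem_Ioc.1 (hA hmA)
        simp only [Finset.coe_range, Set.mem_Iio]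
        exact Nat.lt_succ_of_le (Nat.div_le_div_right (by omega))
      · intro y hy z hz h
        have h1 := hdv y hy
        have h2 := hdv z hz
        have h3 := hle y hy
        have h4 := hle z hz
        simp only at h
        rw [h, h2] at h1
        omega
    rw [Finset.card_range] at hcard
    calc (A.card : ℝ) ≤ (((b - a) / N + 1 : ℕ) : ℝ) := by exact_mod_cast hcard
      _ = (((b - a) / N : ℕ) : ℝ) + 1 := by push_cast; ring
      _ ≤ _ := by
        have := Nat.cast_div_le (α := ℝ) (m := b - a) (n := N)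
        linarith

/-- Elements of `(Y, 2Y]` congruent to each other modulo `N`. -/
theorem t_APC : S_APC := by
  intro Y N A hN hA hAA
  have h := card_le_gen Y (2 * Y) N A hN hA hAA
  rwa [show 2 * Y - Y = Y by omega] at h

end Pool.Agent.T2h1.CG.APC
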