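import Pool.Agent.T2h1.CG.Stm

set_option autoImplicit false

namespace Pool.Agent.T2h1.CG.BOX

open Finset Pool.Agent.T2h1.CG

theorem sg {α : Type*} {β : α → Type*} (A : Finset α) (B : ∀ a, Finset (β a)) (a m : ℝ) (hm : 0 ≤ m)
    (hA : a ≤ A.card) (h : ∀ y ∈ A, m ≤ ((B y).card : ℝ)) : a * m ≤ ((A.sigma B).card : ℝ) := by
  rw [Finset.card_sigma]
  push_cast
  calc a * m ≤ (A.card : ℝ) * m := mul_le_mul_of_nonneg_right hA hm
    _ = ∑ a ∈ A, m := by simp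
    _ ≤ _ := Finset.sum_le_sum h

theorem sl {α : Type*} {β : α → Type*} (A : Finset α) (B : ∀ a, Finset (β a)) (m : ℝ)
    (h : ∀ y ∈ A, ((B y).card : ℝ) ≤ m) : ((A.sigma B).card : ℝ) ≤ (A.card : ℝ) * m := by
  rw [Finset.card_sigma]
  push_cast
  calc _ ≤ ∑ a ∈ A, m := Finset.sum_le_sum h
    _ = (A.card : ℝ) * m := by simp

theorem omega_le (y K : ℕ) (h0 : 0 < y) (h : y ≤ 2 ^ K) : y.primeFactors.card ≤ K := by
  have h1 : 2 ^ y.primeFactors.card ≤ ∏ l ∈ y.primeFactors, l := by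
    apply Finset.pow_card_le_prod
    intro l hl
    exact (Nat.prime_of_mem_primeFactors hl).two_le
  have h2 : ∏ l ∈ y.primeFactors, l ≤ y := Nat.le_of_dvd h0 (Nat.prod_primeFactors_dvd y)
  exact (Nat.pow_le_pow_iff_right (by norm_num)).1 (h1.trans (h2.trans h))

/-- coprimality with several numbers -/
theorem cpl (hC : S_COP) (Y q K : ℕ) (A ks : Finset ℕ) (hq : 0 < q) (hA : A ⊆ Iv Y)
    (hm : ∀ y ∈ A, ∀ z ∈ A, y ≡ z [MOD q])
    (hk : ∀ k ∈ ks, 0 < k ∧ Nat.Coprime q k ∧ sig k ≤ 1 / 32 ∧ k.primeFactors.card ≤ K) :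
    (A.card : ℝ) ≤ ((A.filter (fun y => ∀ k ∈ ks, Nat.Coprime y k)).card : ℝ) +
      ks.card * ((Y : ℝ) / (32 * q) + K) := by
  classical
  have h1 : A ⊆ A.filter (fun y => ∀ k ∈ ks, Nat.Coprime y k) ∪
      ks.biUnion (fun k => A.filter (fun y : ℕ => ¬ Nat.Coprime y k)) := by
    intro y hy
    by_cases h : ∀ k ∈ ks, Nat.Coprime y k
    · exact Finset.mem_union_left _ (Finset.mem_filter.2 ⟨hy, h⟩)
    · push Not at h
      obtain ⟨k, hk1, hk2⟩ := h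
      exact Finset.mem_union_right _ (Finset.mem_biUnion.2 ⟨k, hk1, Finset.mem_filter.2 ⟨hy, hk2⟩⟩)
  have h2 := (Finset.card_le_card h1).trans (Finset.card_union_le _ _)
  have h3 : ((ks.biUnion (fun k => A.filter (fun y : ℕ => ¬ Nat.Coprime y k))).card : ℝ) ≤
      ks.card * ((Y : ℝ) / (32 * q) + K) := by
    have h4 : (ks.biUnion (fun k => A.filter (fun y : ℕ => ¬ Nat.Coprime y k))).card ≤
      ∑ k ∈ ks, (A.filter (fun y : ℕ => ¬ Nat.Coprime y k)).card := Finset.card_biUnion_le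
    calc ((ks.biUnion (fun k => A.filter (fun y : ℕ => ¬ Nat.Coprime y k))).card : ℝ)
        ≤ ((∑ k ∈ ks, (A.filter (fun y : ℕ => ¬ Nat.Coprime y k)).card : ℕ) : ℝ) := by
          exact_mod_cast h4
      _ = ∑ k ∈ ks, ((A.filter (fun y : ℕ => ¬ Nat.Coprime y k)).card : ℝ) := by push_cast; rfl
      _ ≤ ∑ k ∈ ks, ((Y : ℝ) / (32 * q) + K) := by
          apply Finset.sum_le_sum
          intro k hk1
          obtain ⟨h5, h6, h7, h8⟩ := hk k hk1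
          have h9 := hC Y q k A hq h5 h6 hA hm
          have hq' : (0 : ℝ) < q := by exact_mod_cast hq
          have h10 : sig k * Y / q ≤ (Y : ℝ) / (32 * q) := by
            rw [div_le_div_iff₀ hq' (by positivity)]
            have : sig k * Y ≤ 1 / 32 * Y := mul_le_mul_of_nonneg_right h7 (by positivity)
            nlinarith
          have h11 : (k.primeFactors.card : ℝ) ≤ K := by exact_mod_cast h8
          linarith
      _ = ks.card * ((Y : ℝ) / (32 * q) + K) := by rw [Finset.sum_const, nsmul_eq_mul]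
  have h12 : (A.card : ℝ) ≤ ((A.filter (fun y => ∀ k ∈ ks, Nat.Coprime y k)).card : ℝ) +
      ((ks.biUnion (fun k => A.filter (fun y : ℕ => ¬ Nat.Coprime y k))).card : ℝ) := by
    exact_mod_cast h2
  linarith

theorem mem_Iv {Y y : ℕ} : y ∈ Iv Y ↔ Y < y ∧ y ≤ 2 * Y := by
  unfold Iv; simp

theorem mem_Nice {W Y y : ℕ} : y ∈ Nice W Y ↔ (Y < y ∧ y ≤ 2 * Y) ∧ y ≡ 1 [MOD W] ∧ Squarefree y ∧
    sig y ≤ 1 / 32 := by
  unfold Nice; rw [Finset.mem_filter, mem_Iv]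

theorem cop_of_mod {W y : ℕ} (h : y ≡ 1 [MOD W]) : Nat.Coprime W y := by
  have h1 := h.gcd_eq
  rw [Nat.gcd_one_left] at h1
  exact (Nat.coprime_comm.1 h1)

theorem card_Iv (Y : ℕ) : (Iv Y).card = Y := by
  unfold Iv; rw [Nat.card_Ioc]; omega


/-- the sets -/
noncomputable def AV (W V u r : ℕ) : Finset ℕ :=
  (Nice W V).filter (fun y => ∀ k ∈ ({u, r} : Finset ℕ), Nat.Coprime y k)

noncomputable def AW (W Z u r v : ℕ) : Finset ℕ :=
  (Nice W Z).filter (fun y => ∀ k ∈ ({u, r, v} : Finset ℕ), Nat.Coprime y k)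

noncomputable def AS (S u r v w : ℕ) : Finset ℕ :=
  (Iv S).filter (fun y => ∀ k ∈ ({u, r, v, w} : Finset ℕ), Nat.Coprime y k)

def AP (P : ℕ) : Finset ℕ := (Finset.Ioc P (4 * P)).filter Nat.Prime

open Classical in
noncomputable def AX (W a0 L1 D u r v w s p : ℕ) : Finset ℕ :=
  (Iv D).filter (fun x => XOK W a0 L1 u r v w s p x)

/-- the properties of an element of `Nice` -/
theorem nice_prop {W Y K y : ℕ} (hY : 2 * Y ≤ 2 ^ K) (hy : y ∈ Nice W Y) :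
    0 < y ∧ Nat.Coprime W y ∧ sig y ≤ 1 / 32 ∧ y.primeFactors.card ≤ K := by
  rw [mem_Nice] at hy
  obtain ⟨⟨h1, h2⟩, h3, h4, h5⟩ := hy
  exact ⟨by omega, cop_of_mod h3, h5, omega_le y K (by omega) (h2.trans hY)⟩

theorem nice_sub (W Y : ℕ) : Nice W Y ⊆ Iv Y := Finset.filter_subset _ _

theorem nice_mod {W Y : ℕ} : ∀ y ∈ Nice W Y, ∀ z ∈ Nice W Y, y ≡ z [MOD W] := by
  intro y hy z hz
  exact (mem_Nice.1 hy).2.1.trans (mem_Nice.1 hz).2.1.symm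

theorem card_AV (hC : S_COP) {W V K C u r : ℕ} (hW : 0 < W) (hWC : 64 * W ≤ C)
    (hV : C * (K + 1) ≤ V)
    (hN : (V : ℝ) / (2 * W) ≤ (Nice W V).card)
    (hu : 0 < u ∧ Nat.Coprime W u ∧ sig u ≤ 1 / 32 ∧ u.primeFactors.card ≤ K)
    (hr : 0 < r ∧ Nat.Coprime W r ∧ sig r ≤ 1 / 32 ∧ r.primeFactors.card ≤ K) :
    (V : ℝ) / (4 * W) ≤ ((AV W V u r).card : ℝ) := by
  have h1 := cpl hC V W K (Nice W V) {u, r} hW (nice_sub W V) nice_mod (by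
    intro k hk
    simp only [Finset.mem_insert, Finset.mem_singleton] at hk
    rcases hk with rfl | rfl
    · exact hu
    · exact hr)
  have h2 : (({u, r} : Finset ℕ).card : ℝ) ≤ 2 := by exact_mod_cast Finset.card_le_two
  have hW' : (0 : ℝ) < W := by exact_mod_cast hW
  have h3 : (({u, r} : Finset ℕ).card : ℝ) * ((V : ℝ) / (32 * W) + K) ≤
      2 * ((V : ℝ) / (32 * W) + K) := mul_le_mul_of_nonneg_right h2 (by positivity)
  have h4 : (64 * W : ℝ) * K ≤ V := by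
    have : 64 * W * K ≤ V := (Nat.mul_le_mul hWC (by omega : K ≤ K + 1)).trans hV
    exact_mod_cast this
  have h5 : (K : ℝ) ≤ V / (64 * W) := by
    rw [le_div_iff₀ (by positivity)]; linarith
  have e1 : (V : ℝ) / (2 * W) = 32 * (V / (64 * W)) := by field_simp; ring
  have e2 : (V : ℝ) / (4 * W) = 16 * (V / (64 * W)) := by field_simp; ring
  have e3 : (V : ℝ) / (32 * W) = 2 * (V / (64 * W)) := by field_simp; ring
  have h6 : (0 : ℝ) ≤ V / (64 * W) := by positivity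
  unfold AV
  rw [e1] at hN
  rw [e3] at h1 h3
  rw [e2]
  linarith

theorem card_AW (hC : S_COP) {W V K C u r v : ℕ} (hW : 0 < W) (hWC : 64 * W ≤ C)
    (hV : C * (K + 1) ≤ V)
    (hN : (V : ℝ) / (2 * W) ≤ (Nice W V).card)
    (hu : 0 < u ∧ Nat.Coprime W u ∧ sig u ≤ 1 / 32 ∧ u.primeFactors.card ≤ K)
    (hr : 0 < r ∧ Nat.Coprime W r ∧ sig r ≤ 1 / 32 ∧ r.primeFactors.card ≤ K)
    (hv : 0 < v ∧ Nat.Coprime W v ∧ sig v ≤ 1 / 32 ∧ v.primeFactors.card ≤ K) :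
    (V : ℝ) / (4 * W) ≤ ((AW W V u r v).card : ℝ) := by
  have h1 := cpl hC V W K (Nice W V) {u, r, v} hW (nice_sub W V) nice_mod (by
    intro k hk
    simp only [Finset.mem_insert, Finset.mem_singleton] at hk
    rcases hk with rfl | rfl | rfl
    · exact hu
    · exact hr
    · exact hv)
  have h2 : (({u, r, v} : Finset ℕ).card : ℝ) ≤ 3 := by exact_mod_cast Finset.card_le_three
  have hW' : (0 : ℝ) < W := by exact_mod_cast hW
  have h3 : (({u, r, v} : Finset ℕ).card : ℝ) * ((V : ℝ) / (32 * W) + K) ≤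
      3 * ((V : ℝ) / (32 * W) + K) := mul_le_mul_of_nonneg_right h2 (by positivity)
  have h4 : (64 * W : ℝ) * K ≤ V := by
    have : 64 * W * K ≤ V := (Nat.mul_le_mul hWC (by omega : K ≤ K + 1)).trans hV
    exact_mod_cast this
  have h5 : (K : ℝ) ≤ V / (64 * W) := by
    rw [le_div_iff₀ (by positivity)]; linarith
  have e1 : (V : ℝ) / (2 * W) = 32 * (V / (64 * W)) := by field_simp; ring
  have e2 : (V : ℝ) / (4 * W) = 16 * (V / (64 * W)) := by field_simp; ring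
  have e3 : (V : ℝ) / (32 * W) = 2 * (V / (64 * W)) := by field_simp; ring
  have h6 : (0 : ℝ) ≤ V / (64 * W) := by positivity
  unfold AW
  rw [e1] at hN
  rw [e3] at h1 h3
  rw [e2]
  linarith

theorem card_AS (hC : S_COP) {W V K C u r v w : ℕ} (hWC : 64 ≤ C)
    (hV : C * (K + 1) ≤ V)
    (hu : 0 < u ∧ Nat.Coprime W u ∧ sig u ≤ 1 / 32 ∧ u.primeFactors.card ≤ K)
    (hr : 0 < r ∧ Nat.Coprime W r ∧ sig r ≤ 1 / 32 ∧ r.primeFactors.card ≤ K)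
    (hv : 0 < v ∧ Nat.Coprime W v ∧ sig v ≤ 1 / 32 ∧ v.primeFactors.card ≤ K)
    (hw : 0 < w ∧ Nat.Coprime W w ∧ sig w ≤ 1 / 32 ∧ w.primeFactors.card ≤ K) :
    (V : ℝ) / 2 ≤ ((AS V u r v w).card : ℝ) := by
  have h1 := cpl hC V 1 K (Iv V) {u, r, v, w} one_pos subset_rfl
    (fun y _ z _ => Nat.modEq_one) (by
    intro k hk
    simp only [Finset.mem_insert, Finset.mem_singleton] at hk
    rcases hk with rfl | rfl | rfl | rfl
    · exact ⟨hu.1, Nat.coprime_one_left _, hu.2.2⟩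
    · exact ⟨hr.1, Nat.coprime_one_left _, hr.2.2⟩
    · exact ⟨hv.1, Nat.coprime_one_left _, hv.2.2⟩
    · exact ⟨hw.1, Nat.coprime_one_left _, hw.2.2⟩)
  have h2 : (({u, r, v, w} : Finset ℕ).card : ℝ) ≤ 4 := by exact_mod_cast Finset.card_le_four
  have h3 : (({u, r, v, w} : Finset ℕ).card : ℝ) * ((V : ℝ) / (32 * (1 : ℕ)) + K) ≤
      4 * ((V : ℝ) / (32 * (1 : ℕ)) + K) := mul_le_mul_of_nonneg_right h2 (by positivity)
  have h4 : (64 : ℝ) * K ≤ V := by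
    have : 64 * K ≤ V := (Nat.mul_le_mul hWC (by omega : K ≤ K + 1)).trans hV
    exact_mod_cast this
  rw [card_Iv] at h1
  have e3 : (V : ℝ) / (32 * (1 : ℕ)) = V / 32 := by norm_num
  rw [e3] at h1 h3
  have h6 : (0 : ℝ) ≤ V := by positivity
  unfold AS
  linarith

/-- the conditions which hold for the elements of the nested sets -/
structure Str (W K U R V Z S P u r v w s1 p : ℕ) : Prop where
  hu : u ∈ Nice W U
  hr : r ∈ Nice W R
  hv : v ∈ AV W V u r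
  hw : w ∈ AW W Z u r v
  hs : s1 ∈ AS S u r v w
  hp : p ∈ AP P

theorem cop_of {W K U R V Z S P u r v w s1 p : ℕ} (hW : 0 < W)
    (hU : 2 * U ≤ 2 ^ K) (hR : 2 * R ≤ 2 ^ K) (hV : 2 * V ≤ 2 ^ K) (hZ : 2 * Z ≤ 2 ^ K)
    (hP : 2 ^ K < P) (hS : 2 * W * S < P)
    (h : Str W K U R V Z S P u r v w s1 p) : Cop W u r v w (W * s1) p := by
  obtain ⟨hu, hr, hv, hw, hs, hp⟩ := h
  have hu' := nice_prop hU hu
  have hr' := nice_prop hR hr
  rw [AV, Finset.mem_filter] at hv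
  rw [AW, Finset.mem_filter] at hw
  rw [AS, Finset.mem_filter] at hs
  rw [AP, Finset.mem_filter, Finset.mem_Ioc] at hp
  obtain ⟨hv, hv2⟩ := hv
  obtain ⟨hw, hw2⟩ := hw
  obtain ⟨hs, hs2⟩ := hs
  obtain ⟨⟨hp1, hp2⟩, hp⟩ := hp
  have hv' := nice_prop hV hv
  have hw' := nice_prop hZ hw
  rw [mem_Iv] at hs
  simp only [Finset.mem_insert, Finset.mem_singleton, forall_eq_or_imp, forall_eq] at hv2 hw2 hs2
  rw [mem_Nice] at hu hr hv hw
  have hlt : ∀ y : ℕ, 0 < y → y < p → Nat.Coprime y p := by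
    intro y h1 h2
    exact (Nat.Coprime.symm ((Nat.Prime.coprime_iff_not_dvd hp).2
      (fun h3 => absurd (Nat.le_of_dvd h1 h3) (by omega))))
  have hs1 : W * s1 < p := by
    have : W * s1 ≤ W * (2 * S) := Nat.mul_le_mul_left _ hs.2
    have e : W * (2 * S) = 2 * W * S := by ring
    omega
  have hs0 : 0 < W * s1 := Nat.mul_pos hW (by omega)
  have hWp : Nat.Coprime W p := by
    apply hlt W hW
    have : W * 1 ≤ W * s1 := Nat.mul_le_mul_left _ (by omega)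
    omega
  have hup := hlt u hu'.1 (by omega)
  have hrp := hlt r hr'.1 (by omega)
  have hvp := hlt v hv'.1 (by omega)
  have hwp := hlt w hw'.1 (by omega)
  have hsp := hlt (W * s1) hs0 hs1
  obtain ⟨vu, vr⟩ := hv2
  obtain ⟨wu, wr, wv⟩ := hw2
  obtain ⟨su, sr, sv, sw⟩ := hs2
  refine ⟨hp, hu'.1, hr'.1, hv'.1, hw'.1, hs0, Dvd.intro _ rfl, hu.2.1, hr.2.1, hv.2.1, hw.2.1,
    hWp.symm, wv.symm, ?_, ?_, ?_, hu'.2.2.1, hr'.2.2.1⟩
  · exact Nat.Coprime.mul_right (Nat.Coprime.mul_right (Nat.Coprime.mul_right vu vr)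
      (Nat.Coprime.mul_right hv'.2.1.symm sv.symm)) hvp
  · exact Nat.Coprime.mul_right (Nat.Coprime.mul_right (Nat.Coprime.mul_right wu wr)
      (Nat.Coprime.mul_right hw'.2.1.symm sw.symm)) hwp
  · exact Nat.Coprime.mul_right (Nat.Coprime.mul_right (Nat.Coprime.mul_left hu'.2.1 su)
      (Nat.Coprime.mul_left hr'.2.1 sr)) hsp

theorem sz_of {W K U R V Z S P u r v w s1 p : ℕ}
    (h : Str W K U R V Z S P u r v w s1 p) :
    (U < u ∧ u ≤ 2 * U) ∧ (R < r ∧ r ≤ 2 * R) ∧ (V < v ∧ v ≤ 2 * V) ∧ (Z < w ∧ w ≤ 2 * Z) ∧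
      (S < s1 ∧ s1 ≤ 2 * S) ∧ (P < p ∧ p ≤ 4 * P) := by
  obtain ⟨hu, hr, hv, hw, hs, hp⟩ := h
  rw [AV, Finset.mem_filter] at hv
  rw [AW, Finset.mem_filter] at hw
  rw [AS, Finset.mem_filter, mem_Iv] at hs
  rw [AP, Finset.mem_filter, Finset.mem_Ioc] at hp
  have hv := hv.1
  have hw := hw.1
  rw [mem_Nice] at hu hr hv hw
  exact ⟨hu.1, hr.1, hv.1, hw.1, hs.1, hp.1⟩

/-- the comparison `a < b` -/
theorem lt_of {W K D U R V Z S P u r v w s1 p : ℕ} (hU : 0 < U) (hR : 0 < R)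
    (hX : 8 * W ^ 2 * S ^ 2 * D ≤ U ^ 2 * R * P)
    (h : Str W K U R V Z S P u r v w s1 p) :
    (W * s1) ^ 2 * (2 * D) < u ^ 2 * r * p := by
  obtain ⟨hu, hr, hv, hw, hs, hp⟩ := sz_of h
  calc (W * s1) ^ 2 * (2 * D) ≤ (W * (2 * S)) ^ 2 * (2 * D) :=
        Nat.mul_le_mul_right _ (Nat.pow_le_pow_left (Nat.mul_le_mul_left _ hs.2) 2)
    _ = 8 * W ^ 2 * S ^ 2 * D := by ring
    _ ≤ U ^ 2 * R * P := hX
    _ ≤ u ^ 2 * r * P := Nat.mul_le_mul_right _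
        (Nat.mul_le_mul (Nat.pow_le_pow_left hu.1.le 2) hr.1.le)
    _ < u ^ 2 * r * p := by
        apply Nat.mul_lt_mul_of_pos_left hp.1
        have : 0 < u := by omega
        have : 0 < r := by omega
        positivity

theorem card_AX (hXc : S_XCT) {W a0 L1 C K D U R V Z S P u r v w s1 p : ℕ} (hW : Wok W)
    (ha : Nat.Coprime a0 W)
    (hU : 2 * U ≤ 2 ^ K) (hR : 2 * R ≤ 2 ^ K) (hV : 2 * V ≤ 2 ^ K) (hZ : 2 * Z ≤ 2 ^ K)
    (hU0 : 0 < U) (hR0 : 0 < R)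
    (hP : 2 ^ K < P) (hS : 2 * W * S < P) (hD : 2 * D ≤ 2 ^ K)
    (hX : 8 * W ^ 2 * S ^ 2 * D ≤ U ^ 2 * R * P) (hC : 512 * W ≤ C)
    (hCD : C * (V * Z) ^ 2 * (K + 1 + Nat.sqrt (2 * D) + L1) ≤ D)
    (h : Str W K U R V Z S P u r v w s1 p) :
    (D : ℝ) / (32 * (W * (V * Z) ^ 2)) ≤ ((AX W a0 L1 D u r v w (W * s1) p).card : ℝ) := by
  obtain ⟨hu, hr, hv, hw, hs, hp⟩ := sz_of h
  have h1 := cop_of hW.1 hU hR hV hZ hP hS h
  have ou : u.primeFactors.card ≤ K := omega_le u K (by omega) (by omega)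
  have orr : r.primeFactors.card ≤ K := omega_le r K (by omega) (by omega)
  have hvz : v ^ 2 * w ^ 2 ≤ 16 * (V * Z) ^ 2 := by
    calc v ^ 2 * w ^ 2 ≤ (2 * V) ^ 2 * (2 * Z) ^ 2 :=
          Nat.mul_le_mul (Nat.pow_le_pow_left hv.2 2) (Nat.pow_le_pow_left hw.2 2)
      _ = _ := by ring
  have h2 : 16 * (W * v ^ 2 * w ^ 2) *
      (u.primeFactors.card + r.primeFactors.card + Nat.sqrt (2 * D) + 2 * L1 + 2) ≤ D := by
    calc 16 * (W * v ^ 2 * w ^ 2) *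
        (u.primeFactors.card + r.primeFactors.card + Nat.sqrt (2 * D) + 2 * L1 + 2)
        = 16 * W * (v ^ 2 * w ^ 2) *
          (u.primeFactors.card + r.primeFactors.card + Nat.sqrt (2 * D) + 2 * L1 + 2) := by ring
      _ ≤ 16 * W * (16 * (V * Z) ^ 2) * (2 * (K + 1 + Nat.sqrt (2 * D) + L1)) :=
          Nat.mul_le_mul (Nat.mul_le_mul_left _ hvz) (by omega)
      _ = 512 * W * (V * Z) ^ 2 * (K + 1 + Nat.sqrt (2 * D) + L1) := by ring
      _ ≤ C * (V * Z) ^ 2 * (K + 1 + Nat.sqrt (2 * D) + L1) :=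
          Nat.mul_le_mul_right _ (Nat.mul_le_mul_right _ hC)
      _ ≤ D := hCD
  have h3 := hXc W a0 L1 D u r v w (W * s1) p hW ha h1 (lt_of hU0 hR0 hX h) (by omega) h2
  refine le_trans ?_ h3
  have hW' : (0 : ℝ) < W := by exact_mod_cast hW.1
  have hv0 : (0 : ℝ) < v := by exact_mod_cast (by omega : 0 < v)
  have hw0 : (0 : ℝ) < w := by exact_mod_cast (by omega : 0 < w)
  apply div_le_div_of_nonneg_left (by positivity) (by positivity)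
  have h4 : ((v ^ 2 * w ^ 2 : ℕ) : ℝ) ≤ ((16 * (V * Z) ^ 2 : ℕ) : ℝ) := by exact_mod_cast hvz
  push_cast at h4
  calc 2 * ((W : ℝ) * (v : ℝ) ^ 2 * (w : ℝ) ^ 2) = 2 * W * ((v : ℝ) ^ 2 * (w : ℝ) ^ 2) := by ring
    _ ≤ 2 * W * (16 * ((V : ℝ) * Z) ^ 2) := mul_le_mul_of_nonneg_left h4 (by positivity)
    _ = _ := by ring

/-- the type of the nested tuples `(u, r, v, w, s1, p, x)` -/
abbrev T7 : Type := (_ : ℕ) × (_ : ℕ) × (_ : ℕ) × (_ : ℕ) × (_ : ℕ) × (_ : ℕ) × ℕ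

noncomputable def TT (W a0 L1 D U R V Z S P : ℕ) : Finset T7 :=
  (Nice W U).sigma fun u => (Nice W R).sigma fun r => (AV W V u r).sigma fun v =>
    (AW W Z u r v).sigma fun w => (AS S u r v w).sigma fun s1 => (AP P).sigma fun p =>
      AX W a0 L1 D u r v w (W * s1) p

theorem mem_TT {W a0 L1 D U R V Z S P : ℕ} {y : T7} (K : ℕ) (h : y ∈ TT W a0 L1 D U R V Z S P) :
    Str W K U R V Z S P y.1 y.2.1 y.2.2.1 y.2.2.2.1 y.2.2.2.2.1 y.2.2.2.2.2.1 ∧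
    y.2.2.2.2.2.2 ∈ AX W a0 L1 D y.1 y.2.1 y.2.2.1 y.2.2.2.1 (W * y.2.2.2.2.1) y.2.2.2.2.2.1 := by
  unfold TT at h
  simp only [Finset.mem_sigma] at h
  obtain ⟨h1, h2, h3, h4, h5, h6, h7⟩ := h
  exact ⟨⟨h1, h2, h3, h4, h5, h6⟩, h7⟩

theorem card_TT (hC : S_COP) (hXc : S_XCT) {W a0 : ℕ} (hW : Wok W)
    (ha : Nat.Coprime a0 W) {Y0 : ℕ}
    (hY0 : ∀ Y : ℕ, Y0 ≤ Y → (Y : ℝ) / (2 * W) ≤ (Nice W Y).card)
    {C L1 K D U R V Z S P : ℕ} (hCY : Y0 ≤ C) (hCW : 512 * W ≤ C)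
    (hU : 2 * U ≤ 2 ^ K) (hR : 2 * R ≤ 2 ^ K) (hV : 2 * V ≤ 2 ^ K) (hZ : 2 * Z ≤ 2 ^ K)
    (hD : 2 * D ≤ 2 ^ K)
    (hU1 : C * (K + 1) ≤ U) (hR1 : C * (K + 1) ≤ R) (hV1 : C * (K + 1) ≤ V)
    (hZ1 : C * (K + 1) ≤ Z) (hS1 : C * (K + 1) ≤ S)
    (hP : 2 ^ K < P) (hS : 2 * W * S < P)
    (hX : 8 * W ^ 2 * S ^ 2 * D ≤ U ^ 2 * R * P)
    (hCD : C * (V * Z) ^ 2 * (K + 1 + Nat.sqrt (2 * D) + L1) ≤ D) :
    (U : ℝ) / (2 * W) * ((R : ℝ) / (2 * W) * ((V : ℝ) / (4 * W) * ((Z : ℝ) / (4 * W) *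
      ((S : ℝ) / 2 * (((AP P).card : ℝ) * ((D : ℝ) / (32 * (W * (V * Z) ^ 2)))))))) ≤
      ((TT W a0 L1 D U R V Z S P).card : ℝ) := by
  have hW0 := hW.1
  have hCK : C ≤ C * (K + 1) := Nat.le_mul_of_pos_right _ (by omega)
  have hU0 : 0 < U := by omega
  have hR0 : 0 < R := by omega
  have hNU := hY0 U (by omega)
  have hNR := hY0 R (by omega)
  have hNV := hY0 V (by omega)
  have hNZ := hY0 Z (by omega)
  unfold TT
  apply sg _ _ _ _ (by positivity) hNU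
  intro u hu
  have pu := nice_prop hU hu
  apply sg _ _ _ _ (by positivity) hNR
  intro r hr
  have pr := nice_prop hR hr
  apply sg _ _ _ _ (by positivity) (card_AV hC hW0 (by omega) hV1 hNV pu pr)
  intro v hv
  have hv' := hv
  rw [AV, Finset.mem_filter] at hv'
  have pv := nice_prop hV hv'.1
  apply sg _ _ _ _ (by positivity) (card_AW hC hW0 (by omega) hZ1 hNZ pu pr pv)
  intro w hw
  have hw' := hw
  rw [AW, Finset.mem_filter] at hw'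
  have pw := nice_prop hZ hw'.1
  apply sg _ _ _ _ (by positivity) (card_AS hC (by omega) hS1 pu pr pv pw)
  intro s1 hs1
  apply sg _ _ _ _ (by positivity) le_rfl
  intro p hp
  exact card_AX hXc hW ha hU hR hV hZ hU0 hR0 hP hS hD hX hCW hCD ⟨hu, hr, hv, hw, hs1, hp⟩

/-- a large square factor -/
def Bad (W L1 : ℕ) (y : T7) : Prop := ∃ l : ℕ, l.Prime ∧ L1 < l ∧
  (l ^ 2 ∣ y.1 ^ 2 * y.2.1 * y.2.2.2.2.2.1 - (W * y.2.2.2.2.1) ^ 2 * y.2.2.2.2.2.2 ∨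
   l ^ 2 ∣ y.1 ^ 2 * y.2.1 * y.2.2.2.2.2.1 + (W * y.2.2.2.2.1) ^ 2 * y.2.2.2.2.2.2)

/-- coprimality of `a` and `b` -/
theorem cop_ab {W a0 L1 D u r v w s p x : ℕ} (h : Cop W u r v w s p) (hD : 2 * D < p)
    (hx : x ∈ AX W a0 L1 D u r v w s p) : Nat.Coprime (s ^ 2 * x) (u ^ 2 * r * p) := by
  classical
  rw [AX, Finset.mem_filter, mem_Iv] at hx
  obtain ⟨⟨hx1, hx2⟩, hx3⟩ := hx
  obtain ⟨_, _, _, hx4, hx5, _⟩ := hx3
  have h1 : Nat.Coprime x p := (Nat.Coprime.symm ((Nat.Prime.coprime_iff_not_dvd h.pr).2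
      (fun h3 => absurd (Nat.le_of_dvd (by omega) h3) (by omega))))
  have su := Nat.Coprime.coprime_mul_right_right (Nat.Coprime.coprime_mul_right_right h.su)
  have sr := Nat.Coprime.coprime_mul_left_right (Nat.Coprime.coprime_mul_right_right h.su)
  have sp := Nat.Coprime.coprime_mul_left_right h.su
  have xu := Nat.Coprime.coprime_mul_right_right hx5
  have xr := Nat.Coprime.coprime_mul_left_right hx5
  have s1 : Nat.Coprime s (u ^ 2 * r * p) :=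
    Nat.Coprime.mul_right (Nat.Coprime.mul_right (Nat.Coprime.pow_right 2 su) sr) sp
  have x1 : Nat.Coprime x (u ^ 2 * r * p) :=
    Nat.Coprime.mul_right (Nat.Coprime.mul_right (Nat.Coprime.pow_right 2 xu) xr) h1
  exact Nat.Coprime.mul_left (Nat.Coprime.pow_left 2 s1) x1

open Classical in
theorem card_Bad (hL : S_LRG) {W a0 : ℕ} (hW : Wok W)
    {L1 K D U R V Z S P Q : ℕ} (hL1 : 0 < L1)
    (hU : 2 * U ≤ 2 ^ K) (hR : 2 * R ≤ 2 ^ K) (hV : 2 * V ≤ 2 ^ K) (hZ : 2 * Z ≤ 2 ^ K)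
    (hD : 2 * D ≤ 2 ^ K) (hU0 : 0 < U) (hR0 : 0 < R)
    (hP : 2 ^ K < P) (hS : 2 * W * S < P)
    (hX : 8 * W ^ 2 * S ^ 2 * D ≤ U ^ 2 * R * P)
    (hQ : 64 * (U ^ 2 * R * P) ≤ Q ^ 2) :
    (((TT W a0 L1 D U R V Z S P).filter (Bad W L1)).card : ℝ) ≤
      (U * R * V * Z * S * D : ℝ) * (2 * (3 * P / L1 + Q)) := by
  have h1 : ((TT W a0 L1 D U R V Z S P).filter (Bad W L1)).card ≤
      (((Iv U ×ˢ Iv R ×ˢ Iv V ×ˢ Iv Z ×ˢ Iv S ×ˢ Iv D) : Finset (ℕ × ℕ × ℕ × ℕ × ℕ × ℕ)).sigma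
        (fun b => (Finset.Ioc P (4 * P)).filter (fun p => (W * b.2.2.2.2.1) ^ 2 * b.2.2.2.2.2 <
          b.1 ^ 2 * b.2.1 * p ∧ Nat.Coprime ((W * b.2.2.2.2.1) ^ 2 * b.2.2.2.2.2)
          (b.1 ^ 2 * b.2.1 * p) ∧ ∃ l : ℕ, l.Prime ∧ L1 < l ∧
      (l ^ 2 ∣ b.1 ^ 2 * b.2.1 * p - (W * b.2.2.2.2.1) ^ 2 * b.2.2.2.2.2 ∨
       l ^ 2 ∣ b.1 ^ 2 * b.2.1 * p + (W * b.2.2.2.2.1) ^ 2 * b.2.2.2.2.2)))).card := by
    apply Finset.card_le_card_of_injOn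
      (fun y : T7 => ⟨(y.1, y.2.1, y.2.2.1, y.2.2.2.1, y.2.2.2.2.1, y.2.2.2.2.2.2),
        y.2.2.2.2.2.1⟩)
    · intro y hy
      rw [Finset.mem_coe, Finset.mem_filter] at hy
      obtain ⟨hy, hb⟩ := hy
      obtain ⟨h1, h2⟩ := mem_TT K hy
      obtain ⟨hu, hr, hv, hw, hs, hp⟩ := sz_of h1
      have h3 := lt_of hU0 hR0 hX h1
      have h4 := cop_of hW.1 hU hR hV hZ hP hS h1
      have h5 := cop_ab h4 (by omega) h2
      rw [AX, Finset.mem_filter, mem_Iv] at h2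
      rw [Finset.mem_coe, Finset.mem_sigma]
      refine ⟨?_, ?_⟩
      · simp only [Finset.mem_product, mem_Iv]
        exact ⟨hu, hr, hv, hw, hs, h2.1⟩
      · rw [Finset.mem_filter, Finset.mem_Ioc]
        exact ⟨hp, lt_of_le_of_lt (Nat.mul_le_mul_left _ h2.1.2) h3, h5, hb⟩
    · rintro ⟨u, r, v, w, s, p, x⟩ _ ⟨u', r', v', w', s', p', x'⟩ _ h
      simp only [Sigma.mk.injEq, Prod.mk.injEq, heq_eq_eq] at h
      obtain ⟨⟨rfl, rfl, rfl, rfl, rfl, rfl⟩, rfl⟩ := h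
      rfl
  have h2 : ((((Iv U ×ˢ Iv R ×ˢ Iv V ×ˢ Iv Z ×ˢ Iv S ×ˢ Iv D) :
      Finset (ℕ × ℕ × ℕ × ℕ × ℕ × ℕ)).sigma
        (fun b => (Finset.Ioc P (4 * P)).filter (fun p => (W * b.2.2.2.2.1) ^ 2 * b.2.2.2.2.2 <
          b.1 ^ 2 * b.2.1 * p ∧ Nat.Coprime ((W * b.2.2.2.2.1) ^ 2 * b.2.2.2.2.2)
          (b.1 ^ 2 * b.2.1 * p) ∧ ∃ l : ℕ, l.Prime ∧ L1 < l ∧
      (l ^ 2 ∣ b.1 ^ 2 * b.2.1 * p - (W * b.2.2.2.2.1) ^ 2 * b.2.2.2.2.2 ∨
       l ^ 2 ∣ b.1 ^ 2 * b.2.1 * p + (W * b.2.2.2.2.1) ^ 2 * b.2.2.2.2.2)))).card : ℝ) ≤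
      (((Iv U ×ˢ Iv R ×ˢ Iv V ×ˢ Iv Z ×ˢ Iv S ×ˢ Iv D) :
        Finset (ℕ × ℕ × ℕ × ℕ × ℕ × ℕ)).card : ℝ) * (2 * (3 * P / L1 + Q)) := by
    apply sl
    rintro ⟨u, r, v, w, s, x⟩ hb
    simp only [Finset.mem_product, mem_Iv] at hb
    obtain ⟨hu, hr, hv, hw, hs, hx⟩ := hb
    have h3 : 8 * (u ^ 2 * r * P) ≤ Q ^ 2 := by
      calc 8 * (u ^ 2 * r * P) ≤ 8 * ((2 * U) ^ 2 * (2 * R) * P) :=
            Nat.mul_le_mul_left _ (Nat.mul_le_mul_right _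
              (Nat.mul_le_mul (Nat.pow_le_pow_left hu.2 2) hr.2))
        _ = 64 * (U ^ 2 * R * P) := by ring
        _ ≤ Q ^ 2 := hQ
    exact hL L1 P Q x u r (W * s) hL1 (by omega) (Nat.mul_pos hW.1 (by omega)) (by omega)
      (by omega) h3
  have h3 : (((Iv U ×ˢ Iv R ×ˢ Iv V ×ˢ Iv Z ×ˢ Iv S ×ˢ Iv D) :
      Finset (ℕ × ℕ × ℕ × ℕ × ℕ × ℕ)).card : ℝ) = U * R * V * Z * S * D := by
    simp only [Finset.card_product, card_Iv]
    push_cast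
    ring
  rw [h3] at h2
  refine le_trans ?_ h2
  exact_mod_cast h1

/-- the map to the tuples -/
def fT (W : ℕ) (y : T7) : Tup := (y.2.2.2.2.2.2, y.1, y.2.1, y.2.2.1, y.2.2.2.1, W * y.2.2.2.2.1,
  y.2.2.2.2.2.1)

theorem fT_inj {W : ℕ} (hW : 0 < W) : Function.Injective (fT W) := by
  rintro ⟨u, r, v, w, s, p, x⟩ ⟨u', r', v', w', s', p', x'⟩ h
  simp only [fT, Prod.mk.injEq] at h
  obtain ⟨rfl, rfl, rfl, rfl, rfl, h, rfl⟩ := h
  have := Nat.eq_of_mul_eq_mul_left hW h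
  subst this
  rfl

theorem sqf_of {L1 m y : ℕ} (hm : 0 < m) (hd : m ∣ y) (h1 : ∀ l : ℕ, l.Prime → l ≤ L1 → ¬ l ^ 2 ∣ y / m)
    (h2 : ∀ l : ℕ, l.Prime → L1 < l → ¬ l ^ 2 ∣ y) : Squarefree (y / m) := by
  rw [Nat.squarefree_iff_prime_squarefree]
  intro l hl hdv
  rw [← pow_two] at hdv
  rcases le_or_gt l L1 with h | h
  · exact h1 l hl h hdv
  · exact h2 l hl h (hdv.trans (Nat.div_dvd_of_dvd hd))

theorem good_of {W a0 L1 K D U R V Z S P : ℕ} (hW : Wok W)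
    (hU : 2 * U ≤ 2 ^ K) (hR : 2 * R ≤ 2 ^ K) (hV : 2 * V ≤ 2 ^ K) (hZ : 2 * Z ≤ 2 ^ K)
    (hD : 2 * D ≤ 2 ^ K) (hU0 : 0 < U) (hR0 : 0 < R)
    (hP : 2 ^ K < P) (hS : 2 * W * S < P)
    (hX : 8 * W ^ 2 * S ^ 2 * D ≤ U ^ 2 * R * P)
    {y : T7} (hy : y ∈ TT W a0 L1 D U R V Z S P) (hb : ¬ Bad W L1 y) :
    TG W a0 (fT W y) ∧ InBox W D U R V Z S P (fT W y) := by
  classical
  obtain ⟨h1, h2⟩ := mem_TT K hy
  obtain ⟨u, r, v, w, s1, p, x⟩ := y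
  simp only at h1 h2
  obtain ⟨hu, hr, hv, hw, hs, hp⟩ := sz_of h1
  have h3 := lt_of hU0 hR0 hX h1
  have h4 := cop_of hW.1 hU hR hV hZ hP hS h1
  have h5 := cop_ab h4 (by omega) h2
  rw [AX, Finset.mem_filter, mem_Iv] at h2
  obtain ⟨h2, h6, h7, h8, h9, h10, h11⟩ := h2
  have hlt : (W * s1) ^ 2 * x < u ^ 2 * r * p := lt_of_le_of_lt (Nat.mul_le_mul_left _ h2.2) h3
  have hv2 : 0 < v ^ 2 := by have := h4.v0; positivity
  have hw2 : 0 < w ^ 2 := by have := h4.w0; positivity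
  have hb1 : ∀ l : ℕ, l.Prime → L1 < l → ¬ l ^ 2 ∣ u ^ 2 * r * p - (W * s1) ^ 2 * x :=
    fun l hl h h' => hb ⟨l, hl, h, Or.inl h'⟩
  have hb2 : ∀ l : ℕ, l.Prime → L1 < l → ¬ l ^ 2 ∣ u ^ 2 * r * p + (W * s1) ^ 2 * x :=
    fun l hl h h' => hb ⟨l, hl, h, Or.inr h'⟩
  have hr1 := mem_Nice.1 h1.hr
  refine ⟨?_, ?_⟩
  · exact {
      pr := h4.pr
      x0 := by show 0 < x; omega
      u0 := h4.u0
      s0 := h4.s0
      v0 := h4.v0
      w0 := h4.w0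
      sqx := h9
      sqr := hr1.2.2.1
      xp := by show x < p; omega
      rp := by show r < p; omega
      lt := hlt
      cop := h5
      dv := h7
      dw := h8
      sqc := sqf_of hv2 h7 (fun l hl h => (h11 l hl h).1) hb1
      sqd := sqf_of hw2 h8 (fun l hl h => (h11 l hl h).2) hb2
      Ws := h4.Ws
      u1 := h4.u1
      r1 := h4.r1
      v1 := h4.v1
      w1 := h4.w1
      hx := h6 }
  · refine ⟨mem_Iv.2 h2, mem_Iv.2 hu, mem_Iv.2 hr, mem_Iv.2 hv, mem_Iv.2 hw, ⟨s1, mem_Iv.2 hs, rfl⟩,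
      Finset.mem_Ioc.2 hp⟩

theorem t_BOX (hN : S_NIC) (hC : S_COP) (hX : S_XCT) (hL : S_LRG) : S_BOX := by
  classical
  intro W a0 hW ha
  obtain ⟨Y0, hY0⟩ := hN W hW
  have hW1 : 1 ≤ W := hW.1
  have hW5 : W ≤ W ^ 5 := by
    calc W = W ^ 1 := (pow_one W).symm
      _ ≤ W ^ 5 := Nat.pow_le_pow_right hW1 (by norm_num)
  refine ⟨Y0 + 49152 * W ^ 5, by positivity, ?_⟩
  intro D U R V Z S P L1 Q K hL1 hD hU hR hV hZ hU1 hR1 hV1 hZ1 hS1 hP hCP hS hXX hCD hQ hPQ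
  set C : ℕ := Y0 + 49152 * W ^ 5 with hCdef
  have hCY : Y0 ≤ C := by omega
  have hCW : 512 * W ≤ C := by omega
  have hCK : C ≤ C * (K + 1) := Nat.le_mul_of_pos_right _ (by omega)
  have hC0 : 0 < C := by omega
  have hU0 : 0 < U := by omega
  have hR0 : 0 < R := by omega
  have hV0 : 0 < V := by omega
  have hZ0 : 0 < Z := by omega
  have hT := card_TT hC hX hW ha hY0 hCY hCW hU hR hV hZ hD hU1 hR1 hV1 hZ1 hS1 hP hS hXX hCD
    (a0 := a0) (L1 := L1)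
  have hB := card_Bad (a0 := a0) hL hW hL1 hU hR hV hZ hD hU0 hR0 hP hS hXX hQ
  refine ⟨((TT W a0 L1 D U R V Z S P).filter (fun y => ¬ Bad W L1 y)).image (fT W), ?_, ?_⟩
  · intro t ht
    rw [Finset.mem_image] at ht
    obtain ⟨y, hy, rfl⟩ := ht
    rw [Finset.mem_filter] at hy
    exact good_of hW hU hR hV hZ hD hU0 hR0 hP hS hXX hy.1 hy.2
  · rw [Finset.card_image_of_injective _ (fT_inj hW.1)]
    have h1 := Finset.card_filter_add_card_filter_not (s := TT W a0 L1 D U R V Z S P) (Bad W L1)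
    set g : ℕ := ((TT W a0 L1 D U R V Z S P).filter (fun y => ¬ Bad W L1 y)).card with hg
    have h2 : ((TT W a0 L1 D U R V Z S P).card : ℝ) =
      (((TT W a0 L1 D U R V Z S P).filter (Bad W L1)).card : ℝ) + g := by
      exact_mod_cast h1.symm
    set Pi1 : ℕ := ((Finset.Ioc P (4 * P)).filter Nat.Prime).card with hPi1
    have hAP : (AP P).card = Pi1 := rfl
    rw [hAP] at hT
    have hWr : (0 : ℝ) < W := by exact_mod_cast hW1
    have hVr : (0 : ℝ) < V := by exact_mod_cast hV0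
    have hZr : (0 : ℝ) < Z := by exact_mod_cast hZ0
    have hL1r : (0 : ℝ) < L1 := by exact_mod_cast hL1
    have hCr : (0 : ℝ) < C := by exact_mod_cast hC0
    set M : ℝ := (U : ℝ) * R * S * D * Pi1 with hM
    have hM0 : 0 ≤ M := by positivity
    have e1 : (U : ℝ) / (2 * W) * ((R : ℝ) / (2 * W) * ((V : ℝ) / (4 * W) * ((Z : ℝ) / (4 * W) *
      ((S : ℝ) / 2 * ((Pi1 : ℝ) * ((D : ℝ) / (32 * (W * (V * Z) ^ 2)))))))) =
      M / (4096 * W ^ 5 * (V * Z)) := by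
      rw [hM]; field_simp; ring
    rw [e1] at hT
    have h3 : (C : ℝ) * (V * Z) ^ 2 * (P + L1 * Q) ≤ L1 * Pi1 := by exact_mod_cast hPQ
    have h4 : ((P : ℝ) + L1 * Q) / L1 ≤ Pi1 / (C * (V * Z) ^ 2) := by
      rw [div_le_div_iff₀ hL1r (by positivity)]
      linarith
    have h5 : 2 * (3 * (P : ℝ) / L1 + Q) ≤ 6 * (((P : ℝ) + L1 * Q) / L1) := by
      have e2 : 6 * (((P : ℝ) + L1 * Q) / L1) = 6 * ((P : ℝ) / L1) + 6 * Q := by
        have : (L1 : ℝ) ≠ 0 := hL1r.ne'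
        field_simp
      have e3 : 2 * (3 * (P : ℝ) / L1 + Q) = 6 * ((P : ℝ) / L1) + 2 * Q := by
        ring
      rw [e2, e3]
      have : (0 : ℝ) ≤ Q := by positivity
      linarith
    have h6 : (U * R * V * Z * S * D : ℝ) * (2 * (3 * P / L1 + Q)) ≤ 6 * M / (C * (V * Z)) := by
      calc (U * R * V * Z * S * D : ℝ) * (2 * (3 * P / L1 + Q))
          ≤ (U * R * V * Z * S * D : ℝ) * (6 * (Pi1 / (C * (V * Z) ^ 2))) := by
            apply mul_le_mul_of_nonneg_left (by linarith) (by positivity)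
        _ = 6 * M / (C * (V * Z)) := by
            rw [hM]; field_simp
    have hC5 : 49152 * (W : ℝ) ^ 5 ≤ C := by
      have : 49152 * W ^ 5 ≤ C := by omega
      exact_mod_cast this
    have h7 : 6 * M / (C * (V * Z)) ≤ M / (8192 * W ^ 5 * (V * Z)) := by
      rw [div_le_div_iff₀ (by positivity) (by positivity)]
      have : M * (V * Z) * (49152 * (W : ℝ) ^ 5) ≤ M * (V * Z) * C :=
        mul_le_mul_of_nonneg_left hC5 (by positivity)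
      nlinarith
    have e4 : M / (4096 * W ^ 5 * (V * Z)) = 2 * (M / (8192 * W ^ 5 * (V * Z))) := by
      field_simp; ring
    have h8 : M / (8192 * W ^ 5 * (V * Z)) ≤ g := by
      rw [e4] at hT
      linarith
    have h9 : M ≤ C * (V * Z) * g := by
      rw [div_le_iff₀ (by positivity)] at h8
      calc M ≤ g * (8192 * W ^ 5 * (V * Z)) := h8
        _ = 8192 * W ^ 5 * ((V * Z) * g) := by ring
        _ ≤ C * ((V * Z) * g) := by
            apply mul_le_mul_of_nonneg_right _ (by positivity)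
            have : (0 : ℝ) ≤ (W : ℝ) ^ 5 := by positivity
            linarith
        _ = _ := by ring
    rw [hM] at h9
    exact_mod_cast h9

end Pool.Agent.T2h1.CG.BOX
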