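import Pool.Agent.T2h1.CG.Stm

/-! Task CHB: primes in `(2^k, 2^(k+2)]`. -/

set_option autoImplicit false

namespace Pool.Agent.T2h1.CG.CHB

open Pool.Agent.T2h1.CG

theorem diff (P Q : ℕ) (h : P ≤ Q) : Chebyshev.theta Q - Chebyshev.theta P ≤
    (((Finset.Ioc P Q).filter Nat.Prime).card : ℝ) * Real.log Q := by
  have e : ∀ n : ℕ, Chebyshev.theta n = ∑ p ∈ (Finset.Ioc 0 n).filter Nat.Prime, Real.log p := by
    intro n
    unfold Chebyshev.theta
    rw [Nat.floor_natCast]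
  have h1 : (Finset.Ioc 0 Q).filter Nat.Prime =
      (Finset.Ioc 0 P).filter Nat.Prime ∪ (Finset.Ioc P Q).filter Nat.Prime := by
    rw [← Finset.filter_union, Finset.Ioc_union_Ioc_eq_Ioc (Nat.zero_le _) h]
  have h2 : Disjoint ((Finset.Ioc 0 P).filter Nat.Prime) ((Finset.Ioc P Q).filter Nat.Prime) := by
    rw [Finset.disjoint_left]
    intro x hx hy
    rw [Finset.mem_filter, Finset.mem_Ioc] at hx hy
    omega
  rw [e, e, h1, Finset.sum_union h2, add_sub_cancel_left, ← nsmul_eq_mul]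
  refine Finset.sum_le_card_nsmul _ _ _ fun p hp => ?_
  rw [Finset.mem_filter, Finset.mem_Ioc] at hp
  refine Real.log_le_log ?_ ?_
  · exact_mod_cast hp.2.pos
  · exact_mod_cast hp.1.2

theorem t8 (k : ℕ) (hk : 20 ≤ k) : (8 * (k + 3)) ^ 2 ≤ 2 ^ k := by
  induction k, hk using Nat.le_induction with
  | base => norm_num
  | succ k hk ih =>
    rw [pow_succ 2 k]
    nlinarith

theorem t_CHB : S_CHB := by
  refine ⟨1 / 3, by norm_num, 20, fun k hk => ?_⟩
  have h1 := diff (2 ^ k) (4 * 2 ^ k) (by omega)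
  have h2 := Chebyshev.theta_ge (4 * 2 ^ k)
  have h3 := Chebyshev.theta_le_log4_mul_x (x := ((2 ^ k : ℕ) : ℝ)) (by positivity)
  have hl2 : 0 < Real.log 2 := Real.log_pos (by norm_num)
  have hl4 : Real.log 4 = 2 * Real.log 2 := by
    rw [show (4 : ℝ) = 2 ^ 2 by norm_num, Real.log_pow]
    norm_num
  have hlP : Real.log ((4 * 2 ^ k : ℕ) : ℝ) = (k + 2) * Real.log 2 := by
    push_cast
    rw [Real.log_mul (by norm_num) (by positivity), Real.log_pow, hl4]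
    ring
  have hlP1 : Real.log (((4 * 2 ^ k : ℕ) : ℝ) + 1) ≤ (k + 3) * Real.log 2 := by
    have h4 : ((4 * 2 ^ k : ℕ) : ℝ) + 1 ≤ 2 ^ (k + 3) := by
      push_cast
      rw [pow_add]
      have : (1 : ℝ) ≤ 2 ^ k := one_le_pow₀ (by norm_num)
      nlinarith
    calc Real.log (((4 * 2 ^ k : ℕ) : ℝ) + 1) ≤ Real.log (2 ^ (k + 3)) :=
          Real.log_le_log (by positivity) h4
      _ = (k + 3) * Real.log 2 := by rw [Real.log_pow]; push_cast; ring
  have hsq : Real.sqrt ((4 * 2 ^ k : ℕ) : ℝ) = 2 * Real.sqrt (2 ^ k) := by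
    push_cast
    rw [Real.sqrt_mul (by norm_num), show Real.sqrt 4 = 2 by
      rw [show (4 : ℝ) = 2 ^ 2 by norm_num]; exact Real.sqrt_sq (by norm_num)]
  have ht : 8 * ((k : ℝ) + 3) ≤ Real.sqrt (2 ^ k) := by
    refine Real.le_sqrt_of_sq_le ?_
    have h5 := t8 k hk
    exact_mod_cast h5
  have hts : Real.sqrt ((2 : ℝ) ^ k) * Real.sqrt (2 ^ k) = 2 ^ k := Real.mul_self_sqrt (by positivity)
  rw [hlP, hsq] at h2
  rw [hlP] at h1
  rw [hl4] at h3
  have hP : ((2 ^ k : ℕ) : ℝ) = 2 ^ k := by push_cast; rfl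
  have hQ : ((4 * 2 ^ k : ℕ) : ℝ) = 4 * 2 ^ k := by push_cast; rfl
  rw [hQ] at h2 hlP1
  rw [hP] at h3 h1
  have hcast : Chebyshev.theta (((4 * 2 ^ k : ℕ) : ℝ)) = Chebyshev.theta (4 * 2 ^ k : ℝ) := by
    rw [hQ]
  rw [hcast] at h1
  generalize Real.sqrt ((2 : ℝ) ^ k) = t at *
  generalize (((Finset.Ioc (2 ^ k) (4 * 2 ^ k)).filter Nat.Prime).card : ℝ) = N at *
  have hk0 : (20 : ℝ) ≤ k := by exact_mod_cast hk
  -- 2^k log 2 ≤ N (k+2) log 2
  have h6 : ((k : ℝ) + 3) + 4 * t * (k + 2) ≤ 2 ^ k := by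
    rw [← hts]
    nlinarith
  have h7 : (2 : ℝ) ^ k * Real.log 2 ≤ N * ((k + 2) * Real.log 2) := by
    have h8 : (((k : ℝ) + 3) + 4 * t * (k + 2)) * Real.log 2 ≤ 2 ^ k * Real.log 2 :=
      mul_le_mul_of_nonneg_right h6 hl2.le
    nlinarith
  have h9 : (2 : ℝ) ^ k ≤ N * (k + 2) := by
    have : (2 : ℝ) ^ k * Real.log 2 ≤ (N * (k + 2)) * Real.log 2 := by linarith
    exact le_of_mul_le_mul_right this hl2
  have hN : 0 ≤ N := by
    by_contra hcon
    push Not at hcon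
    have : N * (k + 2) ≤ 0 := mul_nonpos_of_nonpos_of_nonneg hcon.le (by linarith)
    have : (0 : ℝ) < 2 ^ k := by positivity
    linarith
  rw [div_le_iff₀ (by linarith)]
  nlinarith

end Pool.Agent.T2h1.CG.CHB
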