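import Pool.Agent.T2h1.CG.Stm

set_option autoImplicit false

/-!
# Collisions are rare
-/

namespace Pool.Agent.T2h1.CG.COL

open Pool.Agent.T2h1.CG

/-- the parameters without the prime -/
abbrev Par : Type := ℕ × ℕ × ℕ × ℕ × ℕ × ℕ

/-- the parameters of a tuple -/
def par (t : Tup) : Par :=
  (t.1, t.2.1, t.2.2.1, t.2.2.2.1, t.2.2.2.2.1, t.2.2.2.2.2.1)

/-- `a` -/
def al (k : Par) : ℤ := (k.2.2.2.2.2 : ℤ) ^ 2 * k.1
/-- `B` -/
def be (k : Par) : ℤ := (k.2.1 : ℤ) ^ 2 * k.2.2.1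
/-- `x r v'² w'²` -/
def kk (k k' : Par) : ℤ := (k.1 : ℤ) * k.2.2.1 * (k'.2.2.2.1 : ℤ) ^ 2 * (k'.2.2.2.2.1 : ℤ) ^ 2
/-- the sign -/
def sg (ε : Bool) : ℤ := if ε then 1 else -1
/-- `A` -/
def aa (k : Par) (e : ℕ) (ε : Bool) : ℤ :=
  (if ε then (k.2.2.2.1 : ℤ) ^ 2 else (k.2.2.2.2.1 : ℤ) ^ 2) * e

/-- first coefficient -/
def M0 (k k' : Par) : ℤ := kk k k' * be k ^ 2 - kk k' k * be k' ^ 2
/-- first right hand side -/
def N0 (k k' : Par) : ℤ := kk k k' * al k ^ 2 - kk k' k * al k' ^ 2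
/-- second coefficient -/
def M1 (k k' : Par) (e e' : ℕ) (ε ε' : Bool) : ℤ := be k * be k' - aa k e ε * aa k' e' ε'
/-- second right hand side -/
def N1 (k k' : Par) (e : ℕ) (ε ε' : Bool) : ℤ :=
  sg ε * be k' * al k + sg ε' * aa k e ε * al k'
/-- third coefficient -/
def M2 (k k' : Par) (e e' : ℕ) (ε ε' : Bool) : ℤ :=
  (kk k k' * aa k e ε ^ 2 - kk k' k * aa k' e' ε' * be k') * be k
/-- third right hand side -/
def N2 (k k' : Par) (e e' : ℕ) (ε ε' : Bool) : ℤ :=
  - sg ε * (kk k k' * aa k e ε ^ 2 + 2 * (kk k' k * aa k' e' ε' * be k')) * al k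

/-- the equations which determine `p` and `p'` -/
def Pr (k k' : Par) (c : ℕ × ℕ × Bool × Bool × Bool) (p p' : ℕ) : Prop :=
  (c.2.2.2.2 = true ∧ p = p' ∧ M0 k k' ≠ 0 ∧ M0 k k' * (p : ℤ) ^ 2 = N0 k k') ∨
  (c.2.2.2.2 = false ∧ aa k c.1 c.2.2.1 ≠ 0 ∧
    be k * p - sg c.2.2.1 * al k = aa k c.1 c.2.2.1 * p' ∧
    ((M1 k k' c.1 c.2.1 c.2.2.1 c.2.2.2.1 ≠ 0 ∧
        M1 k k' c.1 c.2.1 c.2.2.1 c.2.2.2.1 * p = N1 k k' c.1 c.2.2.1 c.2.2.2.1) ∨
      (M1 k k' c.1 c.2.1 c.2.2.1 c.2.2.2.1 = 0 ∧ M2 k k' c.1 c.2.1 c.2.2.1 c.2.2.2.1 ≠ 0 ∧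
        M2 k k' c.1 c.2.1 c.2.2.1 c.2.2.2.1 * p = N2 k k' c.1 c.2.1 c.2.2.1 c.2.2.2.1)))

theorem Pr.unique {k k' : Par} {c : ℕ × ℕ × Bool × Bool × Bool} {p p' q q' : ℕ}
    (h : Pr k k' c p p') (h' : Pr k k' c q q') : p = q ∧ p' = q' := by
  have lin : ∀ {M N : ℤ} {a b : ℕ}, M ≠ 0 → M * a = N → M * b = N → a = b := by
    intro M N a b hM h1 h2
    have : (a : ℤ) = b := mul_left_cancel₀ hM (h1.trans h2.symm)
    exact_mod_cast this
  rcases h with ⟨h1, h2, h3, h4⟩ | ⟨h1, h2, h3, h4⟩ <;>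
    rcases h' with ⟨g1, g2, g3, g4⟩ | ⟨g1, g2, g3, g4⟩
  · have h5 : (p : ℤ) ^ 2 = (q : ℤ) ^ 2 := mul_left_cancel₀ h3 (h4.trans g4.symm)
    have h6 : p ^ 2 = q ^ 2 := by exact_mod_cast h5
    have h7 : p = q := Nat.pow_left_injective (n := 2) (by norm_num) h6
    exact ⟨h7, by rw [← h2, ← g2, h7]⟩
  · rw [h1] at g1; exact absurd g1 (by simp)
  · rw [h1] at g1; exact absurd g1 (by simp)
  · have hpq : p = q := by
      rcases h4 with ⟨a1, a2⟩ | ⟨a1, a2, a3⟩ <;> rcases g4 with ⟨b1, b2⟩ | ⟨b1, b2, b3⟩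
      · exact lin a1 a2 b2
      · exact absurd b1 a1
      · exact absurd a1 b1
      · exact lin a2 a3 b3
    subst hpq
    exact ⟨rfl, lin h2 h3.symm g3.symm⟩

/-- uniqueness of the squarefree part -/
theorem sq_unique {s x s' x' : ℕ} (hs : 0 < s) (hs' : 0 < s') (hx : Squarefree x)
    (hx' : Squarefree x') (h : s ^ 2 * x = s' ^ 2 * x') : s = s' ∧ x = x' := by
  have hx0 := hx.ne_zero
  have hx0' := hx'.ne_zero
  have h1 : s = s' := by
    apply Nat.eq_of_factorization_eq hs.ne' hs'.ne'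
    intro l
    have h2 := congrArg (fun z : ℕ => z.factorization l) h
    simp only [Nat.factorization_mul (pow_ne_zero 2 hs.ne') hx0,
      Nat.factorization_mul (pow_ne_zero 2 hs'.ne') hx0', Nat.factorization_pow,
      Finsupp.add_apply, Finsupp.smul_apply, smul_eq_mul] at h2
    have h3 := hx.natFactorization_le_one l
    have h4 := hx'.natFactorization_le_one l
    omega
  subst h1
  exact ⟨rfl, Nat.eq_of_mul_eq_mul_left (by positivity) h⟩

section
variable {W a0 : ℕ}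

theorem cc_mul {x u r v w s p : ℕ} (h : Good W a0 x u r v w s p) :
    cc x u r v s p * v ^ 2 = u ^ 2 * r * p - s ^ 2 * x := Nat.div_mul_cancel h.dv

theorem dd_mul {x u r v w s p : ℕ} (h : Good W a0 x u r v w s p) :
    dd x u r w s p * w ^ 2 = u ^ 2 * r * p + s ^ 2 * x := Nat.div_mul_cancel h.dw

/-- the identity for `n` -/
theorem ident {x u r v w s p : ℕ} (h : Good W a0 x u r v w s p) :
    (nn x u r v w s p : ℤ) * ((v : ℤ) ^ 2 * (w : ℤ) ^ 2) =
      x * r * p * ((u : ℤ) ^ 2 * r * p - (s : ℤ) ^ 2 * x) * ((u : ℤ) ^ 2 * r * p + (s : ℤ) ^ 2 * x) := by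
  have h1 : nn x u r v w s p * (v ^ 2 * w ^ 2) =
      x * r * p * (u ^ 2 * r * p - s ^ 2 * x) * (u ^ 2 * r * p + s ^ 2 * x) := by
    rw [← cc_mul h, ← dd_mul h, nn]
    ring
  have := congrArg (fun z : ℕ => (z : ℤ)) h1
  simp only [Nat.cast_mul, Nat.cast_pow, Nat.cast_add, Nat.cast_sub h.lt.le] at this
  exact this

/-- equal primes and dependent parameters -/
theorem same {x u r v w s p x' u' r' v' w' s' : ℕ} (h : Good W a0 x u r v w s p)
    (h' : Good W a0 x' u' r' v' w' s' p)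
    (hn : nn x u r v w s p = nn x' u' r' v' w' s' p)
    (hne : ¬ (x = x' ∧ u = u' ∧ r = r' ∧ v = v' ∧ w = w' ∧ s = s')) :
    M0 (x, u, r, v, w, s) (x', u', r', v', w', s') ≠ 0 ∧
    M0 (x, u, r, v, w, s) (x', u', r', v', w', s') * (p : ℤ) ^ 2 =
      N0 (x, u, r, v, w, s) (x', u', r', v', w', s') := by
  have i1 := ident h
  have i2 := ident h'
  have hx : (0 : ℤ) < x := by exact_mod_cast h.x0
  have hu : (0 : ℤ) < u := by exact_mod_cast h.u0
  have hs : (0 : ℤ) < s := by exact_mod_cast h.s0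
  have hv : (0 : ℤ) < v := by exact_mod_cast h.v0
  have hw : (0 : ℤ) < w := by exact_mod_cast h.w0
  have hr : (0 : ℤ) < r := by exact_mod_cast Nat.pos_of_ne_zero h.sqr.ne_zero
  have hx' : (0 : ℤ) < x' := by exact_mod_cast h'.x0
  have hu' : (0 : ℤ) < u' := by exact_mod_cast h'.u0
  have hs' : (0 : ℤ) < s' := by exact_mod_cast h'.s0
  have hv' : (0 : ℤ) < v' := by exact_mod_cast h'.v0
  have hw' : (0 : ℤ) < w' := by exact_mod_cast h'.w0
  have hr' : (0 : ℤ) < r' := by exact_mod_cast Nat.pos_of_ne_zero h'.sqr.ne_zero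
  have hp : (0 : ℤ) < p := by exact_mod_cast h.pr.pos
  have hnz : (nn x u r v w s p : ℤ) = nn x' u' r' v' w' s' p := by exact_mod_cast hn
  have key : M0 (x, u, r, v, w, s) (x', u', r', v', w', s') * (p : ℤ) ^ 2 =
      N0 (x, u, r, v, w, s) (x', u', r', v', w', s') := by
    simp only [M0, N0, kk, be, al]
    apply mul_left_cancel₀ hp.ne'
    rw [hnz] at i1
    linear_combination (-(v' : ℤ) ^ 2 * (w' : ℤ) ^ 2) * i1 + ((v : ℤ) ^ 2 * (w : ℤ) ^ 2) * i2
  refine ⟨fun h0 => hne ?_, key⟩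
  rw [h0, zero_mul] at key
  simp only [M0, N0, kk, be, al] at key h0
  -- `B a' = B' a`
  have hcross : ((u : ℤ) ^ 2 * r) * ((s' : ℤ) ^ 2 * x') = ((u' : ℤ) ^ 2 * r') * ((s : ℤ) ^ 2 * x) := by
    have h1 : (((u : ℤ) ^ 2 * r) * ((s' : ℤ) ^ 2 * x')) ^ 2 =
        (((u' : ℤ) ^ 2 * r') * ((s : ℤ) ^ 2 * x)) ^ 2 := by
      have hK : (0 : ℤ) < x * r * (v' : ℤ) ^ 2 * (w' : ℤ) ^ 2 := by positivity
      have hK' : (0 : ℤ) < x' * r' * (v : ℤ) ^ 2 * (w : ℤ) ^ 2 := by positivity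
      apply mul_left_cancel₀ (mul_pos hK hK').ne'
      generalize (x : ℤ) * r * (v' : ℤ) ^ 2 * (w' : ℤ) ^ 2 = K at *
      generalize (x' : ℤ) * r' * (v : ℤ) ^ 2 * (w : ℤ) ^ 2 = K' at *
      generalize ((u : ℤ) ^ 2 * r) = B at *
      generalize ((u' : ℤ) ^ 2 * r') = B' at *
      generalize ((s : ℤ) ^ 2 * x) = a at *
      generalize ((s' : ℤ) ^ 2 * x') = a' at *
      linear_combination (K' * a' ^ 2) * h0 + (K' * B' ^ 2) * key
    exact (pow_left_inj₀ (by positivity) (by positivity) (by norm_num)).1 h1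
  have hcross' : (u ^ 2 * r * p) * (s' ^ 2 * x') = (u' ^ 2 * r' * p) * (s ^ 2 * x) := by
    have h1 : (u ^ 2 * r) * (s' ^ 2 * x') = (u' ^ 2 * r') * (s ^ 2 * x) := by exact_mod_cast hcross
    calc (u ^ 2 * r * p) * (s' ^ 2 * x') = ((u ^ 2 * r) * (s' ^ 2 * x')) * p := by ring
      _ = _ := by rw [h1]; ring
  have ha : s ^ 2 * x = s' ^ 2 * x' := by
    apply Nat.dvd_antisymm
    · exact h.cop.dvd_of_dvd_mul_left (by rw [hcross']; exact Dvd.intro_left _ rfl)
    · exact h'.cop.dvd_of_dvd_mul_left (by rw [← hcross']; exact Dvd.intro_left _ rfl)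
  have hapos : 0 < s ^ 2 * x := Nat.mul_pos (pow_pos h.s0 2) h.x0
  have hb : u ^ 2 * r * p = u' ^ 2 * r' * p := by
    rw [← ha] at hcross'
    exact Nat.eq_of_mul_eq_mul_right hapos hcross'
  have hb' : u ^ 2 * r = u' ^ 2 * r' := Nat.eq_of_mul_eq_mul_right h.pr.pos hb
  obtain ⟨e1, e2⟩ := sq_unique h.s0 h'.s0 h.sqx h'.sqx ha
  obtain ⟨e3, e4⟩ := sq_unique h.u0 h'.u0 h.sqr h'.sqr hb'
  have hc : v ^ 2 * cc x u r v s p = v' ^ 2 * cc x' u' r' v' s' p := by
    rw [mul_comm (v ^ 2), cc_mul h, mul_comm (v' ^ 2), cc_mul h', ha, hb]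
  have hd : w ^ 2 * dd x u r w s p = w' ^ 2 * dd x' u' r' w' s' p := by
    rw [mul_comm (w ^ 2), dd_mul h, mul_comm (w' ^ 2), dd_mul h', ha, hb]
  exact ⟨e2, e3, e4, (sq_unique h.v0 h'.v0 h.sqc h'.sqc hc).1,
    (sq_unique h.w0 h'.w0 h.sqd h'.sqd hd).1, e1⟩

/-- the other prime divides `c` or `d` -/
theorem linear {x u r v w s p p' E P0 Y : ℕ} (h : Good W a0 x u r v w s p) (hp' : p'.Prime)
    (hpp : p ≠ p') (hn : p' ∣ nn x u r v w s p) (hx : x ≤ Y) (hr : r ≤ Y) (hY : Y < p')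
    (hP : P0 ≤ p') (hc : cc x u r v s p ≤ E * P0) (hd : dd x u r w s p ≤ E * P0) :
    ∃ (e : ℕ) (ε : Bool), e ≤ E ∧ 0 < aa (x, u, r, v, w, s) e ε ∧
      be (x, u, r, v, w, s) * p - sg ε * al (x, u, r, v, w, s) =
        aa (x, u, r, v, w, s) e ε * p' := by
  have hlt := h.lt
  have hltz : (s : ℤ) ^ 2 * x < (u : ℤ) ^ 2 * r * p := by exact_mod_cast hlt
  have hs0 : (0 : ℤ) < s := by exact_mod_cast h.s0
  have hx0 : (0 : ℤ) < x := by exact_mod_cast h.x0
  have haz : 0 < (s : ℤ) ^ 2 * x := by positivity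
  have hp0 : (0 : ℤ) < p' := by exact_mod_cast hp'.pos
  have hE : ∀ e z : ℕ, z = p' * e → z ≤ E * P0 → e ≤ E := by
    intro e z h1 h2
    have h3 : p' * e ≤ p' * E := by
      calc p' * e = z := h1.symm
        _ ≤ E * P0 := h2
        _ ≤ E * p' := Nat.mul_le_mul_left _ hP
        _ = p' * E := mul_comm _ _
    exact Nat.le_of_mul_le_mul_left h3 hp'.pos
  rw [nn] at hn
  have hnx : ¬ p' ∣ x := fun h1 => by
    have := Nat.le_of_dvd h.x0 h1
    omega
  have hnr : ¬ p' ∣ r := fun h1 => by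
    have := Nat.le_of_dvd (Nat.pos_of_ne_zero h.sqr.ne_zero) h1
    omega
  have hnp : ¬ p' ∣ p := fun h1 => hpp ((Nat.prime_dvd_prime_iff_eq hp' h.pr).1 h1).symm
  rcases (hp'.dvd_mul).1 hn with h1 | h1
  · rcases (hp'.dvd_mul).1 h1 with h2 | h2
    · exfalso
      rcases (hp'.dvd_mul).1 h2 with h3 | h3
      · rcases (hp'.dvd_mul).1 h3 with h4 | h4
        · exact hnx h4
        · exact hnr h4
      · exact hnp h3
    · obtain ⟨e, he⟩ := h2
      have h3 := cc_mul h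
      rw [he] at h3
      have h4 : ((p' : ℤ) * e) * (v : ℤ) ^ 2 = (u : ℤ) ^ 2 * r * p - (s : ℤ) ^ 2 * x := by
        have := congrArg (fun z : ℕ => (z : ℤ)) h3
        simp only [Nat.cast_mul, Nat.cast_pow, Nat.cast_sub hlt.le] at this
        exact this
      have h5 : be (x, u, r, v, w, s) * p - sg true * al (x, u, r, v, w, s) =
          aa (x, u, r, v, w, s) e true * p' := by
        simp only [be, al, aa, sg, if_true]
        linear_combination -h4
      refine ⟨e, true, hE e _ he hc, ?_, h5⟩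
      have h6 : 0 < aa (x, u, r, v, w, s) e true * p' := by
        rw [← h5]
        simp only [be, al, sg, if_true]
        linarith
      exact (pos_iff_pos_of_mul_pos h6).2 hp0
  · obtain ⟨e, he⟩ := h1
    have h3 := dd_mul h
    rw [he] at h3
    have h4 : ((p' : ℤ) * e) * (w : ℤ) ^ 2 = (u : ℤ) ^ 2 * r * p + (s : ℤ) ^ 2 * x := by
      exact_mod_cast h3
    have h5 : be (x, u, r, v, w, s) * p - sg false * al (x, u, r, v, w, s) =
        aa (x, u, r, v, w, s) e false * p' := by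
      simp only [be, al, aa, sg, if_neg (Bool.false_ne_true)]
      linear_combination -h4
    refine ⟨e, false, hE e _ he hd, ?_, h5⟩
    have h6 : 0 < aa (x, u, r, v, w, s) e false * p' := by
      rw [← h5]
      simp only [be, al, sg, if_neg (Bool.false_ne_true)]
      linarith
    exact (pos_iff_pos_of_mul_pos h6).2 hp0

theorem sg_sq (ε : Bool) : sg ε * sg ε = 1 := by cases ε <;> simp [sg]

/-- different primes -/
theorem diff {x u r v w s p x' u' r' v' w' s' p' e e' : ℕ} {ε ε' : Bool}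
    (h : Good W a0 x u r v w s p) (h' : Good W a0 x' u' r' v' w' s' p')
    (hn : nn x u r v w s p = nn x' u' r' v' w' s' p')
    (hA : 0 < aa (x, u, r, v, w, s) e ε) (hA' : 0 < aa (x', u', r', v', w', s') e' ε')
    (h1 : be (x, u, r, v, w, s) * p - sg ε * al (x, u, r, v, w, s) =
        aa (x, u, r, v, w, s) e ε * p')
    (h2 : be (x', u', r', v', w', s') * p' - sg ε' * al (x', u', r', v', w', s') =
        aa (x', u', r', v', w', s') e' ε' * p) :
    (M1 (x, u, r, v, w, s) (x', u', r', v', w', s') e e' ε ε' ≠ 0 ∧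
        M1 (x, u, r, v, w, s) (x', u', r', v', w', s') e e' ε ε' * p =
          N1 (x, u, r, v, w, s) (x', u', r', v', w', s') e ε ε') ∨
      (M1 (x, u, r, v, w, s) (x', u', r', v', w', s') e e' ε ε' = 0 ∧
        M2 (x, u, r, v, w, s) (x', u', r', v', w', s') e e' ε ε' ≠ 0 ∧
        M2 (x, u, r, v, w, s) (x', u', r', v', w', s') e e' ε ε' * p =
          N2 (x, u, r, v, w, s) (x', u', r', v', w', s') e e' ε ε') := by
  have i1 := ident h
  have i2 := ident h'
  have hx : (0 : ℤ) < x := by exact_mod_cast h.x0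
  have hu : (0 : ℤ) < u := by exact_mod_cast h.u0
  have hs : (0 : ℤ) < s := by exact_mod_cast h.s0
  have hv : (0 : ℤ) < v := by exact_mod_cast h.v0
  have hw : (0 : ℤ) < w := by exact_mod_cast h.w0
  have hr : (0 : ℤ) < r := by exact_mod_cast Nat.pos_of_ne_zero h.sqr.ne_zero
  have hx' : (0 : ℤ) < x' := by exact_mod_cast h'.x0
  have hu' : (0 : ℤ) < u' := by exact_mod_cast h'.u0
  have hs' : (0 : ℤ) < s' := by exact_mod_cast h'.s0
  have hv' : (0 : ℤ) < v' := by exact_mod_cast h'.v0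
  have hw' : (0 : ℤ) < w' := by exact_mod_cast h'.w0
  have hr' : (0 : ℤ) < r' := by exact_mod_cast Nat.pos_of_ne_zero h'.sqr.ne_zero
  have hp : (0 : ℤ) < p := by exact_mod_cast h.pr.pos
  have hp' : (0 : ℤ) < p' := by exact_mod_cast h'.pr.pos
  have hnz : (nn x u r v w s p : ℤ) = nn x' u' r' v' w' s' p' := by exact_mod_cast hn
  rw [hnz] at i1
  have hK : 0 < kk (x, u, r, v, w, s) (x', u', r', v', w', s') := by
    simp only [kk]; positivity
  have hK' : 0 < kk (x', u', r', v', w', s') (x, u, r, v, w, s) := by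
    simp only [kk]; positivity
  have ha : 0 < al (x, u, r, v, w, s) := by simp only [al]; positivity
  have ha' : 0 < al (x', u', r', v', w', s') := by simp only [al]; positivity
  have hB : 0 < be (x, u, r, v, w, s) := by simp only [be]; positivity
  have hB' : 0 < be (x', u', r', v', w', s') := by simp only [be]; positivity
  -- the equality of the two numbers
  have hnn : kk (x, u, r, v, w, s) (x', u', r', v', w', s') * p *
        (be (x, u, r, v, w, s) * p - al (x, u, r, v, w, s)) *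
        (be (x, u, r, v, w, s) * p + al (x, u, r, v, w, s)) =
      kk (x', u', r', v', w', s') (x, u, r, v, w, s) * p' *
        (be (x', u', r', v', w', s') * p' - al (x', u', r', v', w', s')) *
        (be (x', u', r', v', w', s') * p' + al (x', u', r', v', w', s')) := by
    simp only [kk, be, al]
    linear_combination (-(v' : ℤ) ^ 2 * (w' : ℤ) ^ 2) * i1 + ((v : ℤ) ^ 2 * (w : ℤ) ^ 2) * i2
  clear i1 i2 hnz
  simp only [M1, N1, M2, N2]
  have hsg := sg_sq ε
  have hsg' := sg_sq ε'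
  have hsgpm : ∀ ε ε' : Bool, sg ε' = sg ε ∨ sg ε' = - sg ε := by
    intro ε ε'; cases ε <;> cases ε' <;> simp [sg]
  have hsgc := hsgpm ε ε'
  have hsg1 : sg ε = 1 ∨ sg ε = -1 := by cases ε <;> simp [sg]
  generalize kk (x, u, r, v, w, s) (x', u', r', v', w', s') = K at *
  generalize kk (x', u', r', v', w', s') (x, u, r, v, w, s) = K' at *
  generalize al (x, u, r, v, w, s) = a at *
  generalize al (x', u', r', v', w', s') = a' at *
  generalize be (x, u, r, v, w, s) = B at *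
  generalize be (x', u', r', v', w', s') = B' at *
  generalize aa (x, u, r, v, w, s) e ε = A at *
  generalize aa (x', u', r', v', w', s') e' ε' = A' at *
  generalize sg ε = σ at *
  generalize sg ε' = σ' at *
  have hlin : (B * B' - A * A') * (p : ℤ) = σ * B' * a + σ' * A * a' := by
    linear_combination B' * h1 + A * h2
  by_cases h0 : B * B' - A * A' = 0
  · right
    refine ⟨h0, ?_⟩
    rw [h0, zero_mul] at hlin
    have hpos1 : 0 < B' * a := mul_pos hB' ha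
    have hpos2 : 0 < A * a' := mul_pos hA ha'
    have hσ : σ' = -σ := by
      rcases hsgc with h3 | h3
      · exfalso
        rw [h3] at hlin
        have h4 : σ * (B' * a + A * a') = 0 := by linear_combination -hlin
        rcases mul_eq_zero.1 h4 with h5 | h5
        · rw [h5] at hsg; norm_num at hsg
        · linarith
      · exact h3
    subst hσ
    have hBa : B' * a = A * a' := by
      have h4 : σ * (B' * a - A * a') = 0 := by linear_combination -hlin
      rcases mul_eq_zero.1 h4 with h5 | h5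
      · rw [h5] at hsg; norm_num at hsg
      · linarith
    -- `K1 (B p + σ a) = K2 (B p - 2 σ a)`
    have hnn2 : K * p * (B * p - σ * a) * (B * p + σ * a) =
        K' * p' * (B' * p' - (-σ) * a') * (B' * p' + (-σ) * a') := by
      have e1 : (B * p - σ * a) * (B * p + σ * a) = (B * p - a) * (B * p + a) := by
        linear_combination (-a ^ 2) * hsg
      have e2 : (B' * p' - (-σ) * a') * (B' * p' + (-σ) * a') =
          (B' * p' - a') * (B' * p' + a') := by
        linear_combination (-a' ^ 2) * hsg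
      rw [mul_assoc, e1, mul_assoc (K' * (p' : ℤ)), e2, ← mul_assoc, ← mul_assoc]
      exact hnn
    have hA2 : A * (B' * p' + (-σ) * a') = B' * (B * p - 2 * σ * a) := by
      linear_combination (-B') * h1 - (-σ) * hBa
    have hK3 : K * A ^ 2 * (B * p + σ * a) = K' * A' * B' * (B * p - 2 * σ * a) := by
      rw [h1, h2] at hnn2
      have h5 : (p : ℤ) * p' * (K * A ^ 2 * (B * p + σ * a)) =
          (p : ℤ) * p' * (K' * A' * B' * (B * p - 2 * σ * a)) := by
        calc (p : ℤ) * p' * (K * A ^ 2 * (B * p + σ * a))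
            = A * (K * p * (A * p') * (B * p + σ * a)) := by ring
          _ = A * (K' * p' * (A' * p) * (B' * p' + -σ * a')) := by rw [hnn2]
          _ = (p : ℤ) * p' * (K' * A' * (A * (B' * p' + -σ * a'))) := by ring
          _ = _ := by rw [hA2]; ring
      exact mul_left_cancel₀ (mul_pos hp hp').ne' h5
    have hfin : (K * A ^ 2 - K' * A' * B') * B * p = -σ * (K * A ^ 2 + 2 * (K' * A' * B')) * a := by
      linear_combination hK3
    refine ⟨fun h6 => ?_, hfin⟩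
    rw [h6, zero_mul] at hfin
    have h7 : 0 < (K * A ^ 2 + 2 * (K' * A' * B')) * a := by positivity
    rcases hsg1 with h8 | h8
    · rw [h8] at hfin; linarith
    · rw [h8] at hfin; linarith
  · left
    exact ⟨h0, hlin⟩

end

theorem tup_ext {t t' : Tup} (h : par t = par t') (hp : t.2.2.2.2.2.2 = t'.2.2.2.2.2.2) :
    t = t' := by
  obtain ⟨x, u, r, v, w, s, p⟩ := t
  obtain ⟨x', u', r', v', w', s', p'⟩ := t'
  simp only [par, Prod.mk.injEq] at h hp ⊢
  tauto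

theorem code {W a0 Y Z E P0 : ℕ} {t t' : Tup} (h : TG W a0 t) (h' : TG W a0 t')
    (hb : TB Y Z E P0 t) (hb' : TB Y Z E P0 t') (hne : t ≠ t') (hn : Tn t = Tn t') :
    ∃ c : ℕ × ℕ × Bool × Bool × Bool, c.1 ≤ E ∧ c.2.1 ≤ E ∧
      Pr (par t) (par t') c t.2.2.2.2.2.2 t'.2.2.2.2.2.2 := by
  obtain ⟨x, u, r, v, w, s, p⟩ := t
  obtain ⟨x', u', r', v', w', s', p'⟩ := t'
  simp only [TG, TB, Tn, par] at *
  obtain ⟨b1, b2, b3, b4, b5, b6, b7, b8, b9, b10⟩ := hb
  obtain ⟨c1, c2, c3, c4, c5, c6, c7, c8, c9, c10⟩ := hb'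
  by_cases hpp : p = p'
  · subst hpp
    obtain ⟨h1, h2⟩ := same h h' hn (by
      rintro ⟨rfl, rfl, rfl, rfl, rfl, rfl⟩
      exact hne rfl)
    exact ⟨(0, 0, true, true, true), Nat.zero_le _, Nat.zero_le _, Or.inl ⟨rfl, rfl, h1, h2⟩⟩
  · have d1 : p' ∣ nn x u r v w s p := by
      rw [hn, nn]
      exact Dvd.dvd.mul_right (Dvd.dvd.mul_right (Dvd.intro_left _ rfl) _) _
    have d2 : p ∣ nn x' u' r' v' w' s' p' := by
      rw [← hn, nn]
      exact Dvd.dvd.mul_right (Dvd.dvd.mul_right (Dvd.intro_left _ rfl) _) _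
    obtain ⟨e, ε, he, hA, h1⟩ := linear h h'.pr hpp d1 b1 b3 c7 c8 b9 b10
    obtain ⟨e', ε', he', hA', h2⟩ := linear h' h.pr (Ne.symm hpp) d2 c1 c3 b7 b8 c9 c10
    exact ⟨(e, e', ε, ε', false), he, he',
      Or.inr ⟨rfl, hA.ne', h1, diff h h' hn hA hA' h1 h2⟩⟩

/-- the set of the parameters -/
def PS (Y Z : ℕ) : Finset Par :=
  Finset.range (Y + 1) ×ˢ Finset.range (Y + 1) ×ˢ Finset.range (Y + 1) ×ˢ Finset.range (Y + 1) ×ˢ
    Finset.range (Y + 1) ×ˢ Finset.range (Z + 1)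

theorem PS_card (Y Z : ℕ) : (PS Y Z).card = (Y + 1) ^ 5 * (Z + 1) := by
  simp only [PS, Finset.card_product, Finset.card_range]
  ring

theorem par_mem {Y Z E P0 : ℕ} {t : Tup} (h : TB Y Z E P0 t) : par t ∈ PS Y Z := by
  obtain ⟨x, u, r, v, w, s, p⟩ := t
  simp only [TB, par, PS, Finset.mem_product, Finset.mem_range] at *
  omega

theorem t_COL : S_COL := by
  classical
  intro W a0 Y Z E P0 G hW hG
  have hex : ∀ q : Tup × Tup, ∃ c : ℕ × ℕ × Bool × Bool × Bool,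
      q ∈ (G ×ˢ G).filter (fun q : Tup × Tup => q.1 ≠ q.2 ∧ Tn q.1 = Tn q.2) →
      c.1 ≤ E ∧ c.2.1 ≤ E ∧
      Pr (par q.1) (par q.2) c q.1.2.2.2.2.2.2 q.2.2.2.2.2.2.2 := by
    intro q
    by_cases hq : q ∈ (G ×ˢ G).filter (fun q : Tup × Tup => q.1 ≠ q.2 ∧ Tn q.1 = Tn q.2)
    · have hq' := hq
      rw [Finset.mem_filter, Finset.mem_product] at hq'
      obtain ⟨⟨h1, h2⟩, h3, h4⟩ := hq'
      obtain ⟨c, hc⟩ := code (hG _ h1).1 (hG _ h2).1 (hG _ h1).2 (hG _ h2).2 h3 h4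
      exact ⟨c, fun _ => hc⟩
    · exact ⟨(0, 0, true, true, true), fun h => absurd h hq⟩
  choose f hf using hex
  let S : Finset (Par × Par × ℕ × ℕ × Bool × Bool × Bool) :=
    PS Y Z ×ˢ PS Y Z ×ˢ Finset.range (E + 1) ×ˢ Finset.range (E + 1) ×ˢ
      (Finset.univ : Finset (Bool × Bool × Bool))
  have hS : S.card = 8 * (Y + 1) ^ 10 * (Z + 1) ^ 2 * (E + 1) ^ 2 := by
    simp only [S, Finset.card_product, Finset.card_range, PS_card, Finset.card_univ,
      Fintype.card_prod, Fintype.card_bool]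
    ring
  rw [← hS]
  refine Finset.card_le_card_of_injOn (fun q => (par q.1, par q.2, f q)) ?_ ?_
  · intro q hq
    have hq1 : q ∈ (G ×ˢ G).filter (fun q : Tup × Tup => q.1 ≠ q.2 ∧ Tn q.1 = Tn q.2) := hq
    have hq' := hq1
    rw [Finset.mem_filter, Finset.mem_product] at hq'
    obtain ⟨⟨h1, h2⟩, -⟩ := hq'
    obtain ⟨h3, h4, -⟩ := hf q hq1
    have m1 := par_mem (hG _ h1).2
    have m2 := par_mem (hG _ h2).2
    simp only [S, Finset.coe_product, Set.mem_prod, Finset.mem_coe, Finset.mem_range,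
      Finset.mem_univ, and_true]
    exact ⟨m1, m2, by omega, by omega⟩
  · intro q hq q' hq' heq
    simp only [Prod.mk.injEq] at heq
    obtain ⟨h1, h2, h3⟩ := heq
    obtain ⟨-, -, h4⟩ := hf q hq
    obtain ⟨-, -, h5⟩ := hf q' hq'
    rw [← h1, ← h2, ← h3] at h5
    obtain ⟨h6, h7⟩ := h4.unique h5
    exact Prod.ext (tup_ext h1 h6) (tup_ext h2 h7)

end Pool.Agent.T2h1.CG.COL
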