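import Pool.Agent.T2h1.CG.Stm

/-!
# Task COP
-/

set_option autoImplicit false

namespace Pool.Agent.T2h1.CG.COP

open Finset Pool.Agent.T2h1.CG

/-- Elements of a progression not coprime to `k`. -/
theorem t_COP (hA : S_APC) : S_COP := by
  classical
  intro Y q k A hq hk hqk hAY hAA
  have hsub : A.filter (fun y : ℕ => ¬ Nat.Coprime y k) ⊆
      k.primeFactors.biUnion fun l => A.filter fun y => l ∣ y := by
    intro y hy
    rw [Finset.mem_filter] at hy
    obtain ⟨l, hl, hly, hlk⟩ := Nat.Prime.not_coprime_iff_dvd.1 hy.2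
    exact Finset.mem_biUnion.2 ⟨l, Nat.mem_primeFactors.2 ⟨hl, hlk, hk.ne'⟩,
      Finset.mem_filter.2 ⟨hy.1, hly⟩⟩
  have h1 : ((A.filter (fun y : ℕ => ¬ Nat.Coprime y k)).card : ℝ) ≤
      ∑ l ∈ k.primeFactors, ((A.filter fun y => l ∣ y).card : ℝ) := by
    have := (Finset.card_le_card hsub).trans Finset.card_biUnion_le
    exact_mod_cast this
  have h2 : ∀ l ∈ k.primeFactors, ((A.filter fun y => l ∣ y).card : ℝ) ≤
      1 / (l : ℝ) * Y / q + 1 := by
    intro l hl
    have hl' := Nat.mem_primeFactors.1 hl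
    have hl0 : 0 < l := hl'.1.pos
    have hcop : Nat.Coprime q l := Nat.Coprime.coprime_dvd_right hl'.2.1 hqk
    have h3 := hA Y (q * l) (A.filter fun y => l ∣ y) (Nat.mul_pos hq hl0)
      ((Finset.filter_subset _ _).trans hAY) (fun y hy z hz => by
        rw [Finset.mem_filter] at hy hz
        refine (Nat.modEq_and_modEq_iff_modEq_mul hcop).1 ⟨hAA y hy.1 z hz.1, ?_⟩
        exact ((Nat.modEq_zero_iff_dvd).2 hy.2).trans ((Nat.modEq_zero_iff_dvd).2 hz.2).symm)
    refine h3.trans (le_of_eq ?_)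
    push_cast
    have : (l : ℝ) ≠ 0 := by exact_mod_cast hl0.ne'
    have : (q : ℝ) ≠ 0 := by exact_mod_cast hq.ne'
    field_simp
  refine h1.trans ((Finset.sum_le_sum h2).trans (le_of_eq ?_))
  rw [Finset.sum_add_distrib, sig, Finset.sum_mul, Finset.sum_div]
  simp

end Pool.Agent.T2h1.CG.COP
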