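import Pool.Agent.T2h1.CG.Stm

/-! Task EXP: the choice of the sizes. -/

set_option autoImplicit false

namespace Pool.Agent.T2h1.CG.EXP

open Pool.Agent.T2h1.CG

theorem lin_le (A : ℝ) : ∃ m0 : ℕ, ∀ m : ℕ, m0 ≤ m → A * m ≤ 2 ^ m := by
  have h := tendsto_pow_const_div_const_pow_of_one_lt 1 (show (1 : ℝ) < 2 by norm_num)
  have h2 := h.const_mul A
  rw [mul_zero] at h2
  have h3 := h2.eventually (gt_mem_nhds (show (0 : ℝ) < 1 by norm_num))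
  obtain ⟨m0, hm0⟩ := Filter.eventually_atTop.1 h3
  refine ⟨m0, fun m hm => ?_⟩
  have h4 := hm0 m hm
  rw [pow_one, ← mul_div_assoc, div_lt_one (by positivity)] at h4
  exact h4.le

theorem lin_le' (C A : ℕ) : ∃ m0 : ℕ, ∀ m : ℕ, m0 ≤ m → C * (A * m + 1) ≤ 2 ^ m := by
  obtain ⟨m0, h⟩ := lin_le (C * (A + 1))
  refine ⟨max m0 1, fun m hm => ?_⟩
  have h1 := h m (le_of_max_le_left hm)
  have h2 : 1 ≤ m := le_of_max_le_right hm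
  have h3 : (C * (A + 1)) * m ≤ 2 ^ m := by exact_mod_cast h1
  refine le_trans ?_ h3
  rw [mul_assoc]
  refine Nat.mul_le_mul_left _ ?_
  nlinarith

/-- the exponents -/
theorem expo (w0 m i1 i2 i3 i4 i5 : ℕ) (hw : w0 ≤ m) (hm : 20 ≤ m)
    (a1 : 20 * m < i1) (b1 : i1 ≤ 21 * m) (a2 : 20 * m < i2) (b2 : i2 ≤ 21 * m)
    (a3 : 20 * m < i3) (b3 : i3 ≤ 21 * m) (a4 : m < i4) (b4 : i4 ≤ 2 * m)
    (a5 : m < i5) (b5 : i5 ≤ 2 * m) :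
    ∃ p σ q : ℕ, 1943 * m ≤ p ∧ p ≤ 2003 * m ∧ σ ≤ 1033 * m ∧ m ≤ σ ∧
      1 + w0 + σ < p ∧ 3 + 2 * w0 + 2 * σ + i1 ≤ 2 * i2 + i3 + p ∧
      6 + 2 * i2 + i3 + p ≤ 2 * q ∧ 9 * m + q ≤ p ∧
      14 + i1 + 4 * i2 + 3 * i3 + 3 * p ≤ 6000 * m + 2 * i4 + 2 * i5 ∧
      3000 * m + i4 + i5 ≤ i2 + i3 + σ + i1 + p + (10 + w0) := by
  obtain ⟨p, hp⟩ : ∃ p, p = (6000 * m + 2 * i4 + 2 * i5 - 14 - i1 - 4 * i2 - 3 * i3) / 3 := ⟨_, rfl⟩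
  have hp1 : 1943 * m ≤ p := by omega
  have hp2 : p ≤ 1950 * m := by omega
  have hp3 : 14 + i1 + 4 * i2 + 3 * i3 + 3 * p ≤ 6000 * m + 2 * i4 + 2 * i5 := by omega
  have hp4 : 6000 * m + 2 * i4 + 2 * i5 ≤ 16 + i1 + 4 * i2 + 3 * i3 + 3 * p := by omega
  obtain ⟨σ, hσ⟩ : ∃ σ, σ = (2 * i2 + i3 + p - 3 - 2 * w0 - i1) / 2 := ⟨_, rfl⟩
  have hσ1 : 3 + 2 * w0 + 2 * σ + i1 ≤ 2 * i2 + i3 + p := by omega
  have hσ2 : 2 * i2 + i3 + p ≤ 4 + 2 * w0 + 2 * σ + i1 := by omega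
  obtain ⟨q, hq⟩ : ∃ q, q = (7 + 2 * i2 + i3 + p) / 2 := ⟨_, rfl⟩
  have hq1 : 6 + 2 * i2 + i3 + p ≤ 2 * q := by omega
  have hq2 : 2 * q ≤ 7 + 2 * i2 + i3 + p := by omega
  clear hp hσ hq
  exact ⟨p, σ, q, by omega, by omega, by omega, by omega, by omega, by omega, by omega, by omega,
    by omega, by omega⟩

theorem le2 {a b : ℕ} (h : a ≤ b) : 2 ^ a ≤ 2 ^ b := Nat.pow_le_pow_right (by norm_num) h

theorem p7 (C m i1 i4 i5 : ℕ) (hm : 20 ≤ m) (a1 : 20 * m < i1) (b4 : i4 ≤ 2 * m)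
    (b5 : i5 ≤ 2 * m) (hC : C ≤ 2 ^ m) (hC2 : 22 * m + 1 ≤ 2 ^ m) :
    C * (2 ^ i4 * 2 ^ i5) ^ 2 * (22 * m + 1 + Nat.sqrt (2 * 2 ^ i1) + 2 ^ (9 * m)) ≤ 2 ^ i1 := by
  obtain ⟨h, hh⟩ : ∃ h, h = i1 / 2 := ⟨_, rfl⟩
  have hh1 : 2 * h ≤ i1 := by omega
  have hh2 : i1 ≤ 2 * h + 1 := by omega
  have hh3 : 10 * m ≤ h := by omega
  have h1 : Nat.sqrt (2 * 2 ^ i1) ≤ 2 ^ (h + 1) := by
    have h2 : 2 * 2 ^ i1 ≤ 2 ^ (h + 1) * 2 ^ (h + 1) := by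
      rw [← pow_add, ← pow_succ']
      exact le2 (by omega)
    calc Nat.sqrt (2 * 2 ^ i1) ≤ Nat.sqrt (2 ^ (h + 1) * 2 ^ (h + 1)) := Nat.sqrt_le_sqrt h2
      _ = 2 ^ (h + 1) := Nat.sqrt_eq _
  have h2 : 22 * m + 1 ≤ 2 ^ (h + 1) := hC2.trans (le2 (by omega))
  have h3 : 2 ^ (9 * m) ≤ 2 ^ (h + 1) := le2 (by omega)
  have h4 : 22 * m + 1 + Nat.sqrt (2 * 2 ^ i1) + 2 ^ (9 * m) ≤ 2 ^ (h + 3) := by
    have e : 2 ^ (h + 3) = 4 * 2 ^ (h + 1) := by ring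
    rw [e]
    linarith
  have h5 : (2 ^ i4 * 2 ^ i5) ^ 2 ≤ 2 ^ (8 * m) := by
    rw [← pow_add, ← pow_mul]
    exact le2 (by omega)
  calc C * (2 ^ i4 * 2 ^ i5) ^ 2 * (22 * m + 1 + Nat.sqrt (2 * 2 ^ i1) + 2 ^ (9 * m)) ≤
      2 ^ m * 2 ^ (8 * m) * 2 ^ (h + 3) := Nat.mul_le_mul (Nat.mul_le_mul hC h5) h4
    _ = 2 ^ (m + 8 * m + (h + 3)) := by rw [← pow_add, ← pow_add]
    _ ≤ 2 ^ i1 := le2 (by omega)

theorem t_EXP : S_EXP := by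
  intro hCHB W C hW hC
  obtain ⟨c, hc, k0, hk0⟩ := hCHB
  obtain ⟨m1, hm1⟩ := lin_le' C 22
  obtain ⟨m2, hm2⟩ := lin_le (2 * C * 2003 / c)
  obtain ⟨m3, hm3⟩ := lin_le' 1 22
  refine ⟨c / (2 ^ (10 + W) * 2003), W, m1 + m2 + m3 + k0 + W + 20, by positivity,
    Nat.lt_two_pow_self.le, ?_⟩
  intro m i1 i2 i3 i4 i5 hm a1 b1 a2 b2 a3 b3 a4 b4 a5 b5
  have hCm := hm1 m (by omega)
  have hcm := hm2 m (by omega)
  have h22 : 22 * m + 1 ≤ 2 ^ m := by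
    have := hm3 m (by omega)
    rwa [one_mul] at this
  have hC2 : C ≤ 2 ^ m := le_trans (Nat.le_mul_of_pos_right C (by omega)) hCm
  obtain ⟨p, σ, q, e1, e2, e3, e4, e5, e6, e7, e8, e9, e10⟩ :=
    expo W m i1 i2 i3 i4 i5 (by omega) (by omega) a1 b1 a2 b2 a3 b3 a4 b4 a5 b5
  have hpp := hk0 p (by omega)
  have hp0 : (0 : ℝ) < p := by
    have : 0 < p := by omega
    exact_mod_cast this
  have hm0 : (0 : ℝ) < m := by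
    have : 0 < m := by omega
    exact_mod_cast this
  have hpm : (p : ℝ) ≤ 2003 * m := by exact_mod_cast e2
  have hW2 : W ≤ 2 ^ W := Nat.lt_two_pow_self.le
  have hd : ∀ i : ℕ, i ≤ 21 * m → 2 * 2 ^ i ≤ 2 ^ (22 * m) := by
    intro i hi
    rw [← pow_succ']
    exact le2 (by omega)
  have hc2 : ∀ i : ℕ, m ≤ i → C * (22 * m + 1) ≤ 2 ^ i := fun i hi => hCm.trans (le2 hi)
  refine ⟨p, σ, q, by positivity, hd _ b1, hd _ b2, hd _ b3, hd _ (by omega), hd _ (by omega),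
    hc2 _ (by omega), hc2 _ (by omega), hc2 _ (by omega), hc2 _ (by omega), hc2 _ e4,
    Nat.pow_lt_pow_right (by norm_num) (by omega), hC2.trans (le2 (by omega)), ?_, ?_,
    p7 C m i1 i4 i5 (by omega) a1 b4 b5 hC2 h22, ?_, ?_, e9, e2, e1, e3, ?_⟩
  · calc 2 * W * 2 ^ σ ≤ 2 * 2 ^ W * 2 ^ σ := by
          exact Nat.mul_le_mul_right _ (Nat.mul_le_mul_left _ hW2)
      _ = 2 ^ (1 + W + σ) := by rw [pow_add, pow_add, pow_one]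
      _ < 2 ^ p := Nat.pow_lt_pow_right (by norm_num) e5
  · calc 8 * W ^ 2 * (2 ^ σ) ^ 2 * 2 ^ i1 ≤ 8 * (2 ^ W) ^ 2 * (2 ^ σ) ^ 2 * 2 ^ i1 := by
          refine Nat.mul_le_mul_right _ (Nat.mul_le_mul_right _ (Nat.mul_le_mul_left _ ?_))
          exact Nat.pow_le_pow_left hW2 2
      _ = 2 ^ (3 + 2 * W + 2 * σ + i1) := by
          rw [pow_add, pow_add, pow_add, pow_mul', pow_mul']
          norm_num
      _ ≤ 2 ^ (2 * i2 + i3 + p) := le2 e6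
      _ = (2 ^ i2) ^ 2 * 2 ^ i3 * 2 ^ p := by rw [pow_add, pow_add, pow_mul']
  · calc 64 * ((2 ^ i2) ^ 2 * 2 ^ i3 * 2 ^ p) = 2 ^ (6 + 2 * i2 + i3 + p) := by
          rw [pow_add, pow_add, pow_add, pow_mul']
          norm_num
          ring
      _ ≤ 2 ^ (2 * q) := le2 e7
      _ = (2 ^ q) ^ 2 := by rw [pow_mul']
  · have h1 : (2 ^ i4 * 2 ^ i5) ^ 2 ≤ 2 ^ (8 * m) := by
      rw [← pow_add, ← pow_mul]
      exact le2 (by omega)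
    have h2 : 2 ^ p + 2 ^ (9 * m) * 2 ^ q ≤ 2 * 2 ^ p := by
      rw [← pow_add]
      have := le2 e8
      omega
    have h3 : C * (2 ^ i4 * 2 ^ i5) ^ 2 * (2 ^ p + 2 ^ (9 * m) * 2 ^ q) ≤
        C * 2 ^ (8 * m) * (2 * 2 ^ p) := Nat.mul_le_mul (Nat.mul_le_mul_left _ h1) h2
    refine h3.trans ?_
    have h4 : ((C * 2 ^ (8 * m) * (2 * 2 ^ p) : ℕ) : ℝ) ≤
        ((2 ^ (9 * m) * ((Finset.Ioc (2 ^ p) (4 * 2 ^ p)).filter Nat.Prime).card : ℕ) : ℝ) := by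
      push_cast
      have h5 : 2 * (C : ℝ) ≤ 2 ^ m * (c / p) := by
        have h6 : 2 * C * 2003 / c * m = 2 * C * (2003 * m) / c := by ring
        rw [h6, div_le_iff₀ hc] at hcm
        rw [← mul_div_assoc, le_div_iff₀ hp0]
        calc 2 * (C : ℝ) * p ≤ 2 * C * (2003 * m) := by
              refine mul_le_mul_of_nonneg_left hpm (by positivity)
          _ ≤ 2 ^ m * c := hcm
      calc (C : ℝ) * 2 ^ (8 * m) * (2 * 2 ^ p) = (2 * C) * (2 ^ (8 * m) * 2 ^ p) := by ring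
        _ ≤ (2 ^ m * (c / p)) * (2 ^ (8 * m) * 2 ^ p) :=
            mul_le_mul_of_nonneg_right h5 (by positivity)
        _ = 2 ^ (9 * m) * (c * 2 ^ p / p) := by
            rw [show 9 * m = m + 8 * m by ring, pow_add]
            ring
        _ ≤ 2 ^ (9 * m) * ((Finset.Ioc (2 ^ p) (4 * 2 ^ p)).filter Nat.Prime).card :=
            mul_le_mul_of_nonneg_left hpp (by positivity)
    exact_mod_cast h4
  · push_cast
    have h1 : (2 : ℝ) ^ (3000 * m) * (2 ^ i4 * 2 ^ i5) ≤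
        (2 ^ i2 * 2 ^ i3 * 2 ^ σ * 2 ^ i1 * 2 ^ p) * 2 ^ (10 + W) := by
      rw [← pow_add, ← pow_add, ← pow_add, ← pow_add, ← pow_add, ← pow_add, ← pow_add]
      exact pow_le_pow_right₀ (by norm_num) (by omega)
    calc c / (2 ^ (10 + W) * 2003) * 2 ^ (3000 * m) / m * (2 ^ i4 * 2 ^ i5) =
        c / (2003 * m) / 2 ^ (10 + W) * (2 ^ (3000 * m) * (2 ^ i4 * 2 ^ i5)) := by
          field_simp
      _ ≤ c / (2003 * m) / 2 ^ (10 + W) *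
          ((2 ^ i2 * 2 ^ i3 * 2 ^ σ * 2 ^ i1 * 2 ^ p) * 2 ^ (10 + W)) :=
          mul_le_mul_of_nonneg_left h1 (by positivity)
      _ = (2 ^ i2 * 2 ^ i3 * 2 ^ σ * 2 ^ i1) * (c * 2 ^ p / (2003 * m)) := by
          field_simp
      _ ≤ (2 ^ i2 * 2 ^ i3 * 2 ^ σ * 2 ^ i1) * (c * 2 ^ p / p) := by
          refine mul_le_mul_of_nonneg_left ?_ (by positivity)
          exact div_le_div_of_nonneg_left (by positivity) hp0 hpm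
      _ ≤ (2 ^ i2 * 2 ^ i3 * 2 ^ σ * 2 ^ i1) *
          ((Finset.Ioc (2 ^ p) (4 * 2 ^ p)).filter Nat.Prime).card :=
          mul_le_mul_of_nonneg_left hpp (by positivity)

end Pool.Agent.T2h1.CG.EXP
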