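import Pool.Agent.T2h1.CG.Stm2

/-! Project CG, task GLU: the union of the boxes. -/

set_option autoImplicit false

namespace Pool.Agent.T2h1.CG.GLU

open Pool.Agent.T2h1.CG

theorem iv_eq {i j x : ℕ} (hi : x ∈ Iv (2 ^ i)) (hj : x ∈ Iv (2 ^ j)) : i = j := by
  rw [Iv, Finset.mem_Ioc, ← pow_succ'] at hi hj
  have h1 : i < j + 1 := (Nat.pow_lt_pow_iff_right (by norm_num : 1 < 2)).1 (hi.1.trans_le hj.2)
  have h2 : j < i + 1 := (Nat.pow_lt_pow_iff_right (by norm_num : 1 < 2)).1 (hj.1.trans_le hi.2)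
  omega

theorem t_GLU : S_GLU := by
  classical
  intro hSQF hCOL hCHB hBOX hEXP hWAC hIMG hXGE hSIZ M a hM ha
  obtain ⟨W, a0, hW, ha0, h2W, hMW, haM⟩ := hWAC M a hM ha
  obtain ⟨C, hC, hbox⟩ := hBOX W a0 hW ha0
  obtain ⟨δ, w0, m0, hδ, hWw, hexp⟩ := hEXP hCHB W C hW.1 hC
  obtain ⟨m1, hsiz⟩ := hSIZ W a0 w0 hW ha0 hWw
  have hCr : (0 : ℝ) < C := by exact_mod_cast hC
  refine hXGE M a ⟨δ / (2 * C), by positivity, max (max m0 m1) (⌈2 * C / δ⌉₊ + 1), fun m hm => ?_⟩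
  have hm0 : m0 ≤ m := (le_max_left _ _).trans ((le_max_left _ _).trans hm)
  have hm1 : m1 ≤ m := (le_max_right _ _).trans ((le_max_left _ _).trans hm)
  have hm2 : ⌈2 * C / δ⌉₊ + 1 ≤ m := (le_max_right _ _).trans hm
  have hmpos : 1 ≤ m := by omega
  have hmr : (1 : ℝ) ≤ m := by exact_mod_cast hmpos
  set I : Finset (ℕ × ℕ × ℕ × ℕ × ℕ) := Finset.Ioc (20 * m) (21 * m) ×ˢ Finset.Ioc (20 * m) (21 * m) ×ˢ
    Finset.Ioc (20 * m) (21 * m) ×ˢ Finset.Ioc m (2 * m) ×ˢ Finset.Ioc m (2 * m) with hI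
  have hIc : I.card = m ^ 5 := by
    rw [hI]
    simp only [Finset.card_product, Nat.card_Ioc]
    rw [show 21 * m - 20 * m = m by omega, show 2 * m - m = m by omega]
    ring
  have key : ∀ i ∈ I, ∃ G : Finset Tup, (∀ t ∈ G, TG W a0 t ∧
      (t.1 ∈ Iv (2 ^ i.1) ∧ t.2.1 ∈ Iv (2 ^ i.2.1) ∧ t.2.2.1 ∈ Iv (2 ^ i.2.2.1) ∧
        t.2.2.2.1 ∈ Iv (2 ^ i.2.2.2.1) ∧ t.2.2.2.2.1 ∈ Iv (2 ^ i.2.2.2.2)) ∧
      Tn t ≤ 2 ^ (6000 * m) ∧ TB (2 ^ (22 * m)) (2 ^ (1034 * m)) (2 ^ (130 * m)) (2 ^ (1943 * m)) t) ∧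
      δ / C * (2 ^ (3000 * m) / m) ≤ (G.card : ℝ) := by
    rintro ⟨i1, i2, i3, i4, i5⟩ hi
    simp only [hI, Finset.mem_product, Finset.mem_Ioc] at hi
    obtain ⟨⟨h1, h1'⟩, ⟨h2, h2'⟩, ⟨h3, h3'⟩, ⟨h4, h4'⟩, ⟨h5, h5'⟩⟩ := hi
    obtain ⟨p, σ, q, e1, e2, e3, e4, e5, e6, e7, e8, e9, e10, e11, e12, e13, e14, e15, e16, e17, e18, e19,
      e20, e21, e22, e23⟩ := hexp m i1 i2 i3 i4 i5 hm0 h1 h1' h2 h2' h3 h3' h4 h4' h5 h5'
    obtain ⟨G, hG1, hG2⟩ := hbox (2 ^ i1) (2 ^ i2) (2 ^ i3) (2 ^ i4) (2 ^ i5) (2 ^ σ) (2 ^ p) (2 ^ (9 * m))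
      (2 ^ q) (22 * m) e1 e2 e3 e4 e5 e6 e7 e8 e9 e10 e11 e12 e13 e14 e15 e16 e17 e18
    refine ⟨G, fun t ht => ?_, ?_⟩
    · obtain ⟨g1, g2⟩ := hG1 t ht
      obtain ⟨s1, s2⟩ := hsiz m i1 i2 i3 i4 i5 p σ hm1 h1' h2' h3' h4' h5' e19 e20 e21 e22 t g1 g2
      exact ⟨g1, ⟨g2.1, g2.2.1, g2.2.2.1, g2.2.2.2.1, g2.2.2.2.2.1⟩, s1, s2⟩
    · have h6 : δ * 2 ^ (3000 * m) / m * (2 ^ i4 * 2 ^ i5) ≤ (C * G.card : ℝ) * (2 ^ i4 * 2 ^ i5) := by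
        refine e23.trans ((Nat.cast_le.2 hG2).trans (le_of_eq ?_))
        push_cast
        ring
      have h7 := le_of_mul_le_mul_right h6 (by positivity : (0 : ℝ) < 2 ^ i4 * 2 ^ i5)
      calc δ / C * (2 ^ (3000 * m) / m) = (δ * 2 ^ (3000 * m) / m) / C := by ring
        _ ≤ (C * G.card) / C := div_le_div_of_nonneg_right h7 hCr.le
        _ = G.card := by field_simp
  choose! Gi hGi1 hGi2 using key
  set G : Finset Tup := I.biUnion Gi with hG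
  have hGm : ∀ t ∈ G, TG W a0 t ∧ Tn t ≤ 2 ^ (6000 * m) ∧
      TB (2 ^ (22 * m)) (2 ^ (1034 * m)) (2 ^ (130 * m)) (2 ^ (1943 * m)) t := by
    intro t ht
    obtain ⟨i, hi, hti⟩ := Finset.mem_biUnion.1 ht
    obtain ⟨g1, -, g3, g4⟩ := hGi1 i hi t hti
    exact ⟨g1, g3, g4⟩
  have hdis : ∀ i ∈ I, ∀ j ∈ I, i ≠ j → Disjoint (Gi i) (Gi j) := by
    intro i hi j hj hij
    rw [Finset.disjoint_left]
    intro t hti htj
    obtain ⟨-, ⟨a1, a2, a3, a4, a5⟩, -⟩ := hGi1 i hi t hti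
    obtain ⟨-, ⟨b1, b2, b3, b4, b5⟩, -⟩ := hGi1 j hj t htj
    apply hij
    rw [Prod.ext_iff, Prod.ext_iff, Prod.ext_iff, Prod.ext_iff]
    exact ⟨iv_eq a1 b1, iv_eq a2 b2, iv_eq a3 b3, iv_eq a4 b4, iv_eq a5 b5⟩
  have hcard : (m : ℝ) ^ 5 * (δ / C * (2 ^ (3000 * m) / m)) ≤ G.card := by
    rw [hG, Finset.card_biUnion hdis]
    push_cast
    have h1 := Finset.card_nsmul_le_sum I (fun i => ((Gi i).card : ℝ)) _ hGi2
    rw [nsmul_eq_mul, hIc] at h1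
    push_cast at h1
    exact h1
  -- collisions
  have hcol := hCOL W a0 (2 ^ (22 * m)) (2 ^ (1034 * m)) (2 ^ (130 * m)) (2 ^ (1943 * m)) G hW
    fun t ht => ⟨(hGm t ht).1, (hGm t ht).2.2⟩
  have hone : ∀ k : ℕ, 2 ^ k + 1 ≤ 2 ^ (k + 1) := by
    intro k
    rw [pow_succ]
    have : 0 < 2 ^ k := by positivity
    omega
  have hcol2 : 8 * (2 ^ (22 * m) + 1) ^ 10 * (2 ^ (1034 * m) + 1) ^ 2 * (2 ^ (130 * m) + 1) ^ 2 ≤
      2 ^ (2600 * m) := by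
    calc 8 * (2 ^ (22 * m) + 1) ^ 10 * (2 ^ (1034 * m) + 1) ^ 2 * (2 ^ (130 * m) + 1) ^ 2
        ≤ 2 ^ 3 * (2 ^ (22 * m + 1)) ^ 10 * (2 ^ (1034 * m + 1)) ^ 2 * (2 ^ (130 * m + 1)) ^ 2 := by
          refine Nat.mul_le_mul (Nat.mul_le_mul (Nat.mul_le_mul (by norm_num) ?_) ?_) ?_
          · exact Nat.pow_le_pow_left (hone _) 10
          · exact Nat.pow_le_pow_left (hone _) 2
          · exact Nat.pow_le_pow_left (hone _) 2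
      _ = 2 ^ (2548 * m + 17) := by
          rw [← pow_mul, ← pow_mul, ← pow_mul, ← pow_add, ← pow_add, ← pow_add]
          congr 1
          ring
      _ ≤ _ := Nat.pow_le_pow_right (by norm_num) (by omega)
  have himg := hIMG G Tn
  have hsub : ((G.image Tn : Finset ℕ) : Set ℕ) ⊆
      {n : ℕ | n ≤ 2 ^ (6000 * m) ∧ Squarefree n ∧ Odd n ∧ n ≡ a [MOD M] ∧ IsCongruent n} := by
    intro n hn
    obtain ⟨t, ht, rfl⟩ := Finset.mem_image.1 (Finset.mem_coe.1 hn)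
    obtain ⟨g1, g2, -⟩ := hGm t ht
    obtain ⟨s1, s2, s3, -⟩ := hSQF W a0 _ _ _ _ _ _ _ hW ha0 g1
    refine ⟨g2, s1, ?_, (s2.of_dvd hMW).trans haM, s3⟩
    have h1 : Tn t ≡ a0 [MOD 2] := s2.of_dvd h2W
    have h2 : a0 % 2 = 1 := by
      have h3 : Nat.Coprime a0 2 := ha0.coprime_dvd_right h2W
      rcases Nat.mod_two_eq_zero_or_one a0 with h | h
      · exfalso
        have h4 : 2 ∣ Nat.gcd a0 2 := Nat.dvd_gcd (Nat.dvd_of_mod_eq_zero h) (dvd_refl 2)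
        rw [h3] at h4
        omega
      · exact h
    rw [Nat.odd_iff, ← h2]
    exact h1
  have hcN : (G.image Tn).card ≤ cN M a (2 ^ (6000 * m)) := by
    unfold cN
    rw [← Set.ncard_coe_finset]
    exact Set.ncard_le_ncard hsub ((Set.finite_Iic (2 ^ (6000 * m))).subset fun n hn => hn.1)
  have htot : (G.card : ℝ) ≤ cN M a (2 ^ (6000 * m)) + 2 ^ (2600 * m) := by
    have h1 : G.card ≤ cN M a (2 ^ (6000 * m)) + 2 ^ (2600 * m) :=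
      himg.trans (Nat.add_le_add hcN (hcol.trans hcol2))
    have h2 : (G.card : ℝ) ≤ ((cN M a (2 ^ (6000 * m)) + 2 ^ (2600 * m) : ℕ) : ℝ) := Nat.cast_le.2 h1
    rw [Nat.cast_add, Nat.cast_pow, Nat.cast_ofNat] at h2
    exact h2
  -- the comparison
  have h1 : (m : ℝ) ^ 5 * (δ / C * (2 ^ (3000 * m) / m)) = 2 * (δ / (2 * C) * 2 ^ (3000 * m) * (m : ℝ) ^ 4) := by
    field_simp
  have h2 : (2 : ℝ) ^ (2600 * m) ≤ δ / (2 * C) * 2 ^ (3000 * m) * (m : ℝ) ^ 4 := by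
    have h3 : (3000 : ℕ) * m = 2600 * m + 400 * m := by ring
    rw [h3, pow_add]
    have h4 : 1 ≤ δ / (2 * C) * 2 ^ (400 * m) := by
      have h5 : 2 * (C : ℝ) / δ ≤ m := (Nat.le_ceil _).trans (Nat.cast_le.2 (by omega))
      have h6 : (m : ℝ) ≤ 2 ^ (400 * m) := by
        have h7 : m ≤ 2 ^ (400 * m) := (Nat.lt_two_pow_self (n := m)).le.trans
          (Nat.pow_le_pow_right (by norm_num) (by omega))
        exact_mod_cast h7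
      have h8 : 2 * (C : ℝ) / δ ≤ 2 ^ (400 * m) := h5.trans h6
      rw [div_le_iff₀ hδ] at h8
      rw [div_mul_eq_mul_div, le_div_iff₀ (by positivity), one_mul]
      linarith
    have h5 : (1 : ℝ) ≤ (m : ℝ) ^ 4 := one_le_pow₀ hmr
    calc (2 : ℝ) ^ (2600 * m) = 2 ^ (2600 * m) * (1 * 1) := by ring
      _ ≤ 2 ^ (2600 * m) * ((δ / (2 * C) * 2 ^ (400 * m)) * (m : ℝ) ^ 4) :=
          mul_le_mul_of_nonneg_left (mul_le_mul h4 h5 zero_le_one (by positivity)) (by positivity)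
      _ = _ := by ring
  rw [h1] at hcard
  linarith

end Pool.Agent.T2h1.CG.GLU
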