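import Pool.Agent.T2h1.CG.Stm2

/-! Project CG, task IMG: images and collisions. -/

set_option autoImplicit false

namespace Pool.Agent.T2h1.CG.IMG

open Pool.Agent.T2h1.CG

theorem t_IMG : S_IMG := by
  classical
  intro G f
  have h : ∀ n : ℕ, ∃ t : Tup, n ∈ G.image f → t ∈ G ∧ f t = n := by
    intro n
    by_cases hn : n ∈ G.image f
    · obtain ⟨t, ht, he⟩ := Finset.mem_image.1 hn
      exact ⟨t, fun _ => ⟨ht, he⟩⟩
    · exact ⟨(0, 0, 0, 0, 0, 0, 0), fun h => absurd h hn⟩
  choose g hg using h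
  rw [← Finset.card_filter_add_card_filter_not (s := G) (fun t => g (f t) = t)]
  refine add_le_add ?_ ?_
  · refine Finset.card_le_card_of_injOn f (fun t ht => ?_) fun t ht t' ht' he => ?_
    · exact Finset.mem_coe.2 (Finset.mem_image_of_mem f (Finset.mem_filter.1 ht).1)
    · rw [← (Finset.mem_filter.1 ht).2, ← (Finset.mem_filter.1 ht').2, he]
  · refine Finset.card_le_card_of_injOn (fun t => (t, g (f t))) (fun t ht => ?_) fun t ht t' ht' he => ?_
    · obtain ⟨ht1, ht2⟩ := Finset.mem_filter.1 ht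
      obtain ⟨h1, h2⟩ := hg (f t) (Finset.mem_image_of_mem f ht1)
      exact Finset.mem_coe.2 (Finset.mem_filter.2 ⟨Finset.mem_product.2 ⟨ht1, h1⟩, Ne.symm ht2, h2.symm⟩)
    · exact congrArg Prod.fst he

end Pool.Agent.T2h1.CG.IMG
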