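import Pool.Agent.T2h1.CG.T_APC

/-!
# Task LRG
-/

set_option autoImplicit false

namespace Pool.Agent.T2h1.CG.LRG

open Finset Pool.Agent.T2h1.CG

/-- one sign -/
lemma one_sign (L1 P Q g : ℕ) (hL : 0 < L1) (A : Finset ℕ) (F : ℕ → ℕ)
    (hA : A ⊆ Finset.Ioc P (4 * P)) (hF0 : ∀ p ∈ A, 0 < F p) (hFQ : ∀ p ∈ A, F p ≤ Q ^ 2)
    (hcop : ∀ p ∈ A, ∀ l : ℕ, l.Prime → l ∣ F p → Nat.Coprime l g)
    (hF : ∀ p ∈ A, ∀ p' ∈ A, ∀ m : ℕ, m ∣ F p → m ∣ F p' → g * p ≡ g * p' [MOD m])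
    (hex : ∀ p ∈ A, ∃ l : ℕ, l.Prime ∧ L1 < l ∧ l ^ 2 ∣ F p) :
    (A.card : ℝ) ≤ 3 * P / L1 + Q := by
  classical
  have hsub : A ⊆ (Finset.Ioc L1 Q).biUnion fun l => A.filter fun p => l.Prime ∧ l ^ 2 ∣ F p := by
    intro p hp
    obtain ⟨l, hl, hl1, hl2⟩ := hex p hp
    refine Finset.mem_biUnion.2 ⟨l, Finset.mem_Ioc.2 ⟨hl1, ?_⟩, Finset.mem_filter.2 ⟨hp, hl, hl2⟩⟩
    have h1 : l ^ 2 ≤ Q ^ 2 := (Nat.le_of_dvd (hF0 p hp) hl2).trans (hFQ p hp)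
    exact (Nat.pow_le_pow_iff_left two_ne_zero).1 h1
  have h1 : (A.card : ℝ) ≤ ∑ l ∈ Finset.Ioc L1 Q,
      ((A.filter fun p => l.Prime ∧ l ^ 2 ∣ F p).card : ℝ) := by
    have := (Finset.card_le_card hsub).trans Finset.card_biUnion_le
    exact_mod_cast this
  have h2 : ∀ l ∈ Finset.Ioc L1 Q, ((A.filter fun p => l.Prime ∧ l ^ 2 ∣ F p).card : ℝ) ≤
      3 * P * ((l : ℝ) ^ 2)⁻¹ + 1 := by
    intro l hl
    rw [Finset.mem_Ioc] at hl
    have h3 := APC.card_le_gen P (4 * P) (l ^ 2) (A.filter fun p => l.Prime ∧ l ^ 2 ∣ F p)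
      (by have : 0 < l := by omega
          positivity)
      ((Finset.filter_subset _ _).trans hA) (fun y hy z hz => by
        rw [Finset.mem_filter] at hy hz
        refine Nat.ModEq.cancel_left_of_coprime ?_ (hF y hy.1 z hz.1 _ hy.2.2 hz.2.2)
        exact Nat.Coprime.pow_left 2 (hcop y hy.1 l hy.2.1
          ((dvd_pow_self l two_ne_zero).trans hy.2.2)))
    refine h3.trans (le_of_eq ?_)
    rw [show 4 * P - P = 3 * P by omega]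
    push_cast
    rw [div_eq_mul_inv]
  refine h1.trans ((Finset.sum_le_sum h2).trans ?_)
  rw [Finset.sum_add_distrib, ← Finset.mul_sum, Finset.sum_const, Nat.card_Ioc, nsmul_eq_mul,
    mul_one]
  have h5 : ∑ l ∈ Finset.Ioc L1 Q, ((l : ℝ) ^ 2)⁻¹ ≤ (L1 : ℝ)⁻¹ := by
    rcases le_or_gt L1 Q with h | h
    · have h6 := sum_Ioc_inv_sq_le_sub (α := ℝ) (k := L1) (n := Q) hL.ne' h
      have h7 : (0 : ℝ) ≤ (Q : ℝ)⁻¹ := by positivity
      linarith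
    · rw [Finset.Ioc_eq_empty_of_le h.le, Finset.sum_empty]
      positivity
  have h6 : 3 * (P : ℝ) * ∑ l ∈ Finset.Ioc L1 Q, ((l : ℝ) ^ 2)⁻¹ ≤ 3 * P * (L1 : ℝ)⁻¹ :=
    mul_le_mul_of_nonneg_left h5 (by positivity)
  have h8 : ((Q - L1 : ℕ) : ℝ) ≤ Q := by exact_mod_cast Nat.sub_le _ _
  rw [div_eq_mul_inv]
  linarith

/-- Large square factors. -/
theorem t_LRG (_hA : S_APC) : S_LRG := by
  classical
  intro L1 P Q x u r s hL hx hs hu hr hQ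
  set T := (Finset.Ioc P (4 * P)).filter (fun p => s ^ 2 * x < u ^ 2 * r * p ∧
    Nat.Coprime (s ^ 2 * x) (u ^ 2 * r * p)) with hT
  have hTm : ∀ p ∈ T, P < p ∧ p ≤ 4 * P ∧ s ^ 2 * x < u ^ 2 * r * p ∧
      Nat.Coprime (s ^ 2 * x) (u ^ 2 * r * p) := by
    intro p hp
    rw [hT, Finset.mem_filter, Finset.mem_Ioc] at hp
    exact ⟨hp.1.1, hp.1.2, hp.2.1, hp.2.2⟩
  have hb : ∀ p ∈ T, u ^ 2 * r * p ≤ 4 * (u ^ 2 * r * P) := by
    intro p hp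
    have := Nat.mul_le_mul_left (u ^ 2 * r) (hTm p hp).2.1
    linarith
  have hm := one_sign L1 P Q (u ^ 2 * r) hL
    (T.filter fun p => ∃ l : ℕ, l.Prime ∧ L1 < l ∧ l ^ 2 ∣ u ^ 2 * r * p - s ^ 2 * x)
    (fun p => u ^ 2 * r * p - s ^ 2 * x)
    (((Finset.filter_subset _ _).trans (Finset.filter_subset _ _)))
    (fun p hp => by
      have := (hTm p (Finset.mem_filter.1 hp).1).2.2.1
      omega)
    (fun p hp => by
      have := hb p (Finset.mem_filter.1 hp).1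
      omega)
    (fun p hp l hl hd => by
      have h := hTm p (Finset.mem_filter.1 hp).1
      rw [Nat.Prime.coprime_iff_not_dvd hl]
      intro hlg
      have h1 : l ∣ u ^ 2 * r * p := hlg.mul_right p
      have h2 : l ∣ s ^ 2 * x := (Nat.dvd_sub_iff_right h.2.2.1.le h1).1 hd
      exact Nat.not_coprime_of_dvd_of_dvd hl.one_lt h2 h1 h.2.2.2)
    (fun p hp p' hp' m hd hd' => by
      have h := hTm p (Finset.mem_filter.1 hp).1
      have h' := hTm p' (Finset.mem_filter.1 hp').1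
      exact ((Nat.modEq_iff_dvd' h.2.2.1.le).2 hd).symm.trans
        ((Nat.modEq_iff_dvd' h'.2.2.1.le).2 hd'))
    (fun p hp => (Finset.mem_filter.1 hp).2)
  have hp := one_sign L1 P Q (u ^ 2 * r) hL
    (T.filter fun p => ∃ l : ℕ, l.Prime ∧ L1 < l ∧ l ^ 2 ∣ u ^ 2 * r * p + s ^ 2 * x)
    (fun p => u ^ 2 * r * p + s ^ 2 * x)
    (((Finset.filter_subset _ _).trans (Finset.filter_subset _ _)))
    (fun p hp => by
      have := (hTm p (Finset.mem_filter.1 hp).1).2.2.1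
      omega)
    (fun p hp => by
      have h1 := hb p (Finset.mem_filter.1 hp).1
      have h2 := (hTm p (Finset.mem_filter.1 hp).1).2.2.1
      omega)
    (fun p hp l hl hd => by
      have h := hTm p (Finset.mem_filter.1 hp).1
      rw [Nat.Prime.coprime_iff_not_dvd hl]
      intro hlg
      have h1 : l ∣ u ^ 2 * r * p := hlg.mul_right p
      have h2 : l ∣ s ^ 2 * x := (Nat.dvd_add_right h1).1 hd
      exact Nat.not_coprime_of_dvd_of_dvd hl.one_lt h2 h1 h.2.2.2)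
    (fun p hp p' hp' m hd hd' => by
      have h3 : u ^ 2 * r * p + s ^ 2 * x ≡ u ^ 2 * r * p' + s ^ 2 * x [MOD m] :=
        (Nat.modEq_zero_iff_dvd.2 hd).trans (Nat.modEq_zero_iff_dvd.2 hd').symm
      exact Nat.ModEq.add_right_cancel' _ h3)
    (fun p hp => (Finset.mem_filter.1 hp).2)
  have hsub : (Finset.Ioc P (4 * P)).filter (fun p => s ^ 2 * x < u ^ 2 * r * p ∧
    Nat.Coprime (s ^ 2 * x) (u ^ 2 * r * p) ∧ ∃ l : ℕ, l.Prime ∧ L1 < l ∧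
      (l ^ 2 ∣ u ^ 2 * r * p - s ^ 2 * x ∨ l ^ 2 ∣ u ^ 2 * r * p + s ^ 2 * x)) ⊆
      (T.filter fun p => ∃ l : ℕ, l.Prime ∧ L1 < l ∧ l ^ 2 ∣ u ^ 2 * r * p - s ^ 2 * x) ∪
      (T.filter fun p => ∃ l : ℕ, l.Prime ∧ L1 < l ∧ l ^ 2 ∣ u ^ 2 * r * p + s ^ 2 * x) := by
    intro p hp
    rw [Finset.mem_filter] at hp
    obtain ⟨h0, h1, h2, l, hl, hl1, h3 | h3⟩ := hp
    · exact Finset.mem_union_left _ (Finset.mem_filter.2 ⟨Finset.mem_filter.2 ⟨h0, h1, h2⟩,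
        l, hl, hl1, h3⟩)
    · exact Finset.mem_union_right _ (Finset.mem_filter.2 ⟨Finset.mem_filter.2 ⟨h0, h1, h2⟩,
        l, hl, hl1, h3⟩)
  have h9 := (Finset.card_le_card hsub).trans (Finset.card_union_le _ _)
  have h10 : (((Finset.Ioc P (4 * P)).filter (fun p => s ^ 2 * x < u ^ 2 * r * p ∧
    Nat.Coprime (s ^ 2 * x) (u ^ 2 * r * p) ∧ ∃ l : ℕ, l.Prime ∧ L1 < l ∧
      (l ^ 2 ∣ u ^ 2 * r * p - s ^ 2 * x ∨ l ^ 2 ∣ u ^ 2 * r * p + s ^ 2 * x))).card : ℝ) ≤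
      ((T.filter fun p => ∃ l : ℕ, l.Prime ∧ L1 < l ∧ l ^ 2 ∣ u ^ 2 * r * p - s ^ 2 * x).card : ℝ)
      + ((T.filter fun p => ∃ l : ℕ, l.Prime ∧ L1 < l ∧
        l ^ 2 ∣ u ^ 2 * r * p + s ^ 2 * x).card : ℝ) := by
    exact_mod_cast h9
  linarith

end Pool.Agent.T2h1.CG.LRG
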