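import Pool.Agent.T2h1.CG.Stm

/-! Project CG, task NIC: most numbers are nice. -/

set_option autoImplicit false

namespace Pool.Agent.T2h1.CG.NIC

open Pool.Agent.T2h1.CG

theorem nd {W y l : ℕ} (hW : Wok W) (hy : y ≡ 1 [MOD W]) (hl : l.Prime) (hly : l ∣ y) : ¬ l ∣ W ∧ 1000 < l := by
  have h1 : ¬ l ∣ W := by
    intro h
    have h2 : y ≡ 1 [MOD l] := hy.of_dvd h
    have h3 : y ≡ 0 [MOD l] := Nat.modEq_zero_iff_dvd.2 hly
    have h4 : l ∣ 1 := Nat.modEq_zero_iff_dvd.1 (h2.symm.trans h3)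
    exact hl.one_lt.ne' (Nat.dvd_one.1 h4)
  refine ⟨h1, ?_⟩
  by_contra h
  exact h1 (hW.2 l hl (by omega))

theorem size {W Y : ℕ} (hW : 0 < W) :
    (Y : ℝ) / W - 1 ≤ (((Iv Y).filter fun y => y ≡ 1 [MOD W]).card : ℝ) := by
  have h := Nat.Ioc_filter_modEq_card Y (2 * Y) hW 1
  have h1 : ((⌊(((2 * Y : ℕ) : ℚ) - ((1 : ℕ) : ℚ)) / (W : ℚ)⌋ : ℤ) : ℚ) - (⌊((Y : ℚ) - ((1 : ℕ) : ℚ)) / (W : ℚ)⌋ : ℤ) ≤
      (((Iv Y).filter fun y => y ≡ 1 [MOD W]).card : ℚ) := by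
    have h2 : (⌊(((2 * Y : ℕ) : ℚ) - ((1 : ℕ) : ℚ)) / (W : ℚ)⌋ : ℤ) - ⌊((Y : ℚ) - ((1 : ℕ) : ℚ)) / (W : ℚ)⌋ ≤
        ((((Iv Y).filter fun y => y ≡ 1 [MOD W]).card : ℕ) : ℤ) := by
      unfold Iv
      rw [h]
      exact le_max_left _ _
    exact_mod_cast h2
  have h2 := Int.lt_floor_add_one ((((2 * Y : ℕ) : ℚ) - ((1 : ℕ) : ℚ)) / (W : ℚ))
  have h3 := Int.floor_le (((Y : ℚ) - ((1 : ℕ) : ℚ)) / (W : ℚ))
  have h4 : (Y : ℚ) / W - 1 ≤ (((Iv Y).filter fun y => y ≡ 1 [MOD W]).card : ℚ) := by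
    have h5 : (((2 * Y : ℕ) : ℚ) - ((1 : ℕ) : ℚ)) / (W : ℚ) - ((Y : ℚ) - ((1 : ℕ) : ℚ)) / (W : ℚ) = (Y : ℚ) / W := by
      push_cast
      ring
    linarith
  have h6 := (Rat.cast_le (K := ℝ)).2 h4
  push_cast at h6
  exact h6

theorem t_NIC (hA : S_APC) (hS : S_SQA) : S_NIC := by
  classical
  intro W hW
  refine ⟨(420 * W) ^ 2, fun Y hY => ?_⟩
  have hW0 := hW.1
  have hWr : (1 : ℝ) ≤ W := by exact_mod_cast hW0
  have hY0 : 0 < Y := lt_of_lt_of_le (by positivity) hY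
  have hYr : (0 : ℝ) < Y := by exact_mod_cast hY0
  set A : Finset ℕ := (Iv Y).filter fun y => y ≡ 1 [MOD W] with hAdef
  have hAsub : A ⊆ Iv Y := Finset.filter_subset _ _
  have hA1 : ∀ y ∈ A, y ≡ 1 [MOD W] := fun y hy => (Finset.mem_filter.1 hy).2
  have hAb : ∀ y ∈ A, Y < y ∧ y ≤ 2 * Y := fun y hy => Finset.mem_Ioc.1 (hAsub hy)
  -- numbers with a square factor
  have hB1 : ((A.filter fun y => ¬ Squarefree y).card : ℝ) ≤ (Y : ℝ) / (1000 * W) + Nat.sqrt (2 * Y) := by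
    refine hS Y W (Nat.sqrt (2 * Y)) A (fun l y => l ^ 2 ∣ y) hW0 hAsub ?_ ?_ _ (Finset.filter_subset _ _) ?_
    · intro l hl hl2 y hy h
      have := (nd hW (hA1 y hy) hl ((dvd_pow_self l two_ne_zero).trans h)).2
      omega
    · intro l hl hl2 y hy z hz hy2 hz2
      have h1 := (nd hW (hA1 y hy) hl ((dvd_pow_self l two_ne_zero).trans hy2)).1
      have h2 : Nat.Coprime W (l ^ 2) := Nat.Coprime.pow_right 2 ((Nat.Prime.coprime_iff_not_dvd hl).2 h1).symm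
      rw [← Nat.modEq_and_modEq_iff_modEq_mul h2]
      exact ⟨(hA1 y hy).trans (hA1 z hz).symm,
        (Nat.modEq_zero_iff_dvd.2 hy2).trans (Nat.modEq_zero_iff_dvd.2 hz2).symm⟩
    · intro y hy
      obtain ⟨hyA, hsq⟩ := Finset.mem_filter.1 hy
      rw [Nat.squarefree_iff_prime_squarefree] at hsq
      push Not at hsq
      obtain ⟨l, hl, hll⟩ := hsq
      rw [← sq] at hll
      refine ⟨l, hl, ?_, hll⟩
      rw [Nat.le_sqrt']
      have h1 := hAb y hyA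
      exact (Nat.le_of_dvd (by omega) hll).trans h1.2
  -- numbers with a large sum of reciprocals
  set P : Finset ℕ := (Finset.Ioc 1000 (2 * Y)).filter Nat.Prime with hP
  have hcnt : ∀ l ∈ P, ((A.filter fun y => l ∣ y).card : ℝ) ≤ (Y : ℝ) / (W * l) + 1 := by
    intro l hl
    obtain ⟨hl1, hl2⟩ := Finset.mem_filter.1 hl
    by_cases hlW : l ∣ W
    · have : A.filter (fun y => l ∣ y) = ∅ := by
        rw [Finset.filter_eq_empty_iff]
        intro y hy h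
        exact (nd hW (hA1 y hy) hl2 h).1 hlW
      rw [this, Finset.card_empty, Nat.cast_zero]
      positivity
    · have h1 := hA Y (W * l) (A.filter fun y => l ∣ y) (Nat.mul_pos hW0 hl2.pos)
        ((Finset.filter_subset _ _).trans hAsub) (fun y hy z hz => by
          obtain ⟨hy1, hy2⟩ := Finset.mem_filter.1 hy
          obtain ⟨hz1, hz2⟩ := Finset.mem_filter.1 hz
          rw [← Nat.modEq_and_modEq_iff_modEq_mul ((Nat.Prime.coprime_iff_not_dvd hl2).2 hlW).symm]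
          exact ⟨(hA1 y hy1).trans (hA1 z hz1).symm,
            (Nat.modEq_zero_iff_dvd.2 hy2).trans (Nat.modEq_zero_iff_dvd.2 hz2).symm⟩)
      push_cast at h1
      exact h1
  have hsig : ∀ y ∈ A, sig y ≤ ∑ l ∈ P, if l ∣ y then 1 / (l : ℝ) else 0 := by
    intro y hy
    unfold sig
    rw [← Finset.sum_filter]
    refine Finset.sum_le_sum_of_subset_of_nonneg (fun l hl => ?_) fun l _ _ => by positivity
    have hl1 := Nat.prime_of_mem_primeFactors hl
    have hl2 := Nat.dvd_of_mem_primeFactors hl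
    have h1 := hAb y hy
    refine Finset.mem_filter.2 ⟨Finset.mem_filter.2 ⟨Finset.mem_Ioc.2 ⟨(nd hW (hA1 y hy) hl1 hl2).2, ?_⟩, hl1⟩, hl2⟩
    exact (Nat.le_of_dvd (by omega) hl2).trans h1.2
  have hsum1 : ∑ l ∈ P, 1 / (l : ℝ) ^ 2 ≤ 1 / 1000 := by
    calc ∑ l ∈ P, 1 / (l : ℝ) ^ 2 ≤ ∑ l ∈ Finset.Ioc 1000 (2 * Y), 1 / (l : ℝ) ^ 2 :=
          Finset.sum_le_sum_of_subset_of_nonneg (Finset.filter_subset _ _) fun l _ _ => by positivity
      _ = ∑ l ∈ Finset.Ioc 1000 (2 * Y), ((l : ℝ) ^ 2)⁻¹ := Finset.sum_congr rfl fun l _ => one_div _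
      _ ≤ 1 / 1000 := by
          rcases le_total 1000 (2 * Y) with h | h
          · have := sum_Ioc_inv_sq_le_sub (α := ℝ) (by norm_num : (1000 : ℕ) ≠ 0) h
            have h2 : (0 : ℝ) ≤ (((2 * Y : ℕ) : ℝ))⁻¹ := by positivity
            have h3 : (((1000 : ℕ) : ℝ))⁻¹ = 1 / 1000 := by norm_num
            rw [h3] at this
            linarith
          · rw [Finset.Ioc_eq_empty_of_le h, Finset.sum_empty]
            norm_num
  have hsum2 : ∑ l ∈ P, 1 / (l : ℝ) ≤ 1 + Real.log (2 * Y) := by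
    calc ∑ l ∈ P, 1 / (l : ℝ) ≤ ∑ l ∈ Finset.Icc 1 (2 * Y), 1 / (l : ℝ) := by
          refine Finset.sum_le_sum_of_subset_of_nonneg (fun l hl => ?_) fun l _ _ => by positivity
          have h1 := Finset.mem_Ioc.1 (Finset.mem_filter.1 hl).1
          exact Finset.mem_Icc.2 ⟨by omega, h1.2⟩
      _ = ((harmonic (2 * Y) : ℚ) : ℝ) := by
          rw [harmonic_eq_sum_Icc]
          push_cast
          exact Finset.sum_congr rfl fun l _ => one_div _
      _ ≤ 1 + Real.log ((2 * Y : ℕ) : ℝ) := harmonic_le_one_add_log _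
      _ = _ := by push_cast; rfl
  have hB2 : ((A.filter fun y => ¬ sig y ≤ 1 / 32).card : ℝ) ≤
      32 * ((Y : ℝ) / W * (1 / 1000) + (1 + Real.log (2 * Y))) := by
    have hs0 : ∀ y, 0 ≤ sig y := fun y => Finset.sum_nonneg fun l _ => by positivity
    have h1 : ((A.filter fun y => ¬ sig y ≤ 1 / 32).card : ℝ) * (1 / 32) ≤
        ∑ y ∈ A.filter (fun y => ¬ sig y ≤ 1 / 32), sig y := by
      rw [← nsmul_eq_mul]
      exact Finset.card_nsmul_le_sum _ _ _ fun y hy => (not_le.1 (Finset.mem_filter.1 hy).2).le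
    have h2 : ∑ y ∈ A.filter (fun y => ¬ sig y ≤ 1 / 32), sig y ≤ ∑ y ∈ A, sig y :=
      Finset.sum_le_sum_of_subset_of_nonneg (Finset.filter_subset _ _) fun y _ _ => hs0 y
    have h3 : ∑ y ∈ A, sig y ≤ (Y : ℝ) / W * (1 / 1000) + (1 + Real.log (2 * Y)) := by
      calc ∑ y ∈ A, sig y ≤ ∑ y ∈ A, ∑ l ∈ P, (if l ∣ y then 1 / (l : ℝ) else 0) := Finset.sum_le_sum hsig
        _ = ∑ l ∈ P, ∑ y ∈ A, (if l ∣ y then 1 / (l : ℝ) else 0) := Finset.sum_comm
        _ = ∑ l ∈ P, ((A.filter fun y => l ∣ y).card : ℝ) * (1 / (l : ℝ)) := by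
            refine Finset.sum_congr rfl fun l _ => ?_
            rw [← Finset.sum_filter, Finset.sum_const, nsmul_eq_mul]
        _ ≤ ∑ l ∈ P, ((Y : ℝ) / (W * l) + 1) * (1 / (l : ℝ)) :=
            Finset.sum_le_sum fun l hl => mul_le_mul_of_nonneg_right (hcnt l hl) (by positivity)
        _ = (Y : ℝ) / W * ∑ l ∈ P, 1 / (l : ℝ) ^ 2 + ∑ l ∈ P, 1 / (l : ℝ) := by
            rw [Finset.mul_sum, ← Finset.sum_add_distrib]
            refine Finset.sum_congr rfl fun l _ => ?_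
            rw [add_mul, one_mul, div_mul_div_comm, div_mul_div_comm, sq, mul_assoc]
        _ ≤ _ := add_le_add (mul_le_mul_of_nonneg_left hsum1 (by positivity)) hsum2
    linarith
  -- the total
  have hcov : A ⊆ Nice W Y ∪ ((A.filter fun y => ¬ Squarefree y) ∪ (A.filter fun y => ¬ sig y ≤ 1 / 32)) := by
    intro y hy
    by_cases h1 : Squarefree y
    · by_cases h2 : sig y ≤ 1 / 32
      · exact Finset.mem_union_left _ (Finset.mem_filter.2 ⟨hAsub hy, hA1 y hy, h1, h2⟩)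
      · exact Finset.mem_union_right _ (Finset.mem_union_right _ (Finset.mem_filter.2 ⟨hy, h2⟩))
    · exact Finset.mem_union_right _ (Finset.mem_union_left _ (Finset.mem_filter.2 ⟨hy, h1⟩))
  have hcard : (A.card : ℝ) ≤ (Nice W Y).card + (((A.filter fun y => ¬ Squarefree y).card : ℝ) +
      ((A.filter fun y => ¬ sig y ≤ 1 / 32).card : ℝ)) := by
    have h1 := (Finset.card_le_card hcov).trans ((Finset.card_union_le _ _).trans
      (Nat.add_le_add_left (Finset.card_union_le _ _) _))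
    exact_mod_cast h1
  have hsz := size (Y := Y) hW0
  rw [← hAdef] at hsz
  set S : ℝ := Real.sqrt (2 * Y) with hSdef
  have hS2 : S ^ 2 = 2 * Y := Real.sq_sqrt (by positivity)
  have hSL : (Nat.sqrt (2 * Y) : ℝ) ≤ S := by
    have := Real.nat_sqrt_le_real_sqrt (a := 2 * Y)
    push_cast at this
    exact this
  have hS0 : 420 * (W : ℝ) ≤ S := by
    rw [hSdef]
    refine Real.le_sqrt_of_sq_le ?_
    have : ((420 * W : ℕ) : ℝ) ^ 2 ≤ Y := by exact_mod_cast hY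
    push_cast at this
    linarith
  have hSpos : 0 < S := by linarith
  have hlog : Real.log (2 * Y) ≤ 2 * S := by
    rw [← hS2, Real.log_pow]
    have := Real.log_le_sub_one_of_pos hSpos
    push_cast
    linarith
  have hYW : 210 * S ≤ (Y : ℝ) / W := by
    rw [le_div_iff₀ (by linarith)]
    have h1 : 2 * (210 * S * W) ≤ S ^ 2 := by nlinarith
    linarith
  have e1 : (Y : ℝ) / (1000 * W) = (Y : ℝ) / W * (1 / 1000) := by
    rw [mul_comm (1000 : ℝ), ← div_div]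
    ring
  have e2 : (Y : ℝ) / (2 * W) = (Y : ℝ) / W * (1 / 2) := by
    rw [mul_comm (2 : ℝ), ← div_div]
    ring
  rw [e1] at hB1
  rw [e2]
  linarith

end Pool.Agent.T2h1.CG.NIC
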