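import Pool.Agent.T2h1.CG.Stm2

/-! Project CG, task SIZ: the sizes in a box. -/

set_option autoImplicit false

namespace Pool.Agent.T2h1.CG.SIZ

open Pool.Agent.T2h1.CG

theorem t_SIZ (hQ : S_SQF) : S_SIZ := by
  intro W a0 w0 hW ha hWw
  refine ⟨w0 + 1, ?_⟩
  intro m i1 i2 i3 i4 i5 p σ hm h1 h2 h3 h4 h5 hsum hp1 hp2 hσ t ht hB
  obtain ⟨x, u, r, v, w, s, q⟩ := t
  obtain ⟨hx, hu, hr, hv, hw, ⟨s1, hs1, hs⟩, hq⟩ := hB
  dsimp only at hx hu hr hv hw hs hq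
  rw [Iv, Finset.mem_Ioc, ← pow_succ'] at hx hu hr hv hw hs1
  rw [Finset.mem_Ioc, show (4 : ℕ) = 2 ^ 2 by norm_num, ← pow_add] at hq
  have hG : Good W a0 x u r v w s q := ht
  obtain ⟨-, -, -, hn⟩ := hQ W a0 x u r v w s q hW ha hG
  have two : (0 : ℕ) < 2 := by norm_num
  have hb : u ^ 2 * r * q ≤ 2 ^ (2 * i2 + i3 + p + 5) := by
    calc u ^ 2 * r * q ≤ (2 ^ (i2 + 1)) ^ 2 * 2 ^ (i3 + 1) * 2 ^ (2 + p) :=
          Nat.mul_le_mul (Nat.mul_le_mul (Nat.pow_le_pow_left hu.2 2) hr.2) hq.2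
      _ = 2 ^ (2 * i2 + i3 + p + 5) := by
          rw [← pow_mul, ← pow_add, ← pow_add]
          congr 1
          ring
  refine ⟨?_, ?_⟩
  · change nn x u r v w s q ≤ 2 ^ (6000 * m)
    have e1 : (u ^ 2 * r * q - s ^ 2 * x) * (u ^ 2 * r * q + s ^ 2 * x) ≤ (u ^ 2 * r * q) ^ 2 := by
      rw [mul_comm, ← Nat.sq_sub_sq]
      exact Nat.sub_le _ _
    have e2 : nn x u r v w s q * (v ^ 2 * w ^ 2) ≤ 2 ^ (14 + i1 + 4 * i2 + 3 * i3 + 3 * p) := by
      rw [hn, mul_assoc]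
      calc x * r * q * ((u ^ 2 * r * q - s ^ 2 * x) * (u ^ 2 * r * q + s ^ 2 * x))
          ≤ x * r * q * (u ^ 2 * r * q) ^ 2 := Nat.mul_le_mul_left _ e1
        _ ≤ 2 ^ (i1 + 1) * 2 ^ (i3 + 1) * 2 ^ (2 + p) * (2 ^ (2 * i2 + i3 + p + 5)) ^ 2 :=
            Nat.mul_le_mul (Nat.mul_le_mul (Nat.mul_le_mul hx.2 hr.2) hq.2) (Nat.pow_le_pow_left hb 2)
        _ = 2 ^ (14 + i1 + 4 * i2 + 3 * i3 + 3 * p) := by
            rw [← pow_mul, ← pow_add, ← pow_add, ← pow_add]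
            congr 1
            ring
    have e3 : 2 ^ (2 * i4 + 2 * i5) ≤ v ^ 2 * w ^ 2 := by
      rw [pow_add, mul_comm 2 i4, mul_comm 2 i5, pow_mul, pow_mul]
      exact Nat.mul_le_mul (Nat.pow_le_pow_left hv.1.le 2) (Nat.pow_le_pow_left hw.1.le 2)
    have e4 : nn x u r v w s q * 2 ^ (2 * i4 + 2 * i5) ≤ 2 ^ (6000 * m) * 2 ^ (2 * i4 + 2 * i5) := by
      refine (Nat.mul_le_mul_left _ e3).trans (e2.trans ?_)
      rw [← pow_add]
      exact Nat.pow_le_pow_right two (by omega)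
    exact Nat.le_of_mul_le_mul_right e4 (by positivity)
  · have hq1 : 2 ^ (1943 * m) < q := lt_of_le_of_lt (Nat.pow_le_pow_right two hp2) hq.1
    refine ⟨hx.2.trans (Nat.pow_le_pow_right two (by omega)), hu.2.trans (Nat.pow_le_pow_right two (by omega)),
      hr.2.trans (Nat.pow_le_pow_right two (by omega)), hv.2.trans (Nat.pow_le_pow_right two (by omega)),
      hw.2.trans (Nat.pow_le_pow_right two (by omega)), ?_,
      lt_of_le_of_lt (Nat.pow_le_pow_right two (by omega)) hq1, hq1.le, ?_, ?_⟩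
    · change s ≤ 2 ^ (1034 * m)
      rw [hs]
      calc W * s1 ≤ 2 ^ w0 * 2 ^ (σ + 1) := Nat.mul_le_mul hWw hs1.2
        _ = 2 ^ (w0 + (σ + 1)) := by rw [← pow_add]
        _ ≤ _ := Nat.pow_le_pow_right two (by omega)
    · change cc x u r v s q ≤ 2 ^ (130 * m) * 2 ^ (1943 * m)
      rw [← pow_add]
      unfold cc
      refine (Nat.div_le_self _ _).trans ((Nat.sub_le _ _).trans (hb.trans ?_))
      exact Nat.pow_le_pow_right two (by omega)
    · change dd x u r w s q ≤ 2 ^ (130 * m) * 2 ^ (1943 * m)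
      rw [← pow_add]
      unfold dd
      refine (Nat.div_le_self _ _).trans ?_
      have e1 := hG.lt
      calc u ^ 2 * r * q + s ^ 2 * x ≤ 2 * (u ^ 2 * r * q) := by omega
        _ ≤ 2 * 2 ^ (2 * i2 + i3 + p + 5) := Nat.mul_le_mul_left _ hb
        _ = 2 ^ (2 * i2 + i3 + p + 5 + 1) := (pow_succ' _ _).symm
        _ ≤ _ := Nat.pow_le_pow_right two (by omega)

end Pool.Agent.T2h1.CG.SIZ
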