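import Pool.Agent.T2h1.CG.Stm

/-!
# Task SQA
-/

set_option autoImplicit false

namespace Pool.Agent.T2h1.CG.SQA

open Finset Pool.Agent.T2h1.CG

/-- Elements of a progression with a property which forces a smaller progression. -/
theorem t_SQA (hA : S_APC) : S_SQA := by
  classical
  intro Y q L A B hq hAY hsm hB A' hA' hex
  obtain ⟨c, hc⟩ : ∃ c : ℕ, c = 1000 := ⟨_, rfl⟩
  have hsub : A' ⊆ ((Finset.Ioc c L).filter Nat.Prime).biUnion fun l => A.filter (B l) := by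
    intro y hy
    obtain ⟨l, hl, hlL, hBl⟩ := hex y hy
    have h1 : c < l := by
      by_contra h
      exact hsm l hl (by omega) y (hA' hy) hBl
    exact Finset.mem_biUnion.2 ⟨l, Finset.mem_filter.2 ⟨Finset.mem_Ioc.2 ⟨h1, hlL⟩, hl⟩,
      Finset.mem_filter.2 ⟨hA' hy, hBl⟩⟩
  have h1 : (A'.card : ℝ) ≤ ∑ l ∈ (Finset.Ioc c L).filter Nat.Prime,
      ((A.filter (B l)).card : ℝ) := by
    have := (Finset.card_le_card hsub).trans Finset.card_biUnion_le
    exact_mod_cast this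
  have h2 : ∀ l ∈ (Finset.Ioc c L).filter Nat.Prime, ((A.filter (B l)).card : ℝ) ≤
      (Y : ℝ) / q * ((l : ℝ) ^ 2)⁻¹ + 1 := by
    intro l hl
    rw [Finset.mem_filter, Finset.mem_Ioc] at hl
    have hl0 : 0 < l := hl.2.pos
    have h3 := hA Y (q * l ^ 2) (A.filter (B l)) (by positivity)
      ((Finset.filter_subset _ _).trans hAY) (fun y hy z hz => by
        rw [Finset.mem_filter] at hy hz
        exact hB l hl.2 (hc ▸ hl.1.1) y hy.1 z hz.1 hy.2 hz.2)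
    refine h3.trans (le_of_eq ?_)
    push_cast
    have : (l : ℝ) ≠ 0 := by exact_mod_cast hl0.ne'
    have : (q : ℝ) ≠ 0 := by exact_mod_cast hq.ne'
    field_simp
  refine h1.trans ((Finset.sum_le_sum h2).trans ?_)
  have h4 : ∑ l ∈ (Finset.Ioc c L).filter Nat.Prime, ((Y : ℝ) / q * ((l : ℝ) ^ 2)⁻¹ + 1) ≤
      ∑ l ∈ Finset.Ioc c L, ((Y : ℝ) / q * ((l : ℝ) ^ 2)⁻¹ + 1) :=
    Finset.sum_le_sum_of_subset_of_nonneg (Finset.filter_subset _ _) fun l _ _ => by positivity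
  refine h4.trans ?_
  rw [Finset.sum_add_distrib, ← Finset.mul_sum, Finset.sum_const, Nat.card_Ioc, nsmul_eq_mul,
    mul_one]
  have h5 : ∑ l ∈ Finset.Ioc c L, ((l : ℝ) ^ 2)⁻¹ ≤ 1 / 1000 := by
    rcases le_or_gt c L with h | h
    · have h6 := sum_Ioc_inv_sq_le_sub (α := ℝ) (k := c) (n := L) (by omega) h
      have h7 : (0 : ℝ) ≤ (L : ℝ)⁻¹ := by positivity
      have h8 : (c : ℝ)⁻¹ = 1 / 1000 := by
        rw [hc]
        norm_num
      linarith
    · rw [Finset.Ioc_eq_empty_of_le h.le, Finset.sum_empty]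
      norm_num
  have h6 : (Y : ℝ) / q * ∑ l ∈ Finset.Ioc c L, ((l : ℝ) ^ 2)⁻¹ ≤ (Y : ℝ) / q * (1 / 1000) :=
    mul_le_mul_of_nonneg_left h5 (by positivity)
  have h7 : (Y : ℝ) / q * (1 / 1000) = (Y : ℝ) / (1000 * q) := by
    have : (q : ℝ) ≠ 0 := by exact_mod_cast hq.ne'
    field_simp
  have h8 : ((L - c : ℕ) : ℝ) ≤ L := by exact_mod_cast Nat.sub_le _ _
  linarith

end Pool.Agent.T2h1.CG.SQA
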