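import Pool.Agent.T2h1.CG.Stm

set_option autoImplicit false

/-!
# The number of a good tuple
-/

namespace Pool.Agent.T2h1.CG.SQF

open Pool.Agent.T2h1.CG

section
variable {W a0 x u r v w s p : ℕ}

theorem cc_mul (h : Good W a0 x u r v w s p) :
    cc x u r v s p * v ^ 2 = u ^ 2 * r * p - s ^ 2 * x := Nat.div_mul_cancel h.dv

theorem dd_mul (h : Good W a0 x u r v w s p) :
    dd x u r w s p * w ^ 2 = u ^ 2 * r * p + s ^ 2 * x := Nat.div_mul_cancel h.dw

theorem ident (h : Good W a0 x u r v w s p) :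
    nn x u r v w s p * (v ^ 2 * w ^ 2) =
      x * r * p * (u ^ 2 * r * p - s ^ 2 * x) * (u ^ 2 * r * p + s ^ 2 * x) := by
  rw [← cc_mul h, ← dd_mul h, nn]
  ring

theorem pW (ha : Nat.Coprime a0 W) (h : Good W a0 x u r v w s p) : Nat.Coprime p W := by
  have h1 : Nat.gcd (x * p ^ 3) W = Nat.gcd a0 W := h.hx.gcd_eq
  have h2 : Nat.Coprime (x * p ^ 3) W := by rw [Nat.Coprime, h1]; exact ha
  exact Nat.Coprime.coprime_dvd_left (Dvd.dvd.mul_left (dvd_pow_self p (by norm_num)) x) h2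

/-- `b - a` and `b + a` are odd -/
theorem odds (hW : Wok W) (ha : Nat.Coprime a0 W) (h : Good W a0 x u r v w s p) :
    2 ∣ s ^ 2 * x ∧ ¬ 2 ∣ u ^ 2 * r * p := by
  have h2W : 2 ∣ W := hW.2 2 Nat.prime_two (by norm_num)
  have hs : 2 ∣ s := h2W.trans h.Ws
  refine ⟨Dvd.dvd.mul_right (hs.trans (dvd_pow_self s (by norm_num))) x, ?_⟩
  have hone : ∀ y : ℕ, y ≡ 1 [MOD W] → ¬ 2 ∣ y := by
    intro y hy h3
    have h4 : y ≡ 1 [MOD 2] := hy.of_dvd h2W
    have h5 : y % 2 = 1 % 2 := h4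
    omega
  intro h3
  rcases (Nat.prime_two.dvd_mul).1 h3 with h4 | h4
  · rcases (Nat.prime_two.dvd_mul).1 h4 with h5 | h5
    · exact hone u h.u1 (Nat.prime_two.dvd_of_dvd_pow h5)
    · exact hone r h.r1 h5
  · have := Nat.dvd_gcd h4 h2W
    rw [pW ha h] at this
    omega

theorem sqf (hW : Wok W) (ha : Nat.Coprime a0 W) (h : Good W a0 x u r v w s p) :
    Squarefree (nn x u r v w s p) := by
  have hc := cc_mul h
  have hd := dd_mul h
  have hlt := h.lt
  obtain ⟨o1, o2⟩ := odds hW ha h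
  have hcop := h.cop
  have hsqc := h.sqc
  have hsqd := h.sqd
  rw [nn]
  set c := cc x u r v s p with hcdef
  set d := dd x u r w s p with hddef
  set A := s ^ 2 * x with hA
  set B := u ^ 2 * r * p with hB
  have xA : x ∣ A := Dvd.intro_left _ rfl
  have rB : r ∣ B := by rw [hB]; exact Dvd.dvd.mul_right (Dvd.intro_left _ rfl) p
  have pB : p ∣ B := Dvd.intro_left _ rfl
  have cB : c ∣ B - A := Dvd.intro _ hc
  have dB : d ∣ B + A := Dvd.intro _ hd
  have hr0 : r ≠ 0 := h.sqr.ne_zero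
  have key : ∀ l : ℕ, l.Prime → l ∣ A → l ∣ B → False := by
    intro l hl h1 h2
    have := Nat.dvd_gcd h1 h2
    rw [hcop] at this
    exact hl.one_lt.ne' (Nat.dvd_one.1 this)
  have kc : ∀ l : ℕ, l ∣ c → (l ∣ A ↔ l ∣ B) := by
    intro l h1
    have h2 : l ∣ B - A := h1.trans cB
    constructor
    · intro h3
      have h4 : B = (B - A) + A := by omega
      rw [h4]; exact dvd_add h2 h3
    · intro h3
      have h4 : A = B - (B - A) := by omega
      rw [h4]; exact Nat.dvd_sub h3 h2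
  have kd : ∀ l : ℕ, l ∣ d → (l ∣ A ↔ l ∣ B) := by
    intro l h1
    have h2 : l ∣ B + A := h1.trans dB
    constructor
    · intro h3
      exact (Nat.dvd_add_left h3).1 h2
    · intro h3
      exact (Nat.dvd_add_right h3).1 h2
  have xr : Nat.Coprime x r := Nat.coprime_of_dvd fun l hl h1 h2 =>
    key l hl (h1.trans xA) (h2.trans rB)
  have xp : Nat.Coprime x p := Nat.coprime_of_dvd fun l hl h1 h2 =>
    key l hl (h1.trans xA) (h2.trans pB)
  have rp : Nat.Coprime r p := (Nat.coprime_of_lt_prime hr0 h.rp h.pr).symm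
  have xc : Nat.Coprime x c := Nat.coprime_of_dvd fun l hl h1 h2 =>
    key l hl (h1.trans xA) ((kc l h2).1 (h1.trans xA))
  have rc : Nat.Coprime r c := Nat.coprime_of_dvd fun l hl h1 h2 =>
    key l hl ((kc l h2).2 (h1.trans rB)) (h1.trans rB)
  have pc : Nat.Coprime p c := Nat.coprime_of_dvd fun l hl h1 h2 =>
    key l hl ((kc l h2).2 (h1.trans pB)) (h1.trans pB)
  have xd : Nat.Coprime x d := Nat.coprime_of_dvd fun l hl h1 h2 =>
    key l hl (h1.trans xA) ((kd l h2).1 (h1.trans xA))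
  have rd : Nat.Coprime r d := Nat.coprime_of_dvd fun l hl h1 h2 =>
    key l hl ((kd l h2).2 (h1.trans rB)) (h1.trans rB)
  have pd : Nat.Coprime p d := Nat.coprime_of_dvd fun l hl h1 h2 =>
    key l hl ((kd l h2).2 (h1.trans pB)) (h1.trans pB)
  have cd : Nat.Coprime c d := by
    refine Nat.coprime_of_dvd fun l hl h1 h2 => ?_
    have h3 : l ∣ B - A := h1.trans cB
    have h4 : l ∣ B + A := h2.trans dB
    have h5 : l ∣ 2 * B := by
      have : 2 * B = (B - A) + (B + A) := by omega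
      rw [this]; exact dvd_add h3 h4
    have h6 : ¬ l ∣ B := fun h7 => key l hl ((kc l h1).2 h7) h7
    have h7 : l ∣ 2 := ((hl.dvd_mul).1 h5).resolve_right h6
    have h8 : l = 2 := (Nat.prime_dvd_prime_iff_eq hl Nat.prime_two).1 h7
    subst h8
    exact o2 ((kc 2 h1).1 o1)
  have s1 : Squarefree (x * r) := (Nat.squarefree_mul xr).2 ⟨h.sqx, h.sqr⟩
  have s2 : Squarefree (x * r * p) :=
    (Nat.squarefree_mul (Nat.Coprime.mul_left xp rp)).2 ⟨s1, h.pr.squarefree⟩
  have s3 : Squarefree (x * r * p * c) :=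
    (Nat.squarefree_mul (Nat.Coprime.mul_left (Nat.Coprime.mul_left xc rc) pc)).2 ⟨s2, hsqc⟩
  exact (Nat.squarefree_mul (Nat.Coprime.mul_left
    (Nat.Coprime.mul_left (Nat.Coprime.mul_left xd rd) pd) cd)).2 ⟨s3, hsqd⟩

theorem modW (h : Good W a0 x u r v w s p) : nn x u r v w s p ≡ a0 [MOD W] := by
  have h1 := ident h
  have hu : (u : ZMod W) = 1 := by
    have := (ZMod.natCast_eq_natCast_iff _ _ _).2 h.u1; simpa using this
  have hr : (r : ZMod W) = 1 := by
    have := (ZMod.natCast_eq_natCast_iff _ _ _).2 h.r1; simpa using this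
  have hv : (v : ZMod W) = 1 := by
    have := (ZMod.natCast_eq_natCast_iff _ _ _).2 h.v1; simpa using this
  have hw : (w : ZMod W) = 1 := by
    have := (ZMod.natCast_eq_natCast_iff _ _ _).2 h.w1; simpa using this
  have hs : (s : ZMod W) = 0 := (ZMod.natCast_eq_zero_iff _ _).2 h.Ws
  have hx := (ZMod.natCast_eq_natCast_iff _ _ _).2 h.hx
  rw [← ZMod.natCast_eq_natCast_iff, ← hx]
  have h2 := congrArg (fun z : ℕ => (z : ZMod W)) h1
  simp only [Nat.cast_mul, Nat.cast_pow, Nat.cast_add, Nat.cast_sub h.lt.le, hu, hr, hv, hw,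
    hs] at h2
  rw [Nat.cast_mul, Nat.cast_pow]
  ring_nf at h2 ⊢
  exact h2

theorem congr (h : Good W a0 x u r v w s p) : IsCongruent (nn x u r v w s p) := by
  have h1 := ident h
  have hlt := h.lt
  have hx := h.x0
  have hu := h.u0
  have hs := h.s0
  have hv := h.v0
  have hw := h.w0
  have hp := h.pr.pos
  have hr : 0 < r := Nat.pos_of_ne_zero h.sqr.ne_zero
  have h2 : ((nn x u r v w s p : ℕ) : ℚ) * ((v : ℚ) ^ 2 * (w : ℚ) ^ 2) =
      x * r * p * ((u : ℚ) ^ 2 * r * p - (s : ℚ) ^ 2 * x) * ((u : ℚ) ^ 2 * r * p + (s : ℚ) ^ 2 * x) := by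
    have := congrArg (fun z : ℕ => (z : ℚ)) h1
    simp only [Nat.cast_mul, Nat.cast_pow, Nat.cast_add, Nat.cast_sub hlt.le] at this
    exact this
  have hltq : (s : ℚ) ^ 2 * x < (u : ℚ) ^ 2 * r * p := by exact_mod_cast hlt
  have hxq : (0 : ℚ) < x := by exact_mod_cast hx
  have huq : (0 : ℚ) < u := by exact_mod_cast hu
  have hsq : (0 : ℚ) < s := by exact_mod_cast hs
  have hvq : (0 : ℚ) < v := by exact_mod_cast hv
  have hwq : (0 : ℚ) < w := by exact_mod_cast hw
  have hpq : (0 : ℚ) < p := by exact_mod_cast hp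
  have hrq : (0 : ℚ) < r := by exact_mod_cast hr
  set A : ℚ := (s : ℚ) ^ 2 * x with hA
  set B : ℚ := (u : ℚ) ^ 2 * r * p with hB
  have hA0 : 0 < A := by positivity
  have hB0 : 0 < B := by positivity
  have ht : (0 : ℚ) < s * u * v * w := by positivity
  refine ⟨(B - A) * (B + A) / (s * u * v * w), 2 * A * B / (s * u * v * w),
    (A ^ 2 + B ^ 2) / (s * u * v * w), ?_, by positivity, by positivity, ?_, ?_⟩
  · have : 0 < B - A := by linarith
    positivity
  · field_simp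
    ring
  · have h3 : ((nn x u r v w s p : ℕ) : ℚ) * (s * u * v * w) ^ 2 = A * B * ((B - A) * (B + A)) := by
      calc ((nn x u r v w s p : ℕ) : ℚ) * (s * u * v * w) ^ 2
          = (((nn x u r v w s p : ℕ) : ℚ) * ((v : ℚ) ^ 2 * (w : ℚ) ^ 2)) * (s ^ 2 * u ^ 2) := by ring
        _ = _ := by rw [h2, hA, hB]; ring
    have h4 : (s * u * v * w : ℚ) ≠ 0 := ht.ne'
    rw [eq_div_iff (by norm_num), ← sub_eq_zero]
    have h5 : (nn x u r v w s p : ℚ) = A * B * ((B - A) * (B + A)) / (s * u * v * w) ^ 2 := by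
      rw [eq_div_iff (pow_ne_zero 2 h4)]; exact h3
    rw [h5]
    field_simp
    ring

end

theorem t_SQF : S_SQF := fun _ _ _ _ _ _ _ _ _ hW ha h =>
  ⟨sqf hW ha h, modW h, congr h, ident h⟩

end Pool.Agent.T2h1.CG.SQF
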