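import Pool.Agent.T2h1.CG.Stm2

/-! Project CG, task WAC: the modulus `W` and the class `a0`. -/

set_option autoImplicit false

namespace Pool.Agent.T2h1.CG.WAC

open Pool.Agent.T2h1.CG

theorem t_WAC : S_WAC := by
  intro M a hM ha
  obtain ⟨F, hF0, hF⟩ : ∃ F : ℕ, 0 < F ∧ ∀ l : ℕ, l.Prime → l ≤ 1000 → l ∣ F :=
    ⟨Nat.factorial 1000, Nat.factorial_pos _, fun l hl h => Nat.dvd_factorial hl.pos h⟩
  have hW : 0 < 2 * M * F := by positivity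
  have hMW : M ∣ 2 * M * F := ⟨2 * F, by ring⟩
  haveI : NeZero (2 * M * F) := ⟨hW.ne'⟩
  obtain ⟨v, hv⟩ := ZMod.unitsMap_surjective hMW (ZMod.unitOfCoprime a ha)
  refine ⟨2 * M * F, (v : ZMod (2 * M * F)).val, ⟨hW, fun l hl h => (hF l hl h).mul_left _⟩,
    ZMod.val_coe_unit_coprime v, ⟨M * F, by ring⟩, hMW, ?_⟩
  rw [← ZMod.natCast_eq_natCast_iff]
  have h1 : ((ZMod.unitsMap hMW v : (ZMod M)ˣ) : ZMod M) = (a : ZMod M) := by
    rw [hv, ZMod.coe_unitOfCoprime]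
  rw [← h1, ZMod.unitsMap_val, ZMod.natCast_val]

end Pool.Agent.T2h1.CG.WAC
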