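import Pool.Agent.T2h1.CG.Stm

/-! # Project CG, task XCT: the number of the `x` -/

set_option autoImplicit false

namespace Pool.Agent.T2h1.CG.XCT

open Pool.Agent.T2h1.CG Finset

/-- lower bound for the number of elements of a residue class -/
theorem card_class (D N ξ : ℕ) (hN : 0 < N) :
    (D : ℝ) / N - 1 ≤ (((Iv D).filter (fun x => x ≡ ξ [MOD N])).card : ℝ) := by
  have h := Nat.Ioc_filter_modEq_card D (2 * D) hN ξ
  have hNq : (0 : ℚ) < N := by exact_mod_cast hN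
  have h1 : (((((Iv D).filter (fun x => x ≡ ξ [MOD N])).card : ℕ) : ℤ) : ℚ) ≥ (D : ℚ) / N - 1 := by
    unfold Iv
    rw [h]
    have h2 : (⌊(((2 * D : ℕ) : ℚ) - ξ) / (N : ℚ)⌋ : ℚ) > (((2 * D : ℕ) : ℚ) - ξ) / (N : ℚ) - 1 :=
      Int.sub_one_lt_floor _
    have h3 : (⌊((D : ℚ) - ξ) / (N : ℚ)⌋ : ℚ) ≤ ((D : ℚ) - ξ) / (N : ℚ) := Int.floor_le _
    have h4 : (((max (⌊(((2 * D : ℕ) : ℚ) - ξ) / (N : ℚ)⌋ - ⌊((D : ℚ) - ξ) / (N : ℚ)⌋) 0 : ℤ)) : ℚ) ≥
        ((⌊(((2 * D : ℕ) : ℚ) - ξ) / (N : ℚ)⌋ - ⌊((D : ℚ) - ξ) / (N : ℚ)⌋ : ℤ) : ℚ) := by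
      exact_mod_cast le_max_left _ _
    refine le_trans ?_ h4
    push_cast at h2 ⊢
    have h5 : (2 * (D : ℚ) - ξ) / N = ((D : ℚ) - ξ) / N + D / N := by
      rw [← add_div]
      congr 1
      ring
    rw [h5] at h2 ⊢
    linarith
  have h6 : (D : ℚ) / N - 1 ≤ ((((Iv D).filter (fun x => x ≡ ξ [MOD N])).card : ℕ) : ℚ) := by
    exact_mod_cast h1
  have h7 := (Rat.cast_le (K := ℝ)).2 h6
  push_cast at h7
  exact h7

/-- linear congruences -/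
theorem solve (k m t : ℕ) (h : Nat.Coprime k m) : ∃ ξ : ℕ, k * ξ ≡ t [MOD m] := by
  obtain ⟨x, hx0, hxt⟩ := Nat.chineseRemainder h 0 t
  obtain ⟨ξ, rfl⟩ := (Nat.modEq_zero_iff_dvd).1 hx0
  exact ⟨ξ, hxt⟩

theorem cop_of_one {u W : ℕ} (h : u ≡ 1 [MOD W]) : Nat.Coprime u W := by
  exact h.gcd_eq.trans (Nat.gcd_one_left W)

section

variable {W u r s p : ℕ}

theorem not_dvd_B (hu : Nat.Coprime u W) (hr : Nat.Coprime r W) (hp : Nat.Coprime p W) {l : ℕ}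
    (hl : l.Prime) (hlW : l ∣ W) : ¬ l ∣ u ^ 2 * r * p := by
  intro h
  have key : ∀ y, Nat.Coprime y W → ¬ l ∣ y := fun y hy h' => by
    have := Nat.dvd_gcd h' hlW
    rw [hy] at this
    exact hl.one_lt.ne' (Nat.dvd_one.1 this)
  rcases (hl.dvd_mul).1 h with h1 | h1
  · rcases (hl.dvd_mul).1 h1 with h2 | h2
    · exact key u hu (hl.dvd_of_dvd_pow h2)
    · exact key r hr h2
  · exact key p hp h1

theorem not_both {a b l : ℕ} (h : Nat.Coprime a b) (hl : l.Prime) (ha : l ∣ a) (hb : l ∣ b) :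
    False := by
  have := Nat.dvd_gcd ha hb
  rw [h] at this
  exact hl.one_lt.ne' (Nat.dvd_one.1 this)

open Classical in
/-- the squares of the primes dividing `(B + e s² x) / α²` -/
theorem sq_part (hS : S_SQA) (hW : Wok W) (hu : Nat.Coprime u W) (hr : Nat.Coprime r W)
    (hp : Nat.Coprime p W) (hWs : W ∣ s) (hsu : Nat.Coprime s (u * r * p))
    {α β D N L1 : ℕ} {e : ℤ} (he : e * e = 1) (hα0 : 0 < α) (hβ0 : 0 < β)
    (hαs : Nat.Coprime α s) (hβB : Nat.Coprime β (u * r * p))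
    (hαβ : Nat.Coprime α β) (hαW : Nat.Coprime α W)
    (hN : N = W * α ^ 2 * β ^ 2) {A : Finset ℕ} (hA : A ⊆ Iv D)
    (hAA : ∀ y ∈ A, ∀ z ∈ A, y ≡ z [MOD N]) (c : ℕ → ℕ)
    (hc : ∀ x ∈ A, (c x : ℤ) * (α : ℤ) ^ 2 = ((u ^ 2 * r * p : ℕ) : ℤ) + e * ((s : ℤ) ^ 2 * x))
    (hβ : ∀ x ∈ A, (β : ℤ) ^ 2 ∣ ((u ^ 2 * r * p : ℕ) : ℤ) - e * ((s : ℤ) ^ 2 * x)) :
    ((A.filter (fun x => ∃ l : ℕ, l.Prime ∧ l ≤ L1 ∧ l ^ 2 ∣ c x)).card : ℝ) ≤
      (D : ℝ) / (1000 * N) + L1 := by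
  have hW0 : 0 < W := hW.1
  have hN0 : 0 < N := by rw [hN]; positivity
  have hBurp : ∀ l : ℕ, l.Prime → l ∣ u ^ 2 * r * p → l ∣ u * r * p := by
    intro l hl h5
    rcases (hl.dvd_mul).1 h5 with h7 | h7
    · rcases (hl.dvd_mul).1 h7 with h8 | h8
      · exact Dvd.dvd.mul_right (Dvd.dvd.mul_right (hl.dvd_of_dvd_pow h8) _) _
      · exact Dvd.dvd.mul_right (Dvd.dvd.mul_left h8 _) _
    · exact Dvd.dvd.mul_left h7 _
  -- a common prime divisor of `c x` and `s` divides `B`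
  have hB : ∀ x ∈ A, ∀ l : ℕ, l.Prime → l ^ 2 ∣ c x → l ∣ s → l ∣ u ^ 2 * r * p := by
    intro x hx l hl h hls
    have h1 : (l : ℤ) ∣ (c x : ℤ) := by
      exact_mod_cast (dvd_trans (dvd_pow_self l two_ne_zero) h)
    have h2 : (l : ℤ) ∣ (s : ℤ) := by exact_mod_cast hls
    have h3 : (l : ℤ) ∣ ((u ^ 2 * r * p : ℕ) : ℤ) := by
      have h4 : ((u ^ 2 * r * p : ℕ) : ℤ) = (c x : ℤ) * (α : ℤ) ^ 2 - e * ((s : ℤ) ^ 2 * x) := by
        rw [hc x hx]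
        ring
      rw [h4]
      refine dvd_sub (Dvd.dvd.mul_right h1 _) (Dvd.dvd.mul_left (Dvd.dvd.mul_right ?_ _) _)
      exact h2.trans (dvd_pow_self _ two_ne_zero)
    exact_mod_cast h3
  have hWc : ∀ x ∈ A, ∀ l : ℕ, l.Prime → l ∣ W → ¬ l ^ 2 ∣ c x := fun x hx l hl hlW h =>
    not_dvd_B hu hr hp hl hlW (hB x hx l hl h (hlW.trans hWs))
  refine hS D N L1 A (fun l x => l ^ 2 ∣ c x) hN0 hA ?_ ?_ _ (filter_subset _ _) ?_
  · intro l hl hl1 y hy h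
    exact hWc y hy l hl (hW.2 l hl hl1) h
  · intro l hl hl1 y hy z hz hBy hBz
    have hlW : Nat.Coprime l W := (Nat.Prime.coprime_iff_not_dvd hl).2 fun h =>
      hWc y hy l hl h hBy
    have hls : Nat.Coprime l s := (Nat.Prime.coprime_iff_not_dvd hl).2 fun h =>
      not_both hsu hl h (hBurp l hl (hB y hy l hl hBy h))
    have hlβ : Nat.Coprime l β := by
      refine (Nat.Prime.coprime_iff_not_dvd hl).2 fun h => ?_
      have h1 : (l : ℤ) ∣ (c y : ℤ) := by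
        exact_mod_cast (dvd_trans (dvd_pow_self l two_ne_zero) hBy)
      have h2 : (l : ℤ) ∣ (β : ℤ) ^ 2 := by
        exact_mod_cast (h.trans (dvd_pow_self β two_ne_zero))
      have h3 : (l : ℤ) ∣ 2 * ((u ^ 2 * r * p : ℕ) : ℤ) := by
        have h4 : 2 * ((u ^ 2 * r * p : ℕ) : ℤ) = (c y : ℤ) * (α : ℤ) ^ 2 +
            (((u ^ 2 * r * p : ℕ) : ℤ) - e * ((s : ℤ) ^ 2 * y)) := by
          rw [hc y hy]
          ring
        rw [h4]
        exact dvd_add (Dvd.dvd.mul_right h1 _) (h2.trans (hβ y hy))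
      have h5 : l ∣ 2 * (u ^ 2 * r * p) := by exact_mod_cast h3
      rcases (hl.dvd_mul).1 h5 with h6 | h6
      · have := Nat.le_of_dvd two_pos h6
        omega
      · exact not_both hβB hl h (hBurp l hl h6)
    have hyz : ((N : ℕ) : ℤ) ∣ (z : ℤ) - y := Nat.modEq_iff_dvd.1 (hAA y hy z hz)
    have m1 : ((W : ℤ) * (β : ℤ) ^ 2) ∣ (z : ℤ) - y := by
      refine dvd_trans ⟨(α : ℤ) ^ 2, ?_⟩ hyz
      rw [hN]
      push_cast
      ring
    have m2 : ((α : ℤ) ^ 2 * (l : ℤ) ^ 2) ∣ (z : ℤ) - y := by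
      have h1 : ((α : ℤ) ^ 2 * (l : ℤ) ^ 2) ∣ (s : ℤ) ^ 2 * ((z : ℤ) - y) := by
        obtain ⟨k1, hk1⟩ := hBy
        obtain ⟨k2, hk2⟩ := hBz
        have e1 := hc y hy
        have e2 := hc z hz
        rw [hk1] at e1
        rw [hk2] at e2
        push_cast at e1 e2
        refine ⟨e * ((k2 : ℤ) - k1), ?_⟩
        linear_combination (-(s : ℤ) ^ 2 * ((z : ℤ) - y)) * he - e * e2 + e * e1
      refine IsCoprime.dvd_of_dvd_mul_left ?_ h1
      exact IsCoprime.mul_left (IsCoprime.pow (Nat.isCoprime_iff_coprime.2 hαs))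
        (IsCoprime.pow (Nat.isCoprime_iff_coprime.2 hls))
    have hcop : IsCoprime ((W : ℤ) * (β : ℤ) ^ 2) ((α : ℤ) ^ 2 * (l : ℤ) ^ 2) := by
      refine IsCoprime.mul_left (IsCoprime.mul_right ?_ ?_) (IsCoprime.mul_right ?_ ?_)
      · exact (Nat.isCoprime_iff_coprime.2 hαW.symm).pow_right
      · exact (Nat.isCoprime_iff_coprime.2 hlW.symm).pow_right
      · exact (Nat.isCoprime_iff_coprime.2 hαβ.symm).pow
      · exact (Nat.isCoprime_iff_coprime.2 hlβ.symm).pow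
    rw [Nat.modEq_iff_dvd]
    have h9 := hcop.mul_dvd m1 m2
    refine dvd_trans (dvd_of_eq ?_) h9
    rw [hN]
    push_cast
    ring
  · intro y hy
    exact (mem_filter.1 hy).2

end

open Classical in
theorem t_XCT (hA : S_APC) (hC : S_COP) (hS : S_SQA) : S_XCT := by
  intro W a0 L1 D u r v w s p hW ha0 hcop hlt hDp hbig
  have hW0 : 0 < W := hW.1
  have huW := cop_of_one hcop.u1
  have hrW := cop_of_one hcop.r1
  have hvW := cop_of_one hcop.v1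
  have hwW := cop_of_one hcop.w1
  have hv0 := hcop.v0
  have hw0 := hcop.w0
  -- consequences of the coprimality conditions
  have hvs : Nat.Coprime v s := Nat.Coprime.coprime_dvd_right ⟨u * r * p, by ring⟩ hcop.vs
  have hws : Nat.Coprime w s := Nat.Coprime.coprime_dvd_right ⟨u * r * p, by ring⟩ hcop.ws
  have hvB : Nat.Coprime v (u * r * p) :=
    Nat.Coprime.coprime_dvd_right ⟨s, by ring⟩ hcop.vs
  have hwB : Nat.Coprime w (u * r * p) :=
    Nat.Coprime.coprime_dvd_right ⟨s, by ring⟩ hcop.ws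
  obtain ⟨N, hN⟩ : ∃ N, N = W * v ^ 2 * w ^ 2 := ⟨_, rfl⟩
  have hN0 : 0 < N := by rw [hN]; positivity
  obtain ⟨B, hBdef⟩ : ∃ B, B = u ^ 2 * r * p := ⟨_, rfl⟩
  -- the residue class
  obtain ⟨ξ, hξ1, hξ2, hξ3⟩ : ∃ ξ : ℕ, p ^ 3 * ξ ≡ a0 [MOD W] ∧ s ^ 2 * ξ ≡ B [MOD v ^ 2] ∧
      s ^ 2 * ξ ≡ (w ^ 2 - 1) * B [MOD w ^ 2] := by
    obtain ⟨ξ1, h1⟩ := solve (p ^ 3) W a0 (hcop.pW.pow_left 3)
    obtain ⟨ξ2, h2⟩ := solve (s ^ 2) (v ^ 2) B (hvs.symm.pow 2 2)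
    obtain ⟨ξ3, h3⟩ := solve (s ^ 2) (w ^ 2) ((w ^ 2 - 1) * B) (hws.symm.pow 2 2)
    have c1 : Nat.Coprime W (v ^ 2) := hvW.symm.pow_right 2
    obtain ⟨ξ4, h4, h5⟩ := Nat.chineseRemainder c1 ξ1 ξ2
    have c2 : Nat.Coprime (W * v ^ 2) (w ^ 2) :=
      Nat.Coprime.mul_left (hwW.symm.pow_right 2) (hcop.vw.pow 2 2)
    obtain ⟨ξ, h6, h7⟩ := Nat.chineseRemainder c2 ξ4 ξ3
    refine ⟨ξ, ?_, ?_, ?_⟩
    · exact ((h6.of_mul_right _).trans h4).mul_left (p ^ 3) |>.trans h1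
    · exact ((h6.of_mul_left _).trans h5).mul_left (s ^ 2) |>.trans h2
    · exact (h7.mul_left (s ^ 2)).trans h3
  obtain ⟨A, hAdef⟩ : ∃ A : Finset ℕ, A = (Iv D).filter (fun x => x ≡ ξ [MOD N]) := ⟨_, rfl⟩
  have hAsub : A ⊆ Iv D := by rw [hAdef]; exact filter_subset _ _
  have hAcard : (D : ℝ) / N - 1 ≤ (A.card : ℝ) := by
    rw [hAdef]
    exact card_class D N ξ hN0
  have hAξ : ∀ x ∈ A, x ≡ ξ [MOD N] := fun x hx => by
    rw [hAdef] at hx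
    exact (mem_filter.1 hx).2
  have hAA : ∀ y ∈ A, ∀ z ∈ A, y ≡ z [MOD N] := fun y hy z hz =>
    (hAξ y hy).trans (hAξ z hz).symm
  have hAI : ∀ x ∈ A, D < x ∧ x ≤ 2 * D := fun x hx => Finset.mem_Ioc.1 (hAsub hx)
  have hA1 : ∀ x ∈ A, x * p ^ 3 ≡ a0 [MOD W] := by
    intro x hx
    have h1 : x ≡ ξ [MOD W] := by
      refine (hAξ x hx).of_dvd ?_
      rw [hN]
      exact Dvd.dvd.mul_right (Dvd.intro _ rfl) _
    rw [mul_comm]
    exact (h1.mul_left _).trans hξ1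
  have hA2 : ∀ x ∈ A, (v : ℤ) ^ 2 ∣ (B : ℤ) - (s : ℤ) ^ 2 * x := by
    intro x hx
    have h1 : x ≡ ξ [MOD v ^ 2] := by
      refine (hAξ x hx).of_dvd ?_
      rw [hN]
      exact Dvd.dvd.mul_right (Dvd.intro_left _ rfl) _
    have h2 := Nat.modEq_iff_dvd.1 ((h1.mul_left (s ^ 2)).trans hξ2)
    push_cast at h2
    exact h2
  have hA3 : ∀ x ∈ A, (w : ℤ) ^ 2 ∣ (B : ℤ) + (s : ℤ) ^ 2 * x := by
    intro x hx
    have h1 : x ≡ ξ [MOD w ^ 2] := by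
      refine (hAξ x hx).of_dvd ?_
      rw [hN]
      exact Dvd.intro_left _ rfl
    have h2 := Nat.modEq_iff_dvd.1 ((h1.mul_left (s ^ 2)).trans hξ3)
    have h3 : 1 ≤ w ^ 2 := Nat.one_le_pow _ _ hw0
    rw [Nat.cast_mul, Nat.cast_sub h3] at h2
    push_cast at h2
    have h4 : (B : ℤ) + (s : ℤ) ^ 2 * x = (w : ℤ) ^ 2 * B - (((w : ℤ) ^ 2 - 1) * B - (s : ℤ) ^ 2 * x) := by
      ring
    rw [h4]
    exact dvd_sub (Dvd.intro _ rfl) h2
  have hlt' : ∀ x ∈ A, s ^ 2 * x < B := by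
    intro x hx
    rw [hBdef]
    exact lt_of_le_of_lt (Nat.mul_le_mul_left _ (hAI x hx).2) hlt
  -- divisibility for natural numbers
  have hdv : ∀ x ∈ A, v ^ 2 ∣ u ^ 2 * r * p - s ^ 2 * x := by
    intro x hx
    have h1 := hlt' x hx
    have h2 := hA2 x hx
    rw [hBdef] at h1 h2
    have h3 : (((v ^ 2 : ℕ)) : ℤ) ∣ ((u ^ 2 * r * p - s ^ 2 * x : ℕ) : ℤ) := by
      rw [Nat.cast_sub h1.le]
      push_cast
      push_cast at h2
      exact h2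
    exact_mod_cast h3
  have hdw : ∀ x ∈ A, w ^ 2 ∣ u ^ 2 * r * p + s ^ 2 * x := by
    intro x hx
    have h2 := hA3 x hx
    rw [hBdef] at h2
    have h3 : (((w ^ 2 : ℕ)) : ℤ) ∣ ((u ^ 2 * r * p + s ^ 2 * x : ℕ) : ℤ) := by
      push_cast
      push_cast at h2
      exact h2
    exact_mod_cast h3
  have hccx : ∀ x ∈ A, (cc x u r v s p : ℤ) * (v : ℤ) ^ 2 =
      ((u ^ 2 * r * p : ℕ) : ℤ) + (-1) * ((s : ℤ) ^ 2 * x) := by
    intro x hx
    have h1 : cc x u r v s p * v ^ 2 = u ^ 2 * r * p - s ^ 2 * x := Nat.div_mul_cancel (hdv x hx)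
    have h2 := hlt' x hx
    rw [hBdef] at h2
    have h3 : ((cc x u r v s p * v ^ 2 : ℕ) : ℤ) = ((u ^ 2 * r * p - s ^ 2 * x : ℕ) : ℤ) := by
      rw [h1]
    rw [Nat.cast_sub h2.le] at h3
    push_cast at h3 ⊢
    linear_combination h3
  have hddx : ∀ x ∈ A, (dd x u r w s p : ℤ) * (w : ℤ) ^ 2 =
      ((u ^ 2 * r * p : ℕ) : ℤ) + 1 * ((s : ℤ) ^ 2 * x) := by
    intro x hx
    have h1 : dd x u r w s p * w ^ 2 = u ^ 2 * r * p + s ^ 2 * x := Nat.div_mul_cancel (hdw x hx)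
    have h3 : ((dd x u r w s p * w ^ 2 : ℕ) : ℤ) = ((u ^ 2 * r * p + s ^ 2 * x : ℕ) : ℤ) := by
      rw [h1]
    push_cast at h3 ⊢
    linear_combination h3
  -- `x` is coprime to `N`
  have hxN : ∀ x ∈ A, ∀ l : ℕ, l.Prime → l ∣ x → ¬ l ∣ N := by
    intro x hx l hl hlx hlN
    have hBurp : l ∣ u ^ 2 * r * p → l ∣ u * r * p := by
      intro h5
      rcases (hl.dvd_mul).1 h5 with h7 | h7
      · rcases (hl.dvd_mul).1 h7 with h8 | h8
        · exact Dvd.dvd.mul_right (Dvd.dvd.mul_right (hl.dvd_of_dvd_pow h8) _) _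
        · exact Dvd.dvd.mul_right (Dvd.dvd.mul_left h8 _) _
      · exact Dvd.dvd.mul_left h7 _
    have hlsx : l ∣ s ^ 2 * x := Dvd.dvd.mul_left hlx _
    rw [hN] at hlN
    rcases (hl.dvd_mul).1 hlN with h1 | h1
    · rcases (hl.dvd_mul).1 h1 with h2 | h2
      · have h3 : l ∣ a0 := by
          have h4 : x * p ^ 3 ≡ a0 [MOD l] := (hA1 x hx).of_dvd h2
          have h5 : 0 ≡ a0 [MOD l] :=
            ((Nat.modEq_zero_iff_dvd.2 (Dvd.dvd.mul_right hlx _)).symm).trans h4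
          exact Nat.modEq_zero_iff_dvd.1 h5.symm
        exact not_both ha0 hl h3 h2
      · have h3 : l ∣ v := hl.dvd_of_dvd_pow h2
        have h4 : l ∣ u ^ 2 * r * p - s ^ 2 * x := h2.trans (hdv x hx)
        have h5 : l ∣ u ^ 2 * r * p := by
          have h6 := hlt' x hx
          rw [hBdef] at h6
          have h7 := dvd_add h4 hlsx
          rwa [Nat.sub_add_cancel h6.le] at h7
        exact not_both hvB hl h3 (hBurp h5)
    · have h3 : l ∣ w := hl.dvd_of_dvd_pow h1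
      have h4 : l ∣ u ^ 2 * r * p + s ^ 2 * x := h1.trans (hdw x hx)
      have h5 : l ∣ u ^ 2 * r * p := (Nat.dvd_add_left hlsx).1 h4
      exact not_both hwB hl h3 (hBurp h5)
  -- (1)
  have hNu : Nat.Coprime N u := by
    rw [hN]
    refine Nat.Coprime.mul_left (Nat.Coprime.mul_left huW.symm ?_) ?_
    · exact Nat.Coprime.pow_left 2 (Nat.Coprime.coprime_dvd_right ⟨r * p, by ring⟩ hvB)
    · exact Nat.Coprime.pow_left 2 (Nat.Coprime.coprime_dvd_right ⟨r * p, by ring⟩ hwB)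
  have hNr : Nat.Coprime N r := by
    rw [hN]
    refine Nat.Coprime.mul_left (Nat.Coprime.mul_left hrW.symm ?_) ?_
    · exact Nat.Coprime.pow_left 2 (Nat.Coprime.coprime_dvd_right ⟨u * p, by ring⟩ hvB)
    · exact Nat.Coprime.pow_left 2 (Nat.Coprime.coprime_dvd_right ⟨u * p, by ring⟩ hwB)
  have r1 := hC D N u A hN0 hcop.u0 hNu hAsub hAA
  have r2 := hC D N r A hN0 hcop.r0 hNr hAsub hAA
  -- (2)
  have r3 : ((A.filter (fun x => ¬ Squarefree x)).card : ℝ) ≤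
      (D : ℝ) / (1000 * N) + (Nat.sqrt (2 * D) : ℕ) := by
    refine hS D N (Nat.sqrt (2 * D)) A (fun l x => l ^ 2 ∣ x) hN0 hAsub ?_ ?_ _
      (filter_subset _ _) ?_
    · intro l hl hl1 y hy h
      refine hxN y hy l hl (dvd_trans (dvd_pow_self l two_ne_zero) h) ?_
      rw [hN]
      exact Dvd.dvd.mul_right (Dvd.dvd.mul_right (hW.2 l hl hl1) _) _
    · intro l hl hl1 y hy z hz h1 h2
      have h3 : Nat.Coprime N (l ^ 2) := by
        refine Nat.Coprime.pow_right 2 ?_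
        rw [Nat.coprime_comm, Nat.Prime.coprime_iff_not_dvd hl]
        exact hxN y hy l hl (dvd_trans (dvd_pow_self l two_ne_zero) h1)
      refine (Nat.modEq_and_modEq_iff_modEq_mul h3).1 ⟨hAA y hy z hz, ?_⟩
      exact (Nat.modEq_zero_iff_dvd.2 h1).trans (Nat.modEq_zero_iff_dvd.2 h2).symm
    · intro y hy
      obtain ⟨hy1, hy2⟩ := mem_filter.1 hy
      rw [Nat.squarefree_iff_prime_squarefree] at hy2
      push Not at hy2
      obtain ⟨l, hl, hlx⟩ := hy2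
      refine ⟨l, hl, ?_, by rw [pow_two]; exact hlx⟩
      rw [Nat.le_sqrt]
      exact (Nat.le_of_dvd (by have := (hAI y hy1).1; omega) hlx).trans (hAI y hy1).2
  -- (3), (4)
  have r4 := sq_part (L1 := L1) hS hW huW hrW hcop.pW hcop.Ws hcop.su (α := v) (β := w) (D := D)
    (N := N) (e := -1) (by norm_num) hv0 hw0 hvs hwB hcop.vw hvW hN hAsub hAA
    (fun x => cc x u r v s p) hccx (fun x hx => by
      have h1 := hA3 x hx
      rw [hBdef] at h1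
      have h2 : ((u ^ 2 * r * p : ℕ) : ℤ) - -1 * ((s : ℤ) ^ 2 * x) =
        ((u ^ 2 * r * p : ℕ) : ℤ) + (s : ℤ) ^ 2 * x := by ring
      rw [h2]
      exact h1)
  have r5 := sq_part (L1 := L1) hS hW huW hrW hcop.pW hcop.Ws hcop.su (α := w) (β := v) (D := D)
    (N := N) (e := 1) (by norm_num) hw0 hv0 hws hvB hcop.vw.symm hwW (by rw [hN]; ring) hAsub hAA
    (fun x => dd x u r w s p) hddx (fun x hx => by
      have h1 := hA2 x hx
      rw [hBdef] at h1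
      rw [one_mul]
      exact h1)
  -- the union
  have hsub : A ⊆ ((Iv D).filter (fun x => XOK W a0 L1 u r v w s p x)) ∪
      (A.filter (fun y : ℕ => ¬ Nat.Coprime y u) ∪ (A.filter (fun y : ℕ => ¬ Nat.Coprime y r) ∪
      (A.filter (fun x => ¬ Squarefree x) ∪
      (A.filter (fun x => ∃ l : ℕ, l.Prime ∧ l ≤ L1 ∧ l ^ 2 ∣ cc x u r v s p) ∪
      A.filter (fun x => ∃ l : ℕ, l.Prime ∧ l ≤ L1 ∧ l ^ 2 ∣ dd x u r w s p))))) := by
    intro x hx
    by_contra hcon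
    simp only [mem_union, mem_filter, not_or, not_and, not_not, hx, hAsub hx, true_implies,
      not_exists] at hcon
    obtain ⟨q0, q1, q2, q3, q4, q5⟩ := hcon
    exact q0 ⟨hA1 x hx, hdv x hx, hdw x hx, q3, Nat.Coprime.mul_right q1 q2,
      fun l hl hl1 => ⟨q4 l hl hl1, q5 l hl hl1⟩⟩
  have hcard := (card_le_card hsub).trans ((card_union_le _ _).trans (Nat.add_le_add_left
    ((card_union_le _ _).trans (Nat.add_le_add_left ((card_union_le _ _).trans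
      (Nat.add_le_add_left ((card_union_le _ _).trans (Nat.add_le_add_left
        (card_union_le _ _) _)) _)) _)) _))
  have hcard' : (A.card : ℝ) ≤
      (((Iv D).filter (fun x => XOK W a0 L1 u r v w s p x)).card : ℝ) +
      (((A.filter (fun y : ℕ => ¬ Nat.Coprime y u)).card : ℝ) +
      (((A.filter (fun y : ℕ => ¬ Nat.Coprime y r)).card : ℝ) +
      (((A.filter (fun x => ¬ Squarefree x)).card : ℝ) +
      (((A.filter (fun x => ∃ l : ℕ, l.Prime ∧ l ≤ L1 ∧ l ^ 2 ∣ cc x u r v s p)).card : ℝ) +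
      ((A.filter (fun x => ∃ l : ℕ, l.Prime ∧ l ≤ L1 ∧ l ^ 2 ∣ dd x u r w s p)).card : ℝ))))) := by
    exact_mod_cast hcard
  -- numbers
  have hNr0 : (0 : ℝ) < N := by exact_mod_cast hN0
  obtain ⟨X, hX⟩ : ∃ X : ℝ, X = (D : ℝ) / N := ⟨_, rfl⟩
  have hX0 : 0 ≤ X := by rw [hX]; positivity
  have hbig' : (u.primeFactors.card : ℝ) + r.primeFactors.card + (Nat.sqrt (2 * D) : ℕ) + 2 * L1 + 2 ≤
      X / 16 := by
    rw [← hN] at hbig
    have h1 : (16 : ℝ) * N * ((u.primeFactors.card : ℝ) + r.primeFactors.card +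
        (Nat.sqrt (2 * D) : ℕ) + 2 * L1 + 2) ≤ D := by exact_mod_cast hbig
    rw [hX, div_div, le_div_iff₀ (by positivity)]
    linarith
  have s1 : sig u * D / N ≤ 1 / 32 * X := by
    rw [mul_div_assoc, ← hX]
    exact mul_le_mul_of_nonneg_right hcop.sigu hX0
  have s2 : sig r * D / N ≤ 1 / 32 * X := by
    rw [mul_div_assoc, ← hX]
    exact mul_le_mul_of_nonneg_right hcop.sigr hX0
  have s3 : (D : ℝ) / (1000 * N) = X / 1000 := by
    rw [hX]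
    field_simp
  have s4 : (D : ℝ) / (2 * (W * v ^ 2 * w ^ 2)) = X / 2 := by
    rw [hX, hN]
    push_cast
    field_simp
  rw [s3] at r3 r4 r5
  rw [s4]
  rw [← hX] at hAcard
  have hz1 : (0 : ℝ) ≤ (u.primeFactors.card : ℝ) := Nat.cast_nonneg _
  have hz2 : (0 : ℝ) ≤ (r.primeFactors.card : ℝ) := Nat.cast_nonneg _
  have hz3 : (0 : ℝ) ≤ ((Nat.sqrt (2 * D) : ℕ) : ℝ) := Nat.cast_nonneg _
  have hz4 : (0 : ℝ) ≤ (L1 : ℝ) := Nat.cast_nonneg _
  linarith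

end Pool.Agent.T2h1.CG.XCT
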