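import Pool.Agent.T2h1.CG.Stm2

/-! Project CG, task XGE: from powers of two to all `X`. -/

set_option autoImplicit false

namespace Pool.Agent.T2h1.CG.XGE

open Pool.Agent.T2h1.CG

theorem xge (K : ℕ) (hK : 0 < K) (F : ℕ → ℝ) (hF : Monotone F) (h : ∃ c : ℝ, 0 < c ∧ ∃ m0 : ℕ, ∀ m : ℕ, m0 ≤ m →
      c * 2 ^ (K * m) * (m : ℝ) ^ 4 ≤ F (2 ^ (2 * K * m))) :
    ∃ c : ℝ, 0 < c ∧ ∃ X0 : ℕ, ∀ X : ℕ, X0 ≤ X → c * Real.sqrt X * Real.log X ^ 4 ≤ F X := by
  obtain ⟨c, hc, m0, h⟩ := h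
  refine ⟨c / (2 ^ K * (4 * K) ^ 4), by positivity, 2 ^ (2 * K * (m0 + 1)), fun X hX => ?_⟩
  have hX0 : X ≠ 0 := by
    have : 0 < 2 ^ (2 * K * (m0 + 1)) := by positivity
    omega
  have hX1 : (1 : ℝ) ≤ X := by exact_mod_cast Nat.one_le_iff_ne_zero.2 hX0
  set m : ℕ := Nat.log 2 X / (2 * K) with hm
  have h2K : 0 < 2 * K := by omega
  have hm0 : m0 + 1 ≤ m := by
    rw [hm, Nat.le_div_iff_mul_le h2K, mul_comm]
    exact Nat.le_log_of_pow_le (by norm_num) hX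
  have h1 : 2 ^ (2 * K * m) ≤ X := by
    refine (Nat.pow_le_pow_right (by norm_num) ?_).trans (Nat.pow_log_le_self 2 hX0)
    rw [hm]
    exact Nat.mul_div_le _ _
  have h2 : X ≤ 2 ^ (2 * K * (m + 1)) := by
    refine (Nat.lt_pow_succ_log_self (by norm_num) X).le.trans (Nat.pow_le_pow_right (by norm_num) ?_)
    rw [hm]
    have := Nat.lt_mul_div_succ (Nat.log 2 X) h2K
    exact this
  have h2r : (X : ℝ) ≤ 2 ^ (2 * K * (m + 1)) := by exact_mod_cast h2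
  have hm1 : (1 : ℝ) ≤ m := by
    have : 1 ≤ m := by omega
    exact_mod_cast this
  have h3 : Real.sqrt X ≤ 2 ^ K * 2 ^ (K * m) := by
    rw [Real.sqrt_le_left (by positivity), ← pow_add, ← pow_mul]
    refine h2r.trans (le_of_eq ?_)
    congr 1
    ring
  have hlog0 : 0 ≤ Real.log X := Real.log_nonneg hX1
  have h4 : Real.log X ≤ 4 * K * m := by
    have h5 : Real.log X ≤ Real.log (2 ^ (2 * K * (m + 1))) := Real.log_le_log (by linarith) h2r
    rw [Real.log_pow] at h5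
    push_cast at h5
    have h6 : Real.log 2 ≤ 1 := by
      have := Real.log_two_lt_d9
      linarith
    have h7 : (0 : ℝ) ≤ 2 * K * (m + 1) := by positivity
    calc Real.log X ≤ 2 * K * (m + 1) * Real.log 2 := h5
      _ ≤ 2 * K * (m + 1) * 1 := mul_le_mul_of_nonneg_left h6 h7
      _ ≤ 4 * K * m := by
          have : (0 : ℝ) ≤ K := Nat.cast_nonneg _
          nlinarith
  have h5 : Real.sqrt X * Real.log X ^ 4 ≤ (2 ^ K * 2 ^ (K * m)) * (4 * K * m) ^ 4 :=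
    mul_le_mul h3 (pow_le_pow_left₀ hlog0 h4 4) (by positivity) (by positivity)
  have hK0 : (0 : ℝ) < K := by exact_mod_cast hK
  calc c / (2 ^ K * (4 * K) ^ 4) * Real.sqrt X * Real.log X ^ 4
      = c / (2 ^ K * (4 * K) ^ 4) * (Real.sqrt X * Real.log X ^ 4) := by ring
    _ ≤ c / (2 ^ K * (4 * K) ^ 4) * ((2 ^ K * 2 ^ (K * m)) * (4 * K * m) ^ 4) :=
        mul_le_mul_of_nonneg_left h5 (by positivity)
    _ = c * 2 ^ (K * m) * (m : ℝ) ^ 4 := by
        have : (2 : ℝ) ^ K ≠ 0 := by positivity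
        field_simp
    _ ≤ F (2 ^ (2 * K * m)) := h m (by omega)
    _ ≤ F X := hF h1

theorem mono_cN (M a : ℕ) : Monotone fun X : ℕ => (cN M a X : ℝ) := by
  intro X Y h
  refine Nat.cast_le.2 (Set.ncard_le_ncard ?_ ?_)
  · rintro n ⟨h1, h2⟩
    exact ⟨h1.trans h, h2⟩
  · exact (Set.finite_Iic Y).subset fun n hn => hn.1

theorem t_XGE : S_XGE := by
  intro M a h
  obtain ⟨c, hc, m0, h1⟩ := h
  refine xge 3000 (by norm_num) (fun X : ℕ => (cN M a X : ℝ)) (mono_cN M a) ⟨c, hc, m0, fun m hm => ?_⟩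
  have e : 2 * 3000 * m = 6000 * m := by ring
  rw [e]
  exact h1 m hm

end Pool.Agent.T2h1.CG.XGE
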